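import Pool.Agent.Work.MP_3e8c7a_s.Interface
import Pool.Agent.Work.MP_3e8c7a_k.B_COD

/-!
# MP_3e8c7a_an, THEOREM R*: from norms to bodies
-/

set_option autoImplicit false

namespace Pool.Agent.MP3e8c7as

open Module MP3e8c7a
open scoped Pointwise

/-- Up to a subspace of codimension at most `C` and a scalar `t` the two sets are within `C` of each other, without any
linear map. -/
def GeomClose (C : ℝ) {n : ℕ} (K L : Set (Fin n → ℝ)) : Prop :=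
  ∃ (U : Submodule ℝ (Fin n → ℝ)) (t : ℝ), 0 < t ∧ (n : ℝ) ≤ finrank ℝ U + C ∧
    K ∩ U ⊆ t • L ∧ (t • L) ∩ U ⊆ C • K

/-- Data of a cube section. -/
lemma sec_data {M : ℝ} (hM : 1 ≤ M) {m n : ℕ} {K : Set (Fin n → ℝ)}
    {p : Seminorm ℝ (Fin n → ℝ)} (hp : Def p) (hK : ∀ x, x ∈ K ↔ p x ≤ 1)
    (h : HasCubeSection M m K) : ∃ i : (Fin m → ℝ) →ₗ[ℝ] (Fin n → ℝ),
      ∀ z, p (i z) ≤ ‖z‖ ∧ ‖z‖ ≤ M * p (i z) := by
  obtain ⟨i, hi, h1, h2⟩ := h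
  refine ⟨i, fun a => ⟨?_, ?_⟩⟩
  · rcases (norm_nonneg a).lt_or_eq with h0 | h0
    · have h3 : i (‖a‖⁻¹ • a) ∈ K := by
        apply h1
        intro l
        show |‖a‖⁻¹ * a l| ≤ 1
        rw [abs_mul, abs_of_pos (inv_pos.2 h0), inv_mul_le_iff₀ h0, mul_one]
        exact norm_le_pi_norm a l
      rw [hK, map_smul, map_smul_eq_mul, Real.norm_eq_abs, abs_of_pos (inv_pos.2 h0),
        inv_mul_le_iff₀ h0, mul_one] at h3
      exact h3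
    · have h3 : a = 0 := norm_eq_zero.1 h0.symm
      rw [h3, map_zero, map_zero]
      exact norm_nonneg _
  · rcases (apply_nonneg p (i a)).lt_or_eq with h0 | h0
    · have h3 : i ((p (i a))⁻¹ • a) ∈ K := by
        rw [hK, map_smul, map_smul_eq_mul, Real.norm_eq_abs, abs_of_pos (inv_pos.2 h0),
          inv_mul_cancel₀ h0.ne']
      have h4 := h2 _ h3
      rw [pi_norm_le_iff_of_nonneg (by positivity)]
      intro l
      have h5 : |(p (i a))⁻¹ * a l| ≤ M := h4 l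
      rw [abs_mul, abs_of_pos (inv_pos.2 h0), inv_mul_le_iff₀ h0] at h5
      show |a l| ≤ M * p (i a)
      linarith
    · have h3 : i a = 0 := hp _ h0.symm
      have h4 : a = 0 := hi (by rw [h3, map_zero])
      rw [h4, norm_zero]
      exact mul_nonneg (by linarith) (apply_nonneg p _)

/-- Norm level. -/
theorem norm_level (hR : Stmt_RIG) (α b M : ℝ) (hα : 0 < α) (hα1 : α < 1) (hb : 1 ≤ b)
    (hM : 1 ≤ M) : ∃ C : ℝ, 1 ≤ C ∧ ∀ n : ℕ, 0 < n → ∀ p r : Seminorm ℝ (Fin n → ℝ), Def p → Def r →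
      Hyp b ⌈α * n⌉₊ p r → (∃ i : (Fin ⌈α * n⌉₊ → ℝ) →ₗ[ℝ] (Fin n → ℝ),
        ∀ z, p (i z) ≤ ‖z‖ ∧ ‖z‖ ≤ M * p (i z)) →
      (∃ (Y : Submodule ℝ (Fin n → ℝ)) (Λ : ℝ), (n : ℝ) ≤ finrank ℝ Y + C ∧ 0 < Λ ∧
        ∀ y ∈ Y, p y ≤ C * (Λ * r y) ∧ Λ * r y ≤ C * p y) ∧ Iso C p r := by
  obtain ⟨C₀, K, hC₀, hR⟩ := hR b M hb hM
  have hcod := MP3e8c7ak.COD
  have hC2 : 1 ≤ C₀ * C₀ := by nlinarith
  choose f hf1 hf2 using fun m : ℕ => hcod m (C₀ * C₀) hC2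
  -- the bound for small `n`
  obtain ⟨n₀, hn₀⟩ : ∃ n₀ : ℕ, ∀ n : ℕ, n₀ ≤ n → K ≤ ⌈α * n⌉₊ ∧ ⌈α * n⌉₊ + K ≤ n := by
    obtain ⟨n₁, h1⟩ := exists_nat_ge ((K : ℝ) / α)
    obtain ⟨n₂, h2⟩ := exists_nat_ge ((K + 1 : ℝ) / (1 - α))
    refine ⟨max n₁ n₂, fun n hn => ⟨?_, ?_⟩⟩
    · have h3 : (n₁ : ℝ) ≤ n := by exact_mod_cast (le_max_left _ _).trans hn
      have h4 : (K : ℝ) ≤ α * n := by
        have := h1.trans h3
        rw [div_le_iff₀ hα] at this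
        linarith
      exact_mod_cast h4.trans (Nat.le_ceil _)
    · have h3 : (n₂ : ℝ) ≤ n := by exact_mod_cast (le_max_right _ _).trans hn
      have h4 : (K + 1 : ℝ) ≤ (1 - α) * n := by
        have := h2.trans h3
        rw [div_le_iff₀ (by linarith)] at this
        linarith
      have h5 : (⌈α * n⌉₊ : ℝ) < α * n + 1 := Nat.ceil_lt_add_one (by positivity)
      have h6 : ((⌈α * n⌉₊ + K : ℕ) : ℝ) ≤ n := by
        push_cast
        linarith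
      exact_mod_cast h6
  set N := max K n₀ with hN
  have hfs : ∀ m ≤ N, f m ≤ ∑ j ∈ Finset.range (N + 1), f j := fun m hm =>
    Finset.single_le_sum (f := f) (fun j _ => by linarith [hf1 j]) (Finset.mem_range.2 (by omega))
  set F := ∑ j ∈ Finset.range (N + 1), f j with hF
  have hF1 : 1 ≤ F := (hf1 0).trans (hfs 0 (Nat.zero_le _))
  have hN0 : (0 : ℝ) ≤ N := Nat.cast_nonneg N
  refine ⟨C₀ + N + F, by linarith, ?_⟩
  rintro n hn p r hp hr H ⟨i, hi⟩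
  have hfr : finrank ℝ (Fin n → ℝ) = n := by
    rw [Module.finrank_fintype_fun_eq_card, Fintype.card_fin]
  obtain ⟨Y, Λ, hY, hΛ, hYb⟩ : ∃ (Y : Submodule ℝ (Fin n → ℝ)) (Λ : ℝ), n ≤ finrank ℝ Y + N ∧ 0 < Λ ∧
      ∀ y ∈ Y, p y ≤ C₀ * (Λ * r y) ∧ Λ * r y ≤ C₀ * p y := by
    by_cases hcase : n₀ ≤ n
    · obtain ⟨k1, k2⟩ := hn₀ n hcase
      obtain ⟨Y, Λ, h1, h2, h3⟩ := hR (Fin n → ℝ) _ p r hp hr H k1 (by rw [hfr]; exact k2) i hi
      rw [hfr] at h1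
      exact ⟨Y, Λ, h1.trans (Nat.add_le_add_left (le_max_left _ _) _), h2, h3⟩
    · refine ⟨⊥, 1, ?_, one_pos, fun y hy => ?_⟩
      · have : n₀ ≤ N := le_max_right _ _
        omega
      · rw [(Submodule.mem_bot ℝ).1 hy, map_zero, map_zero]
        simp
  have hYn : finrank ℝ Y ≤ n := by
    have := Submodule.finrank_le Y
    rwa [hfr] at this
  refine ⟨⟨Y, Λ, ?_, hΛ, fun y hy => ?_⟩, ?_⟩
  · have h1 : (n : ℝ) ≤ (finrank ℝ Y + N : ℕ) := by exact_mod_cast hY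
    push_cast at h1
    linarith
  · obtain ⟨h1, h2⟩ := hYb y hy
    have h3 : 0 ≤ Λ * r y := mul_nonneg hΛ.le (apply_nonneg r y)
    have h4 : 0 ≤ p y := apply_nonneg p y
    exact ⟨h1.trans (mul_le_mul_of_nonneg_right (by linarith) h3),
      h2.trans (mul_le_mul_of_nonneg_right (by linarith) h4)⟩
  · have h0 : 0 < C₀ * Λ := by positivity
    have h1 : Iso (C₀ * Λ * (C₀ / Λ)) (p.comp Y.subtype) (r.comp Y.subtype) := by
      refine Iso.of_bounds (LinearEquiv.refl ℝ Y) h0 (fun y => ?_) (fun y => ?_)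
      · have := (hYb y y.2).1
        show p (y : Fin n → ℝ) ≤ C₀ * Λ * r (y : Fin n → ℝ)
        linarith
      · have := (hYb y y.2).2
        show r (y : Fin n → ℝ) ≤ C₀ / Λ * p (y : Fin n → ℝ)
        rw [div_mul_eq_mul_div, le_div_iff₀ hΛ]
        linarith
    have h2 : C₀ * Λ * (C₀ / Λ) = C₀ * C₀ := by field_simp
    rw [h2] at h1
    have h3 := hf2 (n - finrank ℝ Y) (Fin n → ℝ) (Fin n → ℝ) p r hp hr Y Y (by omega) (by omega) h1
    refine h3.mono ((hfs _ (by omega)).trans ?_)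
    linarith

/-- **THEOREM R***, for bodies. -/
theorem body_level (hR : Stmt_RIG) (α b M : ℝ) (hα : 0 < α) (hα1 : α < 1) (hM : 1 ≤ M) :
    ∃ C : ℝ, 1 ≤ C ∧ ∀ n : ℕ, 0 < n → ∀ K L : Set (Fin n → ℝ), IsBody K → IsBody L →
      SectionsClose ⌈α * n⌉₊ b K L →
      (HasCubeSection M ⌈α * n⌉₊ K ∨ HasCubeSection M ⌈α * n⌉₊ L) →
      GeomClose C K L ∧ dBM K L ≤ ENNReal.ofReal C := by
  have hb : 1 ≤ |b| + 1 := by linarith [abs_nonneg b]
  obtain ⟨C, hC, h⟩ := norm_level hR α (|b| + 1) M hα hα1 hb hM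
  have hC2 : C ≤ C ^ 2 := by nlinarith
  have hC0 : 0 < C := by linarith
  refine ⟨C ^ 2, by linarith, ?_⟩
  intro n hn K L hK hL hS hcube
  obtain ⟨p, hp, hKp⟩ := hK.exists_seminorm
  obtain ⟨r, hr, hLr⟩ := hL.exists_seminorm
  have H : Hyp (|b| + 1) ⌈α * n⌉₊ p r := hS.hyp hp hr hKp hLr
  -- the symmetric conclusion
  obtain ⟨⟨Y, Λ, h1, h2, h3⟩, h4⟩ : (∃ (Y : Submodule ℝ (Fin n → ℝ)) (Λ : ℝ),
      (n : ℝ) ≤ finrank ℝ Y + C ∧ 0 < Λ ∧
        ∀ y ∈ Y, p y ≤ C * (Λ * r y) ∧ Λ * r y ≤ C * p y) ∧ Iso C p r := by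
    rcases hcube with hcube | hcube
    · exact h n hn p r hp hr H (sec_data hM hp hKp hcube)
    · obtain ⟨⟨Y, Λ, h1, h2, h3⟩, h4⟩ :=
        h n hn r p hr hp (H.symm (by linarith)) (sec_data hM hr hLr hcube)
      refine ⟨⟨Y, Λ⁻¹, h1, inv_pos.2 h2, fun y hy => ?_⟩, h4.symm hC0⟩
      obtain ⟨h5, h6⟩ := h3 y hy
      constructor
      · have h7 : p y = Λ⁻¹ * (Λ * p y) := by field_simp
        rw [h7]
        calc Λ⁻¹ * (Λ * p y) ≤ Λ⁻¹ * (C * r y) := mul_le_mul_of_nonneg_left h6 (inv_pos.2 h2).le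
          _ = C * (Λ⁻¹ * r y) := by ring
      · rw [inv_mul_le_iff₀ h2]
        calc r y ≤ C * (Λ * p y) := h5
          _ = Λ * (C * p y) := by ring
  refine ⟨⟨Y, C / Λ, div_pos hC0 h2, by linarith, ?_, ?_⟩, ?_⟩
  · rintro x ⟨hx1, hx2⟩
    rw [Set.mem_smul_set_iff_inv_smul_mem₀ (div_pos hC0 h2).ne', hLr, map_smul_eq_mul,
      Real.norm_eq_abs, abs_of_pos (inv_pos.2 (div_pos hC0 h2)), inv_mul_le_iff₀ (div_pos hC0 h2),
      mul_one, le_div_iff₀ h2]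
    have h5 := (h3 x hx2).2
    have h6 := (hKp x).1 hx1
    nlinarith
  · rintro x ⟨hx1, hx2⟩
    rw [Set.mem_smul_set_iff_inv_smul_mem₀ (div_pos hC0 h2).ne', hLr, map_smul_eq_mul,
      Real.norm_eq_abs, abs_of_pos (inv_pos.2 (div_pos hC0 h2)), inv_mul_le_iff₀ (div_pos hC0 h2),
      mul_one, le_div_iff₀ h2] at hx1
    have h0 : 0 < C ^ 2 := by positivity
    rw [Set.mem_smul_set_iff_inv_smul_mem₀ h0.ne', hKp, map_smul_eq_mul,
      Real.norm_eq_abs, abs_of_pos (inv_pos.2 h0), inv_mul_le_iff₀ h0, mul_one]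
    have h5 := (h3 x hx2).1
    nlinarith
  · exact (h4.mono hC2).dBM_le (by linarith) hKp hLr

end Pool.Agent.MP3e8c7as
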