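import Pool.Agent.Work.MP_3e8c7a_s.Interface

set_option autoImplicit false

namespace Pool.Agent.MP3e8c7as

open Module MP3e8c7a

/-- The sign. -/
noncomputable def BIO_sg (x : ℝ) : ℝ := x / |x|

theorem BIO_sg_zero : BIO_sg 0 = 0 := by
  rw [BIO_sg, zero_div]

theorem BIO_sg_mul (x : ℝ) : x * BIO_sg x = |x| := by
  by_cases h : x = 0
  · rw [h, BIO_sg_zero]
    simp
  · have h1 : |x| ≠ 0 := abs_ne_zero.2 h
    rw [BIO_sg, ← mul_div_assoc, div_eq_iff h1]
    exact (abs_mul_abs_self x).symm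

theorem BIO_sg_le (x : ℝ) : |BIO_sg x| ≤ 1 := by
  rw [BIO_sg, abs_div, abs_abs]
  exact div_self_le_one |x|

/-- Norming functionals. -/
theorem BIO_norming {V : Type} [AddCommGroup V] [Module ℝ V] [FiniteDimensional ℝ V]
    (p : Seminorm ℝ V) (v : V) : ∃ f : V →ₗ[ℝ] ℝ, (∀ x, |f x| ≤ p x) ∧ f v = p v := by
  by_cases hv : v = 0
  · refine ⟨0, fun x => ?_, ?_⟩
    · rw [LinearMap.zero_apply, abs_zero]
      exact apply_nonneg p x
    · rw [hv, LinearMap.zero_apply, map_zero]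
  · have hinj : Function.Injective (LinearMap.toSpanSingleton ℝ V v) := by
      intro a b hab
      have h1 : a • v = b • v := hab
      exact smul_left_injective ℝ hv h1
    obtain ⟨g, hg1, hg2⟩ := exists_ext p (LinearMap.toSpanSingleton ℝ V v) hinj
      (C := 1) zero_le_one ((p v) • (LinearMap.id : ℝ →ₗ[ℝ] ℝ)) (fun a => by
        show |p v • a| ≤ 1 * p (a • v)
        rw [map_smul_eq_mul, smul_eq_mul, abs_mul, Real.norm_eq_abs,
          abs_of_nonneg (apply_nonneg p v), one_mul, mul_comm])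
    refine ⟨g, fun x => ?_, ?_⟩
    · have h1 := hg2 x
      rwa [one_mul] at h1
    · have h1 := hg1 1
      have h2 : (LinearMap.toSpanSingleton ℝ V v) 1 = v := one_smul ℝ v
      have h3 : ((p v) • (LinearMap.id : ℝ →ₗ[ℝ] ℝ)) 1 = p v := by
        show p v • (1 : ℝ) = p v
        rw [smul_eq_mul, mul_one]
      rw [h2, h3] at h1
      exact h1

theorem p_BIO (hTRI : Stmt_TRI) (hGRD : Stmt_GRD) (hKIL : Stmt_KIL) : Stmt_BIO := by
  intro m V _ _ _ p hp G Z hG hZ
  rcases Nat.eq_zero_or_pos m with rfl | hm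
  · exact ⟨fun i => i.elim0, fun i => i.elim0, fun i => i.elim0, fun i => i.elim0,
      fun i => i.elim0, fun i => i.elim0⟩
  choose φ hφ1 hφ2 using BIO_norming p
  obtain ⟨N, hN⟩ : ∃ N, N = m * (m + 1) := ⟨_, rfl⟩
  have hN1 : 1 ≤ N := by
    rw [hN]
    exact Nat.mul_pos hm (Nat.succ_pos m)
  obtain ⟨g, hg1, hg2⟩ : ∃ g : Fin N → V, (∀ i, g i ∈ Z ∧ g i ≠ 0) ∧
      ∀ i l, i < l → φ (g i) (g l) = 0 := by
    rcases hGRD V N Z (fun v => v ≠ 0) φ hN1 with ⟨Y, -, h2, h3⟩ | h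
    · exfalso
      have hY : Y = ⊥ := by
        rw [Submodule.eq_bot_iff]
        intro x hx
        exact not_not.1 (h3 x hx)
      rw [hY, finrank_bot] at h2
      omega
    · exact h
  have hpos : ∀ l, 0 < p (g l) := by
    intro l
    refine lt_of_le_of_ne (apply_nonneg p _) fun h => (hg1 l).2 (hp _ h.symm)
  obtain ⟨y, hy⟩ : ∃ y : Fin N → V, ∀ l, y l = (p (g l))⁻¹ • g l := ⟨_, fun l => rfl⟩
  have hyp : ∀ l, p (y l) = 1 := by
    intro l
    rw [hy, map_smul_eq_mul, Real.norm_eq_abs, abs_of_pos (inv_pos.2 (hpos l)),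
      inv_mul_cancel₀ (hpos l).ne']
  have hyZ : ∀ l, y l ∈ Z := fun l => by
    rw [hy]
    exact Z.smul_mem _ (hg1 l).1
  obtain ⟨R, hR⟩ : ∃ R : Fin N → Fin N → ℝ, ∀ i l, R i l = φ (g i) (y l) := ⟨_, fun i l => rfl⟩
  obtain ⟨-, S, hS1, hS2⟩ := hTRI N R
    (fun i => by
      rw [hR, hy, map_smul, hφ2, smul_eq_mul, inv_mul_cancel₀ (hpos i).ne'])
    (fun i l hil => by
      rw [hR, hy, map_smul, hg2 i l hil, smul_zero])
    (fun i l => by
      rw [hR, ← hyp l]
      exact hφ1 _ _)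
  have hfin : finrank ℝ (Module.Dual ℝ G) < m + 1 := by
    rw [Subspace.dual_finrank_eq]
    omega
  obtain ⟨c, hc, hcf⟩ := hKIL (Module.Dual ℝ G) m (m + 1) N (fun t => (φ (g t)) ∘ₗ G.subtype) hfin
    (le_of_eq hN.symm)
  obtain ⟨sg, hsg⟩ : ∃ sg : Fin m → Fin N → ℝ, ∀ l t, sg l t = BIO_sg (c l t) :=
    ⟨_, fun l t => rfl⟩
  have hsgn : ∀ l, ‖sg l‖ ≤ 1 := by
    intro l
    rw [pi_norm_le_iff_of_nonneg zero_le_one]
    intro t
    rw [Real.norm_eq_abs, hsg]
    exact BIO_sg_le _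
  refine ⟨fun l => ∑ t, (S (sg l)) t • y t, fun i => ∑ t, c i t • φ (g t), fun l => ⟨?_, ?_⟩,
    fun i x => ?_, fun i x hx => ?_, fun i l => ?_⟩
  · exact Z.sum_mem fun t _ => Z.smul_mem _ (hyZ t)
  · have h1 : p (∑ t, (S (sg l)) t • y t) ≤ ∑ t, p ((S (sg l)) t • y t) :=
      Finset.le_sum_of_subadditive p (map_zero p).le (map_add_le_add p) _ _
    refine h1.trans ?_
    have h2 : ∀ t ∈ Finset.univ, p ((S (sg l)) t • y t) ≤ 2 ^ N := by
      intro t _
      rw [map_smul_eq_mul, hyp, mul_one]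
      refine (norm_le_pi_norm (S (sg l)) t).trans ((hS2 _).trans ?_)
      have h3 : (0 : ℝ) < 2 ^ N := by positivity
      nlinarith [hsgn l]
    refine (Finset.sum_le_sum h2).trans ?_
    rw [Finset.sum_const, Finset.card_univ, Fintype.card_fin, nsmul_eq_mul, c1, ← hN]
    rw [hN]
    push_cast
    exact le_refl _
  · rw [LinearMap.sum_apply]
    refine (Finset.abs_sum_le_sum_abs _ _).trans ?_
    have h1 : ∀ t ∈ Finset.univ, |(c i t • φ (g t)) x| ≤ |c i t| * p x := by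
      intro t _
      rw [LinearMap.smul_apply, smul_eq_mul, abs_mul]
      exact mul_le_mul_of_nonneg_left (hφ1 _ _) (abs_nonneg _)
    refine (Finset.sum_le_sum h1).trans ?_
    rw [← Finset.sum_mul, hc.one, one_mul]
  · have h1 := congrArg (fun f : Module.Dual ℝ G => f ⟨x, hx⟩) (hcf i)
    have h2 : (∑ t, c i t • ((φ (g t)) ∘ₗ G.subtype : Module.Dual ℝ G)) ⟨x, hx⟩ =
        (∑ t, c i t • φ (g t)) x := by
      rw [LinearMap.sum_apply, LinearMap.sum_apply]
      rfl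
    exact h2.symm.trans h1
  · have h1 : (∑ t, c i t • φ (g t)) (∑ t, (S (sg l)) t • y t) = ∑ t, c i t * sg l t := by
      rw [LinearMap.sum_apply]
      refine Finset.sum_congr rfl fun t _ => ?_
      rw [LinearMap.smul_apply, smul_eq_mul, map_sum]
      congr 1
      rw [← hS1 (sg l) t]
      refine Finset.sum_congr rfl fun u _ => ?_
      rw [map_smul, smul_eq_mul, hR, mul_comm]
    rw [h1]
    by_cases hil : i = l
    · subst hil
      rw [if_pos rfl, ← hc.one i]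
      refine Finset.sum_congr rfl fun t _ => ?_
      rw [hsg, BIO_sg_mul]
    · rw [if_neg hil]
      refine Finset.sum_eq_zero fun t _ => ?_
      rcases hc.dis i l t hil with h | h
      · rw [h, zero_mul]
      · rw [hsg, h, BIO_sg_zero, mul_zero]

end Pool.Agent.MP3e8c7as
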