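import Pool.Agent.Work.MP_3e8c7a_s.Interface

/-! # Block CMP (helper71) -/

set_option autoImplicit false

namespace Pool.Agent.MP3e8c7as

open Module MP3e8c7a

theorem CMP_abs {N : ℕ} (f : Fin N → ℝ) (h : ∀ t t', t ≠ t' → f t = 0 ∨ f t' = 0) :
    |∑ t, f t| = ∑ t, |f t| := by
  by_cases h0 : ∃ t, f t ≠ 0
  · obtain ⟨t, ht⟩ := h0
    have h1 : ∀ t' ∈ Finset.univ, t' ≠ t → f t' = 0 := by
      intro t' _ hne
      rcases h t t' (Ne.symm hne) with h2 | h2
      · exact absurd h2 ht
      · exact h2
    rw [Finset.sum_eq_single t h1 (fun h2 => absurd (Finset.mem_univ t) h2),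
      Finset.sum_eq_single t (fun t' h2 h3 => by rw [h1 t' h2 h3, abs_zero])
        (fun h2 => absurd (Finset.mem_univ t) h2)]
  · push Not at h0
    simp [h0]

theorem p_CMP : Stmt_CMP := by
  intro L M N c β hc hβ
  refine ⟨?_, ?_⟩
  · intro s
    have h1 : ∀ i, |cmp c β s i| = ∑ t, |c s t| * |β t i| := by
      intro i
      unfold cmp
      rw [CMP_abs (fun t => c s t * β t i)]
      · exact Finset.sum_congr rfl fun t _ => abs_mul _ _
      · intro t t' hne
        rcases hβ.dis t t' i hne with h2 | h2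
        · exact Or.inl (by rw [h2, mul_zero])
        · exact Or.inr (by rw [h2, mul_zero])
    calc ∑ i, |cmp c β s i| = ∑ i, ∑ t, |c s t| * |β t i| := Finset.sum_congr rfl fun i _ => h1 i
      _ = ∑ t, ∑ i, |c s t| * |β t i| := Finset.sum_comm
      _ = ∑ t, |c s t| := by
          refine Finset.sum_congr rfl fun t _ => ?_
          rw [← Finset.mul_sum, hβ.one t, mul_one]
      _ = 1 := hc.one s
  · intro s s' i hne
    by_contra hcon
    rw [not_or] at hcon
    obtain ⟨h1, h2⟩ := hcon
    obtain ⟨t, -, ht⟩ := Finset.exists_ne_zero_of_sum_ne_zero h1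
    obtain ⟨t', -, ht'⟩ := Finset.exists_ne_zero_of_sum_ne_zero h2
    have hb : β t i ≠ 0 := right_ne_zero_of_mul ht
    have hb' : β t' i ≠ 0 := right_ne_zero_of_mul ht'
    have htt : t = t' := by
      by_contra h3
      rcases hβ.dis t t' i h3 with h4 | h4
      · exact hb h4
      · exact hb' h4
    subst htt
    rcases hc.dis s s' t hne with h4 | h4
    · exact left_ne_zero_of_mul ht h4
    · exact left_ne_zero_of_mul ht' h4

end Pool.Agent.MP3e8c7as
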