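import Pool.Agent.Work.MP_3e8c7a_s.Interface

/-!
# Block EXC: the tilt
-/

set_option autoImplicit false

namespace Pool.Agent.MP3e8c7as

open Module MP3e8c7a

theorem EXC_c1_pos (m : ℕ) (hm : 1 ≤ m) : 0 < c1 m := by
  unfold c1
  have : (0 : ℝ) < (m : ℝ) := by exact_mod_cast hm
  positivity

theorem EXC_sum_le {V : Type} [AddCommGroup V] [Module ℝ V] (p : Seminorm ℝ V) {m : ℕ}
    (x : Fin m → V) (B : ℝ) (h : ∀ l, p (x l) ≤ B) : p (∑ l, x l) ≤ m * B := by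
  have h1 : p (∑ l, x l) ≤ ∑ l, p (x l) := by
    refine Finset.le_sum_of_subadditive p (map_zero p).le (map_add_le_add p) _ _
  refine h1.trans ((Finset.sum_le_sum fun l _ => h l).trans ?_)
  rw [Finset.sum_const, Finset.card_univ, Fintype.card_fin, nsmul_eq_mul]

/-- The kernel of finitely many functionals. -/
theorem EXC_dim {V : Type} [AddCommGroup V] [Module ℝ V] [FiniteDimensional ℝ V] {k m : ℕ}
    (φ : V →ₗ[ℝ] (Fin k → ℝ)) (ψ : Fin m → (V →ₗ[ℝ] ℝ)) :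
    finrank ℝ V ≤ finrank ℝ (LinearMap.ker (φ.prod (LinearMap.pi ψ))) + (k + m) := by
  have h1 := LinearMap.finrank_range_add_finrank_ker (φ.prod (LinearMap.pi ψ))
  have h2 := Submodule.finrank_le (LinearMap.range (φ.prod (LinearMap.pi ψ)))
  rw [Module.finrank_prod, Module.finrank_fin_fun, Module.finrank_fin_fun] at h2
  omega

theorem EXC_core (hBIO : Stmt_BIO) (m k : ℕ) (C Λ : ℝ) (V : Type) [AddCommGroup V] [Module ℝ V]
    [FiniteDimensional ℝ V] (p r : Seminorm ℝ V) (i : (Fin k → ℝ) →ₗ[ℝ] V)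
    (φ : V →ₗ[ℝ] (Fin k → ℝ)) (hm : 1 ≤ m) (hC : 1 ≤ C) (hΛ : 0 < Λ) (hp : Def p)
    (hφi : ∀ a, φ (i a) = a) (hIso : Iso C (p.comp i) (normSeminorm ℝ (Fin k → ℝ)))
    (hproj : ∀ x, p (i (φ x)) ≤ C * p x)
    (hSys : ∃ (D : ℕ) (f : Fin D → Fin k → ℝ), (∀ u z, |dt (f u) z| ≤ Λ * r (i z)) ∧
      ∀ κ : Fin D → (Fin m ⊕ Fin m → ℝ),
      ∃ (c : Fin m ⊕ Fin m → Fin D → ℝ)
        (X : (Fin m ⊕ Fin m → ℝ) →ₗ[ℝ] (Fin k → ℝ)),
        (∀ j, ∑ u, |c j u| ≤ 1) ∧ (∀ j, ∑ u, c j u • κ u = 0) ∧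
        (∀ a j, ∑ u, c j u * dt (f u) (X a) = a j) ∧ (∀ a, p (i (X a)) ≤ C * ‖a‖) ∧
        ∀ j z, |∑ u, c j u * dt (f u) z| ≤ C * p (i z))
    (hdim : k + m * (m + 2) ≤ finrank ℝ V) (g : Fin m → V) (ψ : Fin m → (V →ₗ[ℝ] ℝ))
    (hψ : ∀ l x, |ψ l x| ≤ p x) :
    ∃ (i' : (Fin k → ℝ) →ₗ[ℝ] V) (U : (Fin k → ℝ) →ₗ[ℝ] (Fin m ⊕ Fin m → ℝ))
    (X : (Fin m ⊕ Fin m → ℝ) →ₗ[ℝ] (Fin k → ℝ)), (∀ a, φ (i' a) = a) ∧
    Iso (3 * C) (p.comp i') (normSeminorm ℝ (Fin k → ℝ)) ∧ (∀ x, p (i' (φ x)) ≤ 3 * C * p x) ∧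
    (∀ a, U (X a) = a) ∧ (∀ a, p (i' (X a)) ≤ 3 * C * ‖a‖) ∧ (∀ z, ‖U z‖ ≤ 3 * C * p (i' z)) ∧
    (∀ z, ‖U z‖ ≤ Λ * r (i' z)) ∧
    (∀ l, U (φ (g l)) = 0) ∧ ∀ (a : Fin m → ℝ) (j : Fin m),
      |ψ j (∑ l, a l • g l)| ≤ c2 m * p ((∑ l, a l • g l) - i' (φ (∑ l, a l • g l))) := by
  have hm0 : (0 : ℝ) < (m : ℝ) := by exact_mod_cast hm
  have hc1 : 0 < c1 m := EXC_c1_pos m hm
  have hC0 : 0 < C := by linarith
  -- the biorthogonal system
  have hG : finrank ℝ (Submodule.span ℝ (Set.range fun l => g l - i (φ (g l)))) ≤ m := by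
    have h := finrank_range_le_card (R := ℝ) (fun l => g l - i (φ (g l)))
    rw [Fintype.card_fin] at h
    exact h
  have hZ : m * (m + 1) ≤ finrank ℝ (LinearMap.ker (φ.prod (LinearMap.pi ψ))) := by
    have h := EXC_dim φ ψ
    have h2 : m * (m + 2) = m * (m + 1) + m := by ring
    omega
  obtain ⟨ω, χ, hω, hχ, hχG, hχω⟩ := hBIO m V p hp _ _ hG hZ
  have hωφ : ∀ l, φ (ω l) = 0 := by
    intro l
    have h := (hω l).1
    rw [LinearMap.mem_ker, LinearMap.prod_apply] at h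
    exact congrArg Prod.fst h
  have hωψ : ∀ l j, ψ j (ω l) = 0 := by
    intro l j
    have h := (hω l).1
    rw [LinearMap.mem_ker, LinearMap.prod_apply] at h
    exact congrFun (congrArg Prod.snd h) j
  obtain ⟨ε, hε⟩ : ∃ ε : ℝ, ε = 1 / (2 * m * c1 m) := ⟨_, rfl⟩
  have hε0 : 0 < ε := by rw [hε]; positivity
  have hεm : m * (ε * c1 m) = 1 / 2 := by
    rw [hε]
    field_simp
  have hεi : ε⁻¹ = 2 * m * c1 m := by
    rw [hε, one_div, inv_inv]
  -- the tilt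
  set Ψ : (Fin k → ℝ) →ₗ[ℝ] V := ∑ l, (ψ l ∘ₗ i).smulRight (-(ε • ω l)) with hΨ
  have hΨa : ∀ z, Ψ z = ∑ l, ψ l (i z) • -(ε • ω l) := by
    intro z
    rw [hΨ, LinearMap.sum_apply]
    rfl
  have hΨp : ∀ z, p (Ψ z) ≤ 1 / 2 * p (i z) := by
    intro z
    rw [hΨa]
    refine (EXC_sum_le p _ (p (i z) * (ε * c1 m)) ?_).trans ?_
    · intro l
      rw [map_smul_eq_mul, map_neg_eq_map, map_smul_eq_mul, Real.norm_eq_abs, Real.norm_eq_abs,
        abs_of_pos hε0]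
      exact mul_le_mul (hψ l (i z)) (mul_le_mul_of_nonneg_left (hω l).2 hε0.le)
        (mul_nonneg hε0.le (apply_nonneg p _)) (apply_nonneg p _)
    · have h : (m : ℝ) * (p (i z) * (ε * c1 m)) = m * (ε * c1 m) * p (i z) := by ring
      rw [h, hεm]
  have hφΨ : ∀ z, φ (Ψ z) = 0 := by
    intro z
    rw [hΨa, map_sum]
    refine Finset.sum_eq_zero fun l _ => ?_
    rw [map_smul, map_neg, map_smul, hωφ, smul_zero, neg_zero, smul_zero]
  set i' : (Fin k → ℝ) →ₗ[ℝ] V := i + Ψ with hi'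
  have hi'a : ∀ z, i' z = i z + Ψ z := fun z => rfl
  have hφi' : ∀ a, φ (i' a) = a := by
    intro a
    rw [hi'a, map_add, hφi, hφΨ, add_zero]
  have hup : ∀ z, p (i' z) ≤ 3 / 2 * p (i z) := by
    intro z
    rw [hi'a]
    have h1 := map_add_le_add p (i z) (Ψ z)
    have h2 := hΨp z
    linarith
  have hlow : ∀ z, p (i z) ≤ 2 * p (i' z) := by
    intro z
    have h0 : i z = i' z - Ψ z := by rw [hi'a]; abel
    have h1 := map_sub_le_add p (i' z) (Ψ z)
    rw [← h0] at h1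
    have h2 := hΨp z
    linarith
  have hIso' : Iso (3 * C) (p.comp i') (normSeminorm ℝ (Fin k → ℝ)) := by
    have h1 : Iso (3 / 2 * 2) (p.comp i') (p.comp i) :=
      Iso.of_bounds (LinearEquiv.refl ℝ (Fin k → ℝ)) (A := 3 / 2) (B := 2) (by norm_num)
        (fun x => hup x) (fun x => hlow x)
    have h2 := h1.trans hIso hC0.le
    have h3 : (3 / 2 * 2 * C : ℝ) = 3 * C := by ring
    rw [h3] at h2
    exact h2
  -- the system
  obtain ⟨D, f, hf, hκ⟩ := hSys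
  have hinj' : Function.Injective i' := by
    intro a b hab
    have := congrArg φ hab
    rwa [hφi', hφi'] at this
  have hex : ∀ u : Fin D, ∃ γ : V →ₗ[ℝ] ℝ, (∀ z : (Fin k → ℝ), (∀ l, ψ l (i z) = 0) →
      γ (i' z) = dt (f u) z) ∧ ∀ x, |γ x| ≤ Λ * r x := by
    intro u
    obtain ⟨γ, h1, h2⟩ := exists_ext r (i' ∘ₗ (⨅ l, LinearMap.ker (ψ l ∘ₗ i)).subtype)
      (hinj'.comp Subtype.val_injective) hΛ.le
      (dl (f u) ∘ₗ (⨅ l, LinearMap.ker (ψ l ∘ₗ i)).subtype) (by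
        intro a
        have ha : ∀ l, ψ l (i (a : Fin k → ℝ)) = 0 := by
          intro l
          have h3 := (Submodule.mem_iInf _).1 a.2 l
          exact h3
        have h4 : i' (a : Fin k → ℝ) = i (a : Fin k → ℝ) := by
          rw [hi'a, hΨa]
          rw [Finset.sum_eq_zero fun l _ => by rw [ha l, zero_smul], add_zero]
        show |dl (f u) (a : Fin k → ℝ)| ≤ Λ * r (i' (a : Fin k → ℝ))
        rw [h4, dl_apply]
        exact hf u _)
    refine ⟨γ, ?_, h2⟩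
    intro z hz
    have hzm : z ∈ ⨅ l, LinearMap.ker (ψ l ∘ₗ i) := by
      rw [Submodule.mem_iInf]
      intro l
      exact hz l
    have h3 := h1 ⟨z, hzm⟩
    rw [← dl_apply]
    exact h3
  choose γ hγ1 hγ2 using hex
  have hτ : ∀ u : Fin D, ∃ τ : Fin m → ℝ, ∀ z, dt (f u) z = γ u (i' z) + ∑ l, τ l * ψ l (i z) := by
    intro u
    have hmem : dl (f u) - γ u ∘ₗ i' ∈ Submodule.span ℝ (Set.range fun l => ψ l ∘ₗ i) := by
      refine mem_span_of_iInf_ker_le_ker ?_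
      intro z hz
      rw [Submodule.mem_iInf] at hz
      have h1 : ∀ l, ψ l (i z) = 0 := fun l => hz l
      rw [LinearMap.mem_ker]
      show dl (f u) z - γ u (i' z) = 0
      rw [hγ1 u z h1, dl_apply, sub_self]
    obtain ⟨τ, hτ⟩ := (Submodule.mem_span_range_iff_exists_fun ℝ).1 hmem
    refine ⟨τ, fun z => ?_⟩
    have h2 := congrArg (fun F : (Fin k → ℝ) →ₗ[ℝ] ℝ => F z) hτ
    have h3 : ∑ l, τ l * ψ l (i z) = dl (f u) z - γ u (i' z) := by
      rw [← LinearMap.comp_apply (γ u) i', ← LinearMap.sub_apply, ← h2, LinearMap.sum_apply]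
      rfl
    rw [h3, dl_apply]
    ring
  choose τ hτ using hτ
  obtain ⟨c, X, hc1', hc2', hcX, hXp, hcp⟩ :=
    hκ (fun u => Sum.elim (τ u) (fun l => dt (f u) (φ (g l))))
  set U : (Fin k → ℝ) →ₗ[ℝ] (Fin m ⊕ Fin m → ℝ) := LinearMap.pi fun j => ∑ u, c j u • dl (f u)
    with hU
  have hUa : ∀ z j, U z j = ∑ u, c j u * dt (f u) z := by
    intro z j
    rw [hU, LinearMap.pi_apply, LinearMap.sum_apply]
    refine Finset.sum_congr rfl fun u _ => ?_
    rw [LinearMap.smul_apply, dl_apply, smul_eq_mul]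
  have hkl : ∀ j l, ∑ u, c j u * τ u l = 0 := by
    intro j l
    have h := congrFun (hc2' j) (Sum.inl l)
    rw [Finset.sum_apply] at h
    exact h
  have hkr : ∀ j l, ∑ u, c j u * dt (f u) (φ (g l)) = 0 := by
    intro j l
    have h := congrFun (hc2' j) (Sum.inr l)
    rw [Finset.sum_apply] at h
    exact h
  have hUγ : ∀ z j, U z j = ∑ u, c j u * γ u (i' z) := by
    intro z j
    rw [hUa]
    have h1 : ∑ u, c j u * dt (f u) z = ∑ u, c j u * γ u (i' z) +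
        ∑ l, (∑ u, c j u * τ u l) * ψ l (i z) := by
      simp only [hτ, mul_add, Finset.sum_add_distrib, Finset.mul_sum, Finset.sum_mul]
      congr 1
      rw [Finset.sum_comm]
      refine Finset.sum_congr rfl fun l _ => Finset.sum_congr rfl fun u _ => ?_
      ring
    rw [h1]
    simp only [hkl, zero_mul, Finset.sum_const_zero, add_zero]
  refine ⟨i', U, X, hφi', hIso', ?_, ?_, ?_, ?_, ?_, ?_, ?_⟩
  · intro x
    have h1 := hup (φ x)
    have h2 := hproj x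
    have h3 : 0 ≤ C * p x := mul_nonneg hC0.le (apply_nonneg p x)
    linarith
  · intro a
    funext j
    rw [hUa, hcX]
  · intro a
    have h1 := hup (X a)
    have h2 := hXp a
    have h3 : 0 ≤ C * ‖a‖ := mul_nonneg hC0.le (norm_nonneg a)
    linarith
  · intro z
    rw [pi_norm_le_iff_of_nonneg (mul_nonneg (by linarith) (apply_nonneg p _))]
    intro j
    rw [Real.norm_eq_abs, hUa]
    have h1 := hcp j z
    have h2 := mul_le_mul_of_nonneg_left (hlow z) hC0.le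
    have h3 : 0 ≤ C * p (i' z) := mul_nonneg hC0.le (apply_nonneg p _)
    linarith
  · intro z
    rw [pi_norm_le_iff_of_nonneg (mul_nonneg hΛ.le (apply_nonneg r _))]
    intro j
    rw [Real.norm_eq_abs, hUγ]
    refine (Finset.abs_sum_le_sum_abs _ _).trans ?_
    have h1 : ∀ u ∈ Finset.univ, |c j u * γ u (i' z)| ≤ |c j u| * (Λ * r (i' z)) := by
      intro u _
      rw [abs_mul]
      exact mul_le_mul_of_nonneg_left (hγ2 u _) (abs_nonneg _)
    refine (Finset.sum_le_sum h1).trans ?_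
    rw [← Finset.sum_mul]
    exact mul_le_of_le_one_left (mul_nonneg hΛ.le (apply_nonneg r _)) (hc1' j)
  · intro l
    funext j
    rw [hUa, hkr]
    rfl
  · intro a j
    set y : V := ∑ l, a l • g l with hy
    have hyG : y - i (φ y) ∈ Submodule.span ℝ (Set.range fun l => g l - i (φ (g l))) := by
      have h1 : y - i (φ y) = ∑ l, a l • (g l - i (φ (g l))) := by
        rw [hy, map_sum, map_sum, ← Finset.sum_sub_distrib]
        refine Finset.sum_congr rfl fun l _ => ?_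
        rw [map_smul, map_smul, smul_sub]
      rw [h1]
      exact Submodule.sum_mem _ fun l _ => Submodule.smul_mem _ _ (Submodule.subset_span ⟨l, rfl⟩)
    have h2 : y - i' (φ y) = (y - i (φ y)) - Ψ (φ y) := by
      rw [hi'a]
      abel
    have h3 : ψ j (Ψ (φ y)) = 0 := by
      rw [hΨa, map_sum]
      refine Finset.sum_eq_zero fun l _ => ?_
      rw [map_smul, map_neg, map_smul, hωψ, smul_zero, neg_zero, smul_zero]
    have h4 : χ j (Ψ (φ y)) = -(ε * ψ j (i (φ y))) := by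
      rw [hΨa, map_sum, Finset.sum_eq_single j]
      · rw [map_smul, map_neg, map_smul, hχω, if_pos rfl, smul_eq_mul, smul_eq_mul, mul_one]
        ring
      · intro l _ hne
        rw [map_smul, map_neg, map_smul, hχω, if_neg (Ne.symm hne), smul_zero, neg_zero, smul_zero]
      · intro hn
        exact absurd (Finset.mem_univ j) hn
    have h5 : ψ j y = ψ j (y - i' (φ y)) + ε⁻¹ * χ j (y - i' (φ y)) := by
      rw [h2, map_sub, map_sub (χ j), h3, h4, hχG j _ hyG, map_sub]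
      have : ε⁻¹ * (0 - -(ε * ψ j (i (φ y)))) = ψ j (i (φ y)) := by
        field_simp
        ring
      rw [this]
      ring
    rw [h5]
    have h6 := hψ j (y - i' (φ y))
    have h7 := hχ j (y - i' (φ y))
    have h8 : |ε⁻¹ * χ j (y - i' (φ y))| ≤ ε⁻¹ * p (y - i' (φ y)) := by
      rw [abs_mul, abs_of_pos (inv_pos.2 hε0)]
      exact mul_le_mul_of_nonneg_left h7 (inv_pos.2 hε0).le
    have h9 : c2 m * p (y - i' (φ y)) = p (y - i' (φ y)) + ε⁻¹ * p (y - i' (φ y)) := by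
      rw [hεi]
      unfold c2
      ring
    rw [h9]
    exact (abs_add_le _ _).trans (add_le_add h6 h8)

/-- Block EXC. -/
theorem p_EXC (hBIO : Stmt_BIO) : Stmt_EXC := by
  intro s k C Λ V _ _ _ p r i φ hs hC hΛ hp hφi hIso hproj hSys hdim g ψ hψ
  exact EXC_core hBIO (s * s) k C Λ V p r i φ (Nat.mul_pos hs hs) hC hΛ hp hφi hIso hproj hSys
    hdim g ψ hψ

end Pool.Agent.MP3e8c7as
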