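import Pool.Agent.Work.MP_3e8c7a_s.Interface

/-! Block FAC: factorisation and trace. -/

set_option autoImplicit false

namespace Pool.Agent.MP3e8c7as

open Module MP3e8c7a

theorem FAC_exp {m : ℕ} (φ : (Fin m → ℝ) →ₗ[ℝ] ℝ) (x : Fin m → ℝ) :
    φ x = ∑ l, x l * φ (Pi.single l 1) := by
  conv_lhs => rw [← Finset.univ_sum_single x]
  rw [map_sum]
  refine Finset.sum_congr rfl fun l _ => ?_
  have : (Pi.single l (x l) : Fin m → ℝ) = x l • (Pi.single l 1 : Fin m → ℝ) := by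
    rw [← Pi.single_smul, smul_eq_mul, mul_one]
  rw [this, map_smul, smul_eq_mul]

theorem FAC_row {m : ℕ} (φ : (Fin m → ℝ) →ₗ[ℝ] ℝ) {c : ℝ} (hc : 0 ≤ c)
    (h : ∀ a, |φ a| ≤ c * ‖a‖) : ∑ l, |φ (Pi.single l 1)| ≤ c := by
  let σ : Fin m → ℝ := fun l => if 0 ≤ φ (Pi.single l 1) then 1 else -1
  have h1 : φ σ = ∑ l, |φ (Pi.single l 1)| := by
    rw [FAC_exp φ σ]
    refine Finset.sum_congr rfl fun l _ => ?_
    show (if 0 ≤ φ (Pi.single l 1) then (1 : ℝ) else -1) * φ (Pi.single l 1) = _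
    split_ifs with h0
    · rw [abs_of_nonneg h0, one_mul]
    · rw [abs_of_neg (not_le.mp h0)]; ring
  have h2 : ‖σ‖ ≤ 1 := by
    rw [pi_norm_le_iff_of_nonneg zero_le_one]
    intro l
    show ‖(if 0 ≤ φ (Pi.single l 1) then (1 : ℝ) else -1)‖ ≤ 1
    split_ifs <;> simp
  calc ∑ l, |φ (Pi.single l 1)| = φ σ := h1.symm
    _ ≤ |φ σ| := le_abs_self _
    _ ≤ c * ‖σ‖ := h σ
    _ ≤ c * 1 := mul_le_mul_of_nonneg_left h2 hc
    _ = c := mul_one c

/-- `ap W` as a linear map. -/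
def FAC_W {m : ℕ} (W : Fin m → Fin m → ℝ) : (Fin m → ℝ) →ₗ[ℝ] (Fin m → ℝ) where
  toFun a := ap W a
  map_add' a b := by
    funext i
    simp [ap, mul_add, Finset.sum_add_distrib]
  map_smul' c a := by
    funext i
    simp only [ap, Pi.smul_apply, smul_eq_mul, RingHom.id_apply, Finset.mul_sum]
    refine Finset.sum_congr rfl fun j _ => ?_
    ring

theorem FAC_WW {s : ℕ} {W : Fin (s * s) → Fin (s * s) → ℝ} (hW : Wal s W)
    (a : Fin (s * s) → ℝ) : ap W (ap W a) = a := by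
  funext i
  simp only [ap, Finset.mul_sum]
  rw [Finset.sum_comm]
  have h : ∀ l, ∑ t, W i t * (W t l * a l) = if i = l then a l else 0 := by
    intro l
    simp_rw [← mul_assoc]
    rw [← Finset.sum_mul, hW.sq i l]
    split_ifs <;> simp
  simp_rw [h]
  simp

theorem FAC_We {m : ℕ} (W : Fin m → Fin m → ℝ) (l : Fin m) :
    ap W (Pi.single l 1) = fun i => W i l := by
  funext i
  simp [ap, Pi.single_apply]

/-- The trace argument. -/
theorem FAC_trace {s : ℕ} {W : Fin (s * s) → Fin (s * s) → ℝ} (hW : Wal s W) (hs : 1 ≤ s)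
    (L : ((Fin (s * s) → ℝ) × (Fin (s * s) → ℝ)) →ₗ[ℝ] (Fin (s * s) → ℝ)) {c : ℝ} (hc : 0 ≤ c)
    (h1 : ∀ a, L (a, ap W a) = a) (h2 : ∀ y, ‖L y‖ ≤ c * ‖y‖)
    (h3 : ∀ y, ‖ap W (L y)‖ ≤ c * ‖y‖) : (s : ℝ) ≤ 2 * c := by
  have hs' : (1 : ℝ) ≤ s := by exact_mod_cast hs
  -- rows of `K`
  have hK : ∀ i, ∑ l, |L (0, Pi.single l 1) i| ≤ c := by
    intro i
    refine FAC_row ((LinearMap.proj i) ∘ₗ L ∘ₗ (LinearMap.inr ℝ _ _)) hc (fun a => ?_)
    have e : ‖((0 : Fin (s * s) → ℝ), a)‖ = ‖a‖ := by simp [Prod.norm_def]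
    have e2 : |L (0, a) i| ≤ ‖L (0, a)‖ := norm_le_pi_norm (L (0, a)) i
    have e3 := h2 (0, a)
    rw [e] at e3
    exact e2.trans e3
  have hM : ∀ i, ∑ l, |ap W (L (Pi.single l 1, 0)) i| ≤ c := by
    intro i
    refine FAC_row ((LinearMap.proj i) ∘ₗ (FAC_W W) ∘ₗ L ∘ₗ (LinearMap.inl ℝ _ _)) hc
      (fun a => ?_)
    have e : ‖(a, (0 : Fin (s * s) → ℝ))‖ = ‖a‖ := by simp [Prod.norm_def]
    have e2 : |ap W (L (a, 0)) i| ≤ ‖ap W (L (a, 0))‖ := norm_le_pi_norm (ap W (L (a, 0))) i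
    have e3 := h3 (a, 0)
    rw [e] at e3
    exact e2.trans e3
  have hone : ∀ l, (1 : ℝ) = ∑ t, W l t * ap W (L (Pi.single l 1, 0)) t +
      ∑ t, W t l * L (0, Pi.single t 1) l := by
    intro l
    have a1 := congrFun (h1 (Pi.single l 1)) l
    rw [Pi.single_eq_same] at a1
    have a2 : ((Pi.single l 1 : Fin (s * s) → ℝ), ap W (Pi.single l 1)) =
        ((Pi.single l 1 : Fin (s * s) → ℝ), (0 : Fin (s * s) → ℝ)) +
        ((0 : Fin (s * s) → ℝ), ap W (Pi.single l 1)) := by simp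
    rw [a2, map_add, Pi.add_apply] at a1
    have a3 : L (Pi.single l 1, 0) l = ∑ t, W l t * ap W (L (Pi.single l 1, 0)) t := by
      have := congrFun (FAC_WW hW (L (Pi.single l 1, 0))) l
      rw [← this]
      rfl
    have a4 : L (0, ap W (Pi.single l 1)) l = ∑ t, W t l * L (0, Pi.single t 1) l := by
      have := FAC_exp ((LinearMap.proj l) ∘ₗ L ∘ₗ (LinearMap.inr ℝ _ _)) (ap W (Pi.single l 1))
      rw [FAC_We] at this ⊢
      exact this
    rw [← a3, ← a4, a1]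
  have hsum : ((s * s : ℕ) : ℝ) = ∑ l, (∑ t, W l t * ap W (L (Pi.single l 1, 0)) t +
      ∑ t, W t l * L (0, Pi.single t 1) l) := by
    rw [← Finset.sum_congr rfl (fun l _ => hone l)]
    simp
  have hb1 : ∑ l, ∑ t, W l t * ap W (L (Pi.single l 1, 0)) t ≤ (s * s : ℕ) * (1 / s * c) := by
    rw [Finset.sum_comm]
    calc ∑ t, ∑ l, W l t * ap W (L (Pi.single l 1, 0)) t
        ≤ ∑ t : Fin (s * s), 1 / (s : ℝ) * c := by
          refine Finset.sum_le_sum fun t _ => ?_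
          calc ∑ l, W l t * ap W (L (Pi.single l 1, 0)) t
              ≤ ∑ l, 1 / (s : ℝ) * |ap W (L (Pi.single l 1, 0)) t| := by
                refine Finset.sum_le_sum fun l _ => ?_
                refine (le_abs_self _).trans ?_
                rw [abs_mul]
                exact mul_le_mul_of_nonneg_right (hW.bd l t) (abs_nonneg _)
            _ = 1 / (s : ℝ) * ∑ l, |ap W (L (Pi.single l 1, 0)) t| := by rw [Finset.mul_sum]
            _ ≤ 1 / (s : ℝ) * c := mul_le_mul_of_nonneg_left (hM t) (by positivity)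
      _ = _ := by simp
  have hb2 : ∑ l, ∑ t, W t l * L (0, Pi.single t 1) l ≤ (s * s : ℕ) * (1 / s * c) := by
    calc ∑ l, ∑ t, W t l * L (0, Pi.single t 1) l
        ≤ ∑ l : Fin (s * s), 1 / (s : ℝ) * c := by
          refine Finset.sum_le_sum fun l _ => ?_
          calc ∑ t, W t l * L (0, Pi.single t 1) l
              ≤ ∑ t, 1 / (s : ℝ) * |L (0, Pi.single t 1) l| := by
                refine Finset.sum_le_sum fun t _ => ?_
                refine (le_abs_self _).trans ?_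
                rw [abs_mul]
                exact mul_le_mul_of_nonneg_right (hW.bd t l) (abs_nonneg _)
            _ = 1 / (s : ℝ) * ∑ t, |L (0, Pi.single t 1) l| := by rw [Finset.mul_sum]
            _ ≤ 1 / (s : ℝ) * c := mul_le_mul_of_nonneg_left (hK l) (by positivity)
      _ = _ := by simp
  rw [Finset.sum_add_distrib] at hsum
  push_cast at hsum hb1 hb2
  have hs0 : (0 : ℝ) < s := by linarith
  have hb3 : (s : ℝ) * s * (1 / s * c) = s * c := by
    field_simp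
  rw [hb3] at hb1 hb2
  have h5 : (s : ℝ) * s ≤ s * (2 * c) := by nlinarith
  exact le_of_mul_le_mul_left h5 hs0

theorem p_FAC : Stmt_FAC := by
  intro s k W hW hs E _ _ N C C₁ C₂ hC hC₁ hC₂ hiso A B hBA hA hB hWB
  obtain ⟨T, hT⟩ := hiso
  let V2 := (Fin (s * s) → ℝ) × (Fin (s * s) → ℝ)
  let i : (Fin (s * s) → ℝ) →ₗ[ℝ] V2 := LinearMap.prod LinearMap.id (FAC_W W)
  have hi : Function.Injective i := by
    intro a b h
    exact congrArg Prod.fst h
  have hi' : ∀ a, i a = (a, ap W a) := fun a => rfl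
  have hCC : 0 ≤ C * C₁ := mul_nonneg hC hC₁
  have hg : ∀ j : Fin k, ∃ g : V2 →ₗ[ℝ] ℝ, (∀ a, g (i a) = T (A a) j) ∧
      ∀ y, |g y| ≤ C * C₁ * normSeminorm ℝ V2 y := by
    intro j
    refine exists_ext (normSeminorm ℝ V2) i hi hCC
      ((LinearMap.proj j) ∘ₗ (T : E →ₗ[ℝ] (Fin k → ℝ)) ∘ₗ A) (fun a => ?_)
    have a1 : |T (A a) j| ≤ ‖T (A a)‖ := norm_le_pi_norm (T (A a)) j
    have a2 : ‖T (A a)‖ ≤ C * N (A a) := (hT (A a)).2
    have a3 : C * N (A a) ≤ C * (C₁ * max ‖a‖ ‖ap W a‖) := mul_le_mul_of_nonneg_left (hA a) hC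
    have a4 : normSeminorm ℝ V2 (i a) = max ‖a‖ ‖ap W a‖ := rfl
    rw [a4]
    calc |T (A a) j| ≤ C * (C₁ * max ‖a‖ ‖ap W a‖) := (a1.trans a2).trans a3
      _ = _ := by ring
  choose g hg1 hg2 using hg
  let L : V2 →ₗ[ℝ] (Fin (s * s) → ℝ) :=
    B ∘ₗ (T.symm : (Fin k → ℝ) →ₗ[ℝ] E) ∘ₗ LinearMap.pi g
  have hN : ∀ y, N (T.symm (LinearMap.pi g y)) ≤ C * C₁ * ‖y‖ := by
    intro y
    have h2 := (hT (T.symm (LinearMap.pi g y))).1
    rw [LinearEquiv.apply_symm_apply] at h2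
    refine h2.trans ?_
    show ‖LinearMap.pi g y‖ ≤ _
    rw [pi_norm_le_iff_of_nonneg (mul_nonneg hCC (norm_nonneg y))]
    intro j
    exact hg2 j y
  have hL0 : ∀ y, L y = B (T.symm (LinearMap.pi g y)) := fun y => rfl
  refine FAC_trace hW hs L (c := C * C₁ * C₂) (mul_nonneg hCC hC₂) (fun a => ?_) (fun y => ?_)
    (fun y => ?_)
  · have : LinearMap.pi g (a, ap W a) = T (A a) := by
      funext j
      exact hg1 j a
    rw [hL0, this, LinearEquiv.symm_apply_apply, hBA]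
  · rw [hL0]
    have h2 := hB (T.symm (LinearMap.pi g y))
    have h3 := mul_le_mul_of_nonneg_left (hN y) hC₂
    calc ‖B (T.symm (LinearMap.pi g y))‖ ≤ C₂ * (C * C₁ * ‖y‖) := h2.trans h3
      _ = _ := by ring
  · rw [hL0]
    have h2 := hWB (T.symm (LinearMap.pi g y))
    have h3 := mul_le_mul_of_nonneg_left (hN y) hC₂
    calc ‖ap W (B (T.symm (LinearMap.pi g y)))‖ ≤ C₂ * (C * C₁ * ‖y‖) := h2.trans h3
      _ = _ := by ring

end Pool.Agent.MP3e8c7as
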