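import Pool.Agent.Work.MP_3e8c7a_s.Interface

set_option autoImplicit false

namespace Pool.Agent.MP3e8c7as

open Module MP3e8c7a

/-- `ap W` as a linear map. -/
noncomputable def GAP_L {m : ℕ} (W : Fin m → Fin m → ℝ) : (Fin m → ℝ) →ₗ[ℝ] (Fin m → ℝ) where
  toFun := ap W
  map_add' := by
    intro x y
    funext i
    simp only [ap, Pi.add_apply, mul_add, Finset.sum_add_distrib]
  map_smul' := by
    intro c x
    funext i
    simp only [ap, Pi.smul_apply, smul_eq_mul, RingHom.id_apply, Finset.mul_sum]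
    refine Finset.sum_congr rfl fun t _ => ?_
    ring

theorem GAP_L_apply {m : ℕ} (W : Fin m → Fin m → ℝ) (a : Fin m → ℝ) : GAP_L W a = ap W a := rfl

/-- `a ↦ (a, W a)`. -/
noncomputable def GAP_G {m : ℕ} (W : Fin m → Fin m → ℝ) :
    (Fin m → ℝ) →ₗ[ℝ] (Fin m ⊕ Fin m → ℝ) where
  toFun a := Sum.elim a (ap W a)
  map_add' := by
    intro x y
    have h : ap W (x + y) = ap W x + ap W y := (GAP_L W).map_add x y
    funext i
    rcases i with i | i
    · rfl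
    · simp only [Sum.elim_inr, Pi.add_apply, h]
  map_smul' := by
    intro c x
    have h : ap W (c • x) = c • ap W x := (GAP_L W).map_smul c x
    funext i
    rcases i with i | i
    · rfl
    · simp only [Sum.elim_inr, Pi.smul_apply, h, RingHom.id_apply]

theorem GAP_norm {s : ℕ} (hs : 1 ≤ s) {W : Fin (s * s) → Fin (s * s) → ℝ} (hW : Wal s W)
    (a : Fin (s * s) → ℝ) : ‖ap W a‖ ≤ s * ‖a‖ := by
  have hs0 : (0 : ℝ) < s := by exact_mod_cast (by omega : 0 < s)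
  rw [pi_norm_le_iff_of_nonneg (by positivity)]
  intro i
  have h1 : ‖ap W a i‖ ≤ ∑ t : Fin (s * s), (1 / (s : ℝ)) * ‖a‖ := by
    refine (norm_sum_le _ _).trans (Finset.sum_le_sum fun t _ => ?_)
    rw [norm_mul]
    exact mul_le_mul (hW.bd i t) (norm_le_pi_norm a t) (norm_nonneg _) (by positivity)
  refine h1.trans (le_of_eq ?_)
  rw [Finset.sum_const, Finset.card_univ, Fintype.card_fin, nsmul_eq_mul]
  push_cast
  field_simp

theorem p_GAP (hFAC : Stmt_FAC) : Stmt_GAP := by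
  intro b C s k W hb hC hs hW V A _ _ _ _ _ _ p r hr hyp i φ hφi hA hiso hcomp U X Λ hΛ hUX hXC hUC
    hUΛ Φ hUφ hΦ hΦr
  have hs1 : (1 : ℝ) ≤ s := by exact_mod_cast hs
  have hs0 : (0 : ℝ) < s := by linarith
  have hC0 : 0 < C := by linarith
  have hb0 : 0 < b := by linarith
  -- the two halves of `U`
  obtain ⟨U1, hU1⟩ : ∃ U1 : A →ₗ[ℝ] (Fin (s * s) → ℝ), ∀ z j, U1 z j = U z (Sum.inl j) :=
    ⟨(LinearMap.funLeft ℝ ℝ Sum.inl) ∘ₗ U, fun z j => rfl⟩
  obtain ⟨U2, hU2⟩ : ∃ U2 : A →ₗ[ℝ] (Fin (s * s) → ℝ), ∀ z j, U2 z j = U z (Sum.inr j) :=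
    ⟨(LinearMap.funLeft ℝ ℝ Sum.inr) ∘ₗ U, fun z j => rfl⟩
  have hn1 : ∀ z, ‖U1 z‖ ≤ ‖U z‖ := by
    intro z
    rw [pi_norm_le_iff_of_nonneg (norm_nonneg _)]
    intro j
    rw [hU1]
    exact norm_le_pi_norm (U z) _
  have hn2 : ∀ z, ‖U2 z‖ ≤ ‖U z‖ := by
    intro z
    rw [pi_norm_le_iff_of_nonneg (norm_nonneg _)]
    intro j
    rw [hU2]
    exact norm_le_pi_norm (U z) _
  obtain ⟨ρ, hρ⟩ : ∃ ρ : A →ₗ[ℝ] (Fin (s * s) → ℝ), ∀ z, ρ z = U2 z - ap W (U1 z) :=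
    ⟨U2 - (GAP_L W) ∘ₗ U1, fun z => rfl⟩
  have hρn : ∀ z, ‖ρ z‖ ≤ (1 + s) * ‖U z‖ := by
    intro z
    rw [hρ]
    have h1 := norm_sub_le (U2 z) (ap W (U1 z))
    have h2 := GAP_norm hs hW (U1 z)
    have h3 := hn1 z
    have h4 := hn2 z
    have h5 : (s : ℝ) * ‖U1 z‖ ≤ s * ‖U z‖ := mul_le_mul_of_nonneg_left h3 hs0.le
    linarith
  have hρr : ∀ z, ‖ρ z‖ ≤ 2 * s * Λ * r (i z) := by
    intro z
    have h1 := hρn z
    have h2 := hUΛ z
    have h3 : 0 ≤ Λ * r (i z) := mul_nonneg hΛ.le (apply_nonneg r _)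
    have h4 : (1 + (s : ℝ)) * ‖U z‖ ≤ (1 + s) * (Λ * r (i z)) :=
      mul_le_mul_of_nonneg_left h2 (by linarith)
    have h5 : (1 + (s : ℝ)) * (Λ * r (i z)) ≤ (2 * s) * (Λ * r (i z)) :=
      mul_le_mul_of_nonneg_right (by linarith) h3
    linarith
  have hΦρ : ∀ z, r (Φ (ρ z)) ≤ r (i z) / 2 := by
    intro z
    have h1 := hΦr (ρ z)
    have h2 := hρr z
    have h3 : 4 * ((s : ℝ) * s) * Λ * r (Φ (ρ z)) ≤ 2 * s * Λ * r (i z) := h1.trans h2
    have h4 : (2 * (s : ℝ) * Λ) * (2 * s * r (Φ (ρ z))) ≤ (2 * s * Λ) * r (i z) := by linarith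
    have h5 : 2 * (s : ℝ) * r (Φ (ρ z)) ≤ r (i z) := le_of_mul_le_mul_left h4 (by positivity)
    have h6 : 2 * r (Φ (ρ z)) ≤ 2 * s * r (Φ (ρ z)) := by
      have := mul_le_mul_of_nonneg_right hs1 (apply_nonneg r (Φ (ρ z)))
      linarith
    linarith
  obtain ⟨J, hJ⟩ : ∃ J : A →ₗ[ℝ] V, ∀ z, J z = i z + Φ (ρ z) := ⟨i + Φ ∘ₗ ρ, fun z => rfl⟩
  have hJ1 : ∀ z, r (J z) ≤ (3 / 2) * r (i z) := by
    intro z
    rw [hJ]
    have := map_add_le_add r (i z) (Φ (ρ z))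
    have := hΦρ z
    linarith
  have hJ2 : ∀ z, r (i z) ≤ 2 * r (J z) := by
    intro z
    have h1 : i z = J z - Φ (ρ z) := by rw [hJ]; abel
    have h2 := map_sub_le_add r (J z) (Φ (ρ z))
    rw [← h1] at h2
    have := hΦρ z
    linarith
  have hJinj : Function.Injective J := by
    rw [← LinearMap.ker_eq_bot, LinearMap.ker_eq_bot']
    intro z hz
    have h1 := hJ2 z
    rw [hz, map_zero, mul_zero] at h1
    have h2 : i z = 0 := hr _ (le_antisymm h1 (apply_nonneg r _))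
    rw [← hφi z, h2, map_zero]
  have hiinj : Function.Injective i := fun x y hxy => by
    rw [← hφi x, ← hφi y, hxy]
  have e1 : Iso b (p.comp J) (r.comp J) := hyp.inj J hJinj hA
  have e2 : Iso (3 / 2 * 2) (r.comp J) (r.comp i) :=
    Iso.of_bounds (LinearEquiv.refl ℝ A) (by norm_num) (fun z => hJ1 z)
      (fun z => by simpa using hJ2 z)
  have e3 : Iso b (r.comp i) (p.comp i) := (hyp.inj i hiinj hA).symm hb0
  have e4 : Iso (b * (3 / 2 * 2 * (b * C))) (p.comp J) (normSeminorm ℝ (Fin k → ℝ)) :=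
    e1.trans (e2.trans (e3.trans hiso hC0.le) (by positivity)) (by positivity)
  have hUJ : ∀ z, ‖U z‖ ≤ C * C * p (J z) := by
    intro z
    have h1 : φ (J z) = z + φ (Φ (ρ z)) := by rw [hJ, map_add, hφi]
    have h2 : U z = U (φ (J z)) := by rw [h1, map_add, hUφ, add_zero]
    rw [h2]
    have h3 := hUC (φ (J z))
    have h4 := mul_le_mul_of_nonneg_left (hcomp (J z)) hC0.le
    linarith
  have hρJ : ∀ z, ‖ρ z‖ ≤ (1 + C) * p (J z) := by
    intro z
    have h1 := hΦ (ρ z)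
    have h2 : Φ (ρ z) - i (φ (Φ (ρ z))) = J z - i (φ (J z)) := by
      have h3 : φ (J z) = z + φ (Φ (ρ z)) := by rw [hJ, map_add, hφi]
      rw [h3, hJ, map_add]
      abel
    rw [h2] at h1
    have h3 := map_sub_le_add p (J z) (i (φ (J z)))
    have h4 := hcomp (J z)
    linarith
  have key := hFAC s k W hW hs A (p.comp J) (b * (3 / 2 * 2 * (b * C))) C (1 + C + C ^ 2)
    (by positivity) hC0.le (by positivity) e4 (X ∘ₗ GAP_G W) U1 ?_ ?_ ?_ ?_
  · have h1 : 2 * (b * (3 / 2 * 2 * (b * C)) * C * (1 + C + C ^ 2)) =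
        6 * b ^ 2 * C ^ 2 * (1 + C + C ^ 2) := by ring
    rw [← h1]
    exact key
  · intro a
    funext j
    rw [hU1]
    have h1 : U ((X ∘ₗ GAP_G W) a) = GAP_G W a := hUX _
    rw [h1]
    rfl
  · intro a
    have h1 : U ((X ∘ₗ GAP_G W) a) = GAP_G W a := hUX _
    have h2 : U1 ((X ∘ₗ GAP_G W) a) = a := by
      funext j
      rw [hU1, h1]
      rfl
    have h3 : U2 ((X ∘ₗ GAP_G W) a) = ap W a := by
      funext j
      rw [hU2, h1]
      rfl
    have h4 : ρ ((X ∘ₗ GAP_G W) a) = 0 := by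
      rw [hρ, h2, h3, sub_self]
    have h5 : (p.comp J) ((X ∘ₗ GAP_G W) a) = p (i (X (GAP_G W a))) := by
      have : (p.comp J) ((X ∘ₗ GAP_G W) a) = p (J ((X ∘ₗ GAP_G W) a)) := rfl
      rw [this, hJ, h4, map_zero, add_zero]
      rfl
    rw [h5]
    refine (hXC _).trans (mul_le_mul_of_nonneg_left ?_ hC0.le)
    rw [pi_norm_le_iff_of_nonneg (le_max_of_le_left (norm_nonneg _))]
    intro j
    rcases j with j | j
    · exact (norm_le_pi_norm a j).trans (le_max_left _ _)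
    · exact (norm_le_pi_norm (ap W a) j).trans (le_max_right _ _)
  · intro z
    have h1 : (p.comp J) z = p (J z) := rfl
    rw [h1]
    have h2 := hn1 z
    have h3 := hUJ z
    have h4 : 0 ≤ (1 + C) * p (J z) := mul_nonneg (by linarith) (apply_nonneg p _)
    have h5 : (1 + C + C ^ 2) * p (J z) = (1 + C) * p (J z) + C * C * p (J z) := by ring
    rw [h5]
    linarith
  · intro z
    have h1 : (p.comp J) z = p (J z) := rfl
    rw [h1]
    have h2 : ap W (U1 z) = U2 z - ρ z := by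
      rw [hρ]
      abel
    rw [h2]
    have h3 := norm_sub_le (U2 z) (ρ z)
    have h4 := hn2 z
    have h5 := hUJ z
    have h6 := hρJ z
    have h7 : (1 + C + C ^ 2) * p (J z) = (1 + C) * p (J z) + C * C * p (J z) := by ring
    rw [h7]
    linarith

end Pool.Agent.MP3e8c7as
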