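import Pool.Agent.Work.MP_3e8c7a_s.Interface

/-! # Block GRD: greedy choice -/

set_option autoImplicit false

namespace Pool.Agent.MP3e8c7as

open Module MP3e8c7a

/-- the common kernel inside a subspace -/
theorem GRD_ker {V : Type} [AddCommGroup V] [Module ℝ V] [FiniteDimensional ℝ V] (l : ℕ)
    (Y₀ : Submodule ℝ V) (f : Fin l → (V →ₗ[ℝ] ℝ)) :
    ∃ Y ≤ Y₀, finrank ℝ Y₀ ≤ finrank ℝ Y + l ∧ ∀ y ∈ Y, ∀ i, f i y = 0 := by
  let ψ : Y₀ →ₗ[ℝ] (Fin l → ℝ) := LinearMap.pi fun i => (f i).comp Y₀.subtype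
  refine ⟨(LinearMap.ker ψ).map Y₀.subtype, Submodule.map_subtype_le _ _, ?_, ?_⟩
  · rw [Submodule.finrank_map_subtype_eq]
    have h1 := LinearMap.finrank_range_add_finrank_ker ψ
    have h2 : finrank ℝ (LinearMap.range ψ) ≤ finrank ℝ (Fin l → ℝ) := Submodule.finrank_le _
    rw [Module.finrank_fin_fun] at h2
    omega
  · rintro y ⟨z, hz, rfl⟩ i
    have h3 : ψ z = 0 := hz
    have h4 := congrFun h3 i
    exact h4

theorem p_GRD : Stmt_GRD := by
  intro V _ _ _ m Y₀ Bad φ hm
  have key : ∀ l : ℕ, l ≤ m →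
      (∃ Y ≤ Y₀, finrank ℝ Y₀ + 1 ≤ finrank ℝ Y + m ∧ ∀ y ∈ Y, ¬ Bad y) ∨
      ∃ g : Fin l → V, (∀ i, g i ∈ Y₀ ∧ Bad (g i)) ∧ ∀ i j, i < j → φ (g i) (g j) = 0 := by
    intro l
    induction l with
    | zero =>
      intro _
      exact Or.inr ⟨Fin.elim0, fun i => i.elim0, fun i => i.elim0⟩
    | succ l ih =>
      intro hl
      rcases ih (by omega) with h | ⟨g, hg, hg'⟩
      · exact Or.inl h
      · obtain ⟨Y, hY, hY1, hY2⟩ := GRD_ker l Y₀ fun i => φ (g i)
        by_cases hB : ∀ y ∈ Y, ¬ Bad y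
        · exact Or.inl ⟨Y, hY, by omega, hB⟩
        · push_neg at hB
          obtain ⟨y, hy, hyB⟩ := hB
          refine Or.inr ⟨Fin.snoc (α := fun _ => V) g y, ?_, ?_⟩
          · intro i
            refine Fin.lastCases ?_ (fun i => ?_) i
            · rw [Fin.snoc_last]
              exact ⟨hY hy, hyB⟩
            · rw [Fin.snoc_castSucc]
              exact hg i
          · intro i j
            refine Fin.lastCases ?_ (fun j => ?_) j
            · refine Fin.lastCases ?_ (fun i => ?_) i
              · intro h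
                exact absurd h (lt_irrefl _)
              · intro _
                rw [Fin.snoc_last, Fin.snoc_castSucc]
                exact hY2 y hy i
            · refine Fin.lastCases ?_ (fun i => ?_) i
              · intro h
                exact absurd h (not_lt.2 (Fin.le_last _))
              · intro h
                rw [Fin.snoc_castSucc, Fin.snoc_castSucc]
                exact hg' i j (Fin.castSucc_lt_castSucc_iff.1 h)
  exact key m le_rfl

end Pool.Agent.MP3e8c7as
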