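import Pool.Agent.Work.MP_3e8c7a_s.Interface

set_option autoImplicit false

namespace Pool.Agent.MP3e8c7as

open Module MP3e8c7a

theorem KIL_one (X : Type) [AddCommGroup X] [Module ℝ X] [FiniteDimensional ℝ X] (m : ℕ)
    (h : Fin m → X) (hm : finrank ℝ X < m) :
    ∃ b : Fin m → ℝ, ∑ t, |b t| = 1 ∧ ∑ t, b t • h t = 0 := by
  have hdep : ¬ LinearIndependent ℝ h := by
    intro hi
    have := hi.fintype_card_le_finrank
    rw [Fintype.card_fin] at this
    omega
  obtain ⟨g, hg, i, hi⟩ := Fintype.not_linearIndependent_iff.1 hdep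
  have hpos : 0 < ∑ t, |g t| :=
    lt_of_lt_of_le (abs_pos.2 hi) (Finset.single_le_sum (f := fun t => |g t|)
      (fun t _ => abs_nonneg _) (Finset.mem_univ i))
  refine ⟨fun t => (∑ t, |g t|)⁻¹ * g t, ?_, ?_⟩
  · have : ∀ t, |(∑ t, |g t|)⁻¹ * g t| = (∑ t, |g t|)⁻¹ * |g t| := by
      intro t
      rw [abs_mul, abs_of_pos (inv_pos.2 hpos)]
    simp_rw [this]
    rw [← Finset.mul_sum]
    exact inv_mul_cancel₀ hpos.ne'
  · simp_rw [mul_smul]
    rw [← Finset.smul_sum, hg, smul_zero]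

theorem KIL_lt {D m M : ℕ} (h : D * m ≤ M) (s : Fin D) (v : Fin m) : s.1 * m + v.1 < M := by
  have h1 : s.1 * m + v.1 < s.1 * m + m := by have := v.2; omega
  have h2 : s.1 * m + m ≤ D * m := by
    have : (s.1 + 1) * m ≤ D * m := Nat.mul_le_mul_right m s.2
    linarith
  omega

/-- the index number `v` of the block number `s` -/
def KIL_e {D m M : ℕ} (h : D * m ≤ M) (s : Fin D) (v : Fin m) : Fin M :=
  ⟨s.1 * m + v.1, KIL_lt h s v⟩

theorem KIL_inj2 {D m M : ℕ} (h : D * m ≤ M) {s s' : Fin D} {v v' : Fin m}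
    (he : KIL_e h s v = KIL_e h s' v') : s = s' ∧ v = v' := by
  have h0 : s.1 * m + v.1 = s'.1 * m + v'.1 := congrArg Fin.val he
  have hm : 0 < m := lt_of_le_of_lt (Nat.zero_le _) v.2
  have h1 : s.1 = s'.1 := by
    have a1 : (s.1 * m + v.1) / m = s.1 := by
      rw [Nat.add_comm, Nat.add_mul_div_right _ _ hm, Nat.div_eq_of_lt v.2, Nat.zero_add]
    have a2 : (s'.1 * m + v'.1) / m = s'.1 := by
      rw [Nat.add_comm, Nat.add_mul_div_right _ _ hm, Nat.div_eq_of_lt v'.2, Nat.zero_add]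
    rw [← a1, h0, a2]
  refine ⟨Fin.ext h1, Fin.ext ?_⟩
  rw [h1] at h0
  omega

theorem KIL_inj {D m M : ℕ} (h : D * m ≤ M) (s : Fin D) : Function.Injective (KIL_e h s) :=
  fun _ _ he => (KIL_inj2 h he).2

theorem p_KIL : Stmt_KIL := by
  intro X _ _ _ D m M f hm hD
  choose b hb1 hb2 using fun s : Fin D => KIL_one X m (fun v => f (KIL_e hD s v)) hm
  set c : Fin D → Fin M → ℝ := fun s => Function.extend (KIL_e hD s) (b s) 0 with hc
  have hin : ∀ s v, c s (KIL_e hD s v) = b s v := fun s v => (KIL_inj hD s).extend_apply _ _ _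
  have hout : ∀ s t, t ∉ Set.range (KIL_e hD s) → c s t = 0 := by
    intro s t ht
    rw [hc]
    show Function.extend (KIL_e hD s) (b s) 0 t = 0
    rw [Function.extend_apply']
    · rfl
    · rintro ⟨v, hv⟩
      exact ht ⟨v, hv⟩
  refine ⟨c, ⟨fun s => ?_, fun s s' t hss => ?_⟩, fun s => ?_⟩
  · rw [← hb1 s]
    refine (Fintype.sum_of_injective (KIL_e hD s) (KIL_inj hD s) _ _ ?_ ?_).symm
    · intro t ht
      rw [hout s t ht, abs_zero]
    · intro v
      rw [hin]
  · by_contra hcon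
    rw [not_or] at hcon
    have h1 : t ∈ Set.range (KIL_e hD s) := by
      by_contra hn
      exact hcon.1 (hout s t hn)
    have h2 : t ∈ Set.range (KIL_e hD s') := by
      by_contra hn
      exact hcon.2 (hout s' t hn)
    obtain ⟨v, hv⟩ := h1
    obtain ⟨v', hv'⟩ := h2
    exact hss (KIL_inj2 hD (hv.trans hv'.symm)).1
  · rw [← hb2 s]
    refine (Fintype.sum_of_injective (KIL_e hD s) (KIL_inj hD s) _ _ ?_ ?_).symm
    · intro t ht
      rw [hout s t ht, zero_smul]
    · intro v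
      rw [hin]

end Pool.Agent.MP3e8c7as
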