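import Pool.Agent.Work.MP_3e8c7a_s.Interface

set_option autoImplicit false

namespace Pool.Agent.MP3e8c7as

open Module MP3e8c7a

theorem LAA_norming {V : Type} [AddCommGroup V] [Module ℝ V] (p : Seminorm ℝ V) (hp : Def p)
    (g : V) : ∃ ψ : V →ₗ[ℝ] ℝ, (∀ x, |ψ x| ≤ p x) ∧ ψ g = p g := by
  rcases eq_or_ne g 0 with rfl | hg
  · exact ⟨0, fun x => by simp, by simp⟩
  · obtain ⟨ψ, h1, h2⟩ := exists_ext p (LinearMap.toSpanSingleton ℝ V g)
      (by
        intro a b hab
        have h : a • g = b • g := by simpa [LinearMap.toSpanSingleton_apply] using hab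
        exact smul_left_injective ℝ hg h)
      (C := 1) zero_le_one ((p g) • LinearMap.id) (fun a => by
        have e : (LinearMap.toSpanSingleton ℝ V g) a = a • g := by
          simp [LinearMap.toSpanSingleton_apply]
        rw [e, map_smul_eq_mul, Real.norm_eq_abs]
        have e2 : ((p g) • LinearMap.id : ℝ →ₗ[ℝ] ℝ) a = p g * a := rfl
        rw [e2, abs_mul, abs_of_nonneg (apply_nonneg p g)]
        linarith)
    refine ⟨ψ, fun x => by have := h2 x; linarith, ?_⟩
    have h3 := h1 1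
    have e : (LinearMap.toSpanSingleton ℝ V g) 1 = g := by
      simp [LinearMap.toSpanSingleton_apply]
    rw [e] at h3
    rw [h3]
    show p g * 1 = p g
    ring

theorem LAA_c1 (m : ℕ) : 0 ≤ c1 m := by
  unfold c1
  positivity

theorem LAA_c2 (m : ℕ) : 0 < c2 m := by
  have := LAA_c1 m
  unfold c2
  positivity

theorem LAA_sum {V : Type} [AddCommGroup V] [Module ℝ V] (r : Seminorm ℝ V) {m : ℕ}
    (g : Fin m → V) (κ : ℝ) (hκ : 0 ≤ κ) (hg : ∀ l, κ * r (g l) ≤ 1) (a : Fin m → ℝ) :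
    κ * r (∑ l, a l • g l) ≤ m * ‖a‖ := by
  have h1 : r (∑ l, a l • g l) ≤ ∑ l, |a l| * r (g l) := by
    have h := Finset.le_sum_of_subadditive r (map_zero r).le (map_add_le_add r) Finset.univ
      (fun l => a l • g l)
    refine h.trans (le_of_eq ?_)
    refine Finset.sum_congr rfl fun l _ => ?_
    rw [map_smul_eq_mul, Real.norm_eq_abs]
  calc κ * r (∑ l, a l • g l) ≤ κ * ∑ l, |a l| * r (g l) := mul_le_mul_of_nonneg_left h1 hκ
    _ = ∑ l, |a l| * (κ * r (g l)) := by
        rw [Finset.mul_sum]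
        exact Finset.sum_congr rfl fun l _ => by ring
    _ ≤ ∑ _l : Fin m, ‖a‖ := by
        refine Finset.sum_le_sum fun l _ => ?_
        have h2 : |a l| ≤ ‖a‖ := norm_le_pi_norm a l
        calc |a l| * (κ * r (g l)) ≤ |a l| * 1 := mul_le_mul_of_nonneg_left (hg l) (abs_nonneg _)
          _ ≤ ‖a‖ := by linarith
    _ = m * ‖a‖ := by simp

theorem p_LAA (hGAP : Stmt_GAP) (hTRI : Stmt_TRI) (hGRD : Stmt_GRD) (hEXC : Stmt_EXC) :
    Stmt_LAA := by
  intro b C s W hb hC hs hW hbig V _ _ _ k p r hp hr hyp hdim i φ hφ hiso hφp Λ hΛ hsys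
  choose ν hν1 hν2 using LAA_norming p hp
  have hs1 : (1 : ℝ) ≤ s := by exact_mod_cast hs
  have hss : 1 ≤ s * s := Nat.mul_pos hs hs
  have hM : (0 : ℝ) < (s : ℝ) * s := by positivity
  have hc2 := LAA_c2 (s * s)
  have hcA : 0 < cA s := by
    unfold cA
    positivity
  have hκ : 0 < cA s * Λ := mul_pos hcA hΛ
  rcases hGRD V (s * s) ⊤ (fun g => cA s * Λ * r g < p g) ν hss with ⟨Y, -, hY, hYb⟩ | ⟨g₀, hg₀, hν0⟩
  · refine ⟨Y, ?_, fun y hy => not_lt.mp (hYb y hy)⟩
    rwa [finrank_top] at hY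
  · exfalso
    have hpos : ∀ l, 0 < p (g₀ l) := fun l =>
      lt_of_le_of_lt (mul_nonneg hκ.le (apply_nonneg r _)) (hg₀ l).2
    set g : Fin (s * s) → V := fun l => (p (g₀ l))⁻¹ • g₀ l with hg
    have hψg : ∀ j l, ν (g₀ j) (g l) = (p (g₀ l))⁻¹ * ν (g₀ j) (g₀ l) := by
      intro j l
      simp only [hg, map_smul, smul_eq_mul]
    have hpg : ∀ l, p (g l) = 1 := by
      intro l
      simp only [hg]
      rw [map_smul_eq_mul, Real.norm_eq_abs, abs_of_pos (inv_pos.mpr (hpos l)),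
        inv_mul_cancel₀ (hpos l).ne']
    have hrg : ∀ l, cA s * Λ * r (g l) ≤ 1 := by
      intro l
      simp only [hg]
      rw [map_smul_eq_mul, Real.norm_eq_abs, abs_of_pos (inv_pos.mpr (hpos l))]
      have h1 := (hg₀ l).2
      have h2 : (p (g₀ l))⁻¹ * (cA s * Λ * r (g₀ l)) ≤ (p (g₀ l))⁻¹ * p (g₀ l) :=
        mul_le_mul_of_nonneg_left h1.le (inv_nonneg.mpr (hpos l).le)
      rw [inv_mul_cancel₀ (hpos l).ne'] at h2
      calc cA s * Λ * ((p (g₀ l))⁻¹ * r (g₀ l)) = (p (g₀ l))⁻¹ * (cA s * Λ * r (g₀ l)) := by ring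
        _ ≤ 1 := h2
    obtain ⟨i', U, X, hφi', hiso', hφp', hUX, hpX, hUp, hUr, hUg, hlast⟩ :=
      hEXC s k C Λ V p r i φ hs hC hΛ hp hφ hiso hφp hsys hdim g (fun l => ν (g₀ l))
        (fun l x => hν1 _ x)
    obtain ⟨htri, -⟩ := hTRI (s * s) (fun j l => ν (g₀ j) (g l))
      (fun j => by rw [hψg, hν2, inv_mul_cancel₀ (hpos j).ne'])
      (fun j l hjl => by rw [hψg, hν0 j l hjl, mul_zero])
      (fun j l => (hν1 _ _).trans (le_of_eq (hpg l)))
    set c : ℝ := 2 ^ (s * s) * c2 (s * s) with hc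
    have hc0 : 0 < c := by rw [hc]; positivity
    set Φ : (Fin (s * s) → ℝ) →ₗ[ℝ] V := c • Fintype.linearCombination ℝ g with hΦ
    have hΦa : ∀ a, Φ a = c • ∑ l, a l • g l := by
      intro a
      rw [hΦ]
      simp [Fintype.linearCombination_apply]
    have hfin := hGAP b (3 * C) s k W hb (by linarith) hs hW V (Fin k → ℝ) p r hr hyp i' φ hφi'
      (by simp) hiso' hφp' U X Λ hΛ hUX hpX hUp hUr Φ
      (fun a => by
        rw [hΦa]
        simp only [map_smul, map_sum, hUg, smul_zero, Finset.sum_const_zero])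
      (fun a => by
        have e : Φ a - i' (φ (Φ a)) = c • ((∑ l, a l • g l) - i' (φ (∑ l, a l • g l))) := by
          rw [hΦa]
          simp only [map_smul, smul_sub]
        rw [e, map_smul_eq_mul, Real.norm_eq_abs, abs_of_pos hc0]
        have h1 := htri a
        have h2 : ‖fun j => ∑ l, ν (g₀ j) (g l) * a l‖ ≤
            c2 (s * s) * p ((∑ l, a l • g l) - i' (φ (∑ l, a l • g l))) := by
          rw [pi_norm_le_iff_of_nonneg (mul_nonneg hc2.le (apply_nonneg p _))]
          intro j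
          have h3 := hlast a j
          have e2 : ν (g₀ j) (∑ l, a l • g l) = ∑ l, ν (g₀ j) (g l) * a l := by
            rw [map_sum]
            exact Finset.sum_congr rfl fun l _ => by rw [map_smul, smul_eq_mul, mul_comm]
          rw [← e2, Real.norm_eq_abs]
          exact h3
        calc ‖a‖ ≤ 2 ^ (s * s) * ‖fun j => ∑ l, ν (g₀ j) (g l) * a l‖ := h1
          _ ≤ 2 ^ (s * s) * (c2 (s * s) * p ((∑ l, a l • g l) - i' (φ (∑ l, a l • g l)))) :=
              mul_le_mul_of_nonneg_left h2 (by positivity)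
          _ = c * p ((∑ l, a l • g l) - i' (φ (∑ l, a l • g l))) := by rw [hc]; ring)
      (fun a => by
        rw [hΦa, map_smul_eq_mul, Real.norm_eq_abs, abs_of_pos hc0]
        have h1 := LAA_sum r g (cA s * Λ) hκ.le hrg a
        have e1 : ((s * s : ℕ) : ℝ) = (s : ℝ) * s := by push_cast; ring
        rw [e1] at h1
        have e2 : ((s : ℝ) * s) * (4 * ((s : ℝ) * s) * Λ * (c * r (∑ l, a l • g l))) =
            cA s * Λ * r (∑ l, a l • g l) := by
          rw [hc]
          unfold cA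
          ring
        rw [← e2] at h1
        exact le_of_mul_le_mul_left h1 hM)
    have e : 6 * b ^ 2 * (3 * C) ^ 2 * (1 + 3 * C + (3 * C) ^ 2) =
        54 * b ^ 2 * C ^ 2 * (1 + 3 * C + 9 * C ^ 2) := by ring
    rw [e] at hfin
    linarith

end Pool.Agent.MP3e8c7as
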