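import Pool.Agent.Work.MP_3e8c7a_s.Interface

set_option autoImplicit false

namespace Pool.Agent.MP3e8c7as

open Module MP3e8c7a

theorem LAM_le {k : ℕ} (ρ : Seminorm ℝ (Fin k → ℝ)) (z : Fin k → ℝ) :
    ρ z ≤ ‖z‖ * ∑ t, ρ (Pi.single t 1) := by
  have e : z = ∑ t, z t • (Pi.single t (1 : ℝ) : Fin k → ℝ) := by
    funext j
    rw [Finset.sum_apply]
    simp only [Pi.smul_apply, Pi.single_apply, smul_eq_mul, mul_ite, mul_one, mul_zero]
    rw [Finset.sum_ite_eq]
    simp only [Finset.mem_univ, if_true]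
  conv_lhs => rw [e]
  refine (Finset.le_sum_of_subadditive ρ (map_zero ρ).le (map_add_le_add ρ) _ _).trans ?_
  rw [Finset.mul_sum]
  apply Finset.sum_le_sum
  intro t _
  rw [map_smul_eq_mul]
  exact mul_le_mul_of_nonneg_right (norm_le_pi_norm z t) (apply_nonneg ρ _)

theorem LAM_cont {k : ℕ} (ρ : Seminorm ℝ (Fin k → ℝ)) : Continuous ρ := by
  set R : ℝ := ∑ t, ρ (Pi.single t 1) with hR
  have hR0 : 0 ≤ R := Finset.sum_nonneg fun t _ => apply_nonneg ρ _
  have h : LipschitzWith (Real.toNNReal R) ρ := by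
    apply LipschitzWith.of_dist_le_mul
    intro x y
    rw [Real.coe_toNNReal R hR0, Real.dist_eq, dist_eq_norm]
    have h1 : |ρ x - ρ y| ≤ ρ (x - y) := abs_sub_map_le_sub ρ x y
    have h2 := LAM_le ρ (x - y)
    rw [mul_comm]
    exact h1.trans h2
  exact h.continuous

theorem LAM_equiv {k : ℕ} (ρ : Seminorm ℝ (Fin k → ℝ)) (hρ : Def ρ) :
    ∃ c : ℝ, 0 < c ∧ ∀ z, ‖z‖ ≤ c * ρ z := by
  by_cases hne : (Metric.sphere (0 : Fin k → ℝ) 1).Nonempty
  · obtain ⟨x, hx, hmin⟩ := (isCompact_sphere (0 : Fin k → ℝ) 1).exists_isMinOn hne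
      (LAM_cont ρ).continuousOn
    have hx1 : ‖x‖ = 1 := by
      rw [mem_sphere_zero_iff_norm] at hx
      exact hx
    have hpos : 0 < ρ x := by
      rcases (apply_nonneg ρ x).lt_or_eq with h | h
      · exact h
      · exfalso
        have h0 := hρ x h.symm
        rw [h0, norm_zero] at hx1
        exact zero_ne_one hx1
    refine ⟨(ρ x)⁻¹, inv_pos.mpr hpos, ?_⟩
    intro z
    by_cases hz : z = 0
    · rw [hz, norm_zero, map_zero, mul_zero]
    · have hz0 : 0 < ‖z‖ := norm_pos_iff.mpr hz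
      have hmem : ‖z‖⁻¹ • z ∈ Metric.sphere (0 : Fin k → ℝ) 1 := by
        rw [mem_sphere_zero_iff_norm, norm_smul, norm_inv, norm_norm, inv_mul_cancel₀ hz0.ne']
      have h := hmin hmem
      rw [Set.mem_ofPred_eq, map_smul_eq_mul, norm_inv, norm_norm] at h
      rw [le_inv_mul_iff₀ hpos]
      rw [le_inv_mul_iff₀ hz0] at h
      rw [mul_comm]
      exact h
  · refine ⟨1, one_pos, ?_⟩
    intro z
    have hz : z = 0 := by
      by_contra hz
      apply hne
      have hz0 : 0 < ‖z‖ := norm_pos_iff.mpr hz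
      refine ⟨‖z‖⁻¹ • z, ?_⟩
      rw [mem_sphere_zero_iff_norm, norm_smul, norm_inv, norm_norm, inv_mul_cancel₀ hz0.ne']
    rw [hz, norm_zero, map_zero, mul_zero]

theorem LAM_top {k m₁ : ℕ} (ρ : Seminorm ℝ (Fin k → ℝ)) (hm : m₁ ≤ k) (c : ℝ)
    (hc : ∀ z, ‖z‖ ≤ c * ρ z) : PS m₁ ρ c := by
  refine ⟨fun s => Pi.single (Fin.castLE hm s) 1, ⟨?_, ?_⟩, ?_⟩
  · intro s
    rw [Finset.sum_eq_single (Fin.castLE hm s)]
    · rw [Pi.single_eq_same, abs_one]
    · intro i _ hi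
      rw [Pi.single_eq_of_ne hi, abs_zero]
    · intro h
      exact absurd (Finset.mem_univ _) h
  · intro s s' i hs
    by_cases h : i = Fin.castLE hm s
    · right
      apply Pi.single_eq_of_ne
      intro h'
      apply hs
      apply Fin.castLE_injective hm
      rw [← h, ← h']
    · left
      exact Pi.single_eq_of_ne h _
  · intro s z
    have e : dt (Pi.single (Fin.castLE hm s) 1) z = z (Fin.castLE hm s) := by
      unfold dt
      rw [Finset.sum_eq_single (Fin.castLE hm s)]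
      · rw [Pi.single_eq_same, one_mul]
      · intro i _ hi
        rw [Pi.single_eq_of_ne hi, zero_mul]
      · intro h
        exact absurd (Finset.mem_univ _) h
    show |dt (Pi.single (Fin.castLE hm s) 1) z| ≤ c * ρ z
    rw [e]
    exact (norm_le_pi_norm z (Fin.castLE hm s)).trans (hc z)

theorem LAM_low {k m₁ : ℕ} (ρ : Seminorm ℝ (Fin k → ℝ)) (hm : 1 ≤ m₁) (Λ : ℝ) (hΛ : 0 ≤ Λ)
    (h : PS m₁ ρ Λ) : 1 ≤ Λ * ∑ t, ρ (Pi.single t 1) := by
  obtain ⟨β, hβ, hb⟩ := h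
  let s0 : Fin m₁ := ⟨0, hm⟩
  set z : Fin k → ℝ := fun i => SignType.sign (β s0 i) with hz
  have h1 : dt (β s0) z = 1 := by
    unfold dt
    rw [← hβ.one s0]
    apply Finset.sum_congr rfl
    intro i _
    show β s0 i * ((SignType.sign (β s0 i) : SignType) : ℝ) = |β s0 i|
    exact self_mul_sign _
  have h2 : ‖z‖ ≤ 1 := by
    rw [pi_norm_le_iff_of_nonneg zero_le_one]
    intro i
    show ‖((SignType.sign (β s0 i) : SignType) : ℝ)‖ ≤ 1
    rcases lt_trichotomy (β s0 i) 0 with h | h | h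
    · rw [sign_neg h]
      simp
    · rw [h, sign_zero]
      simp
    · rw [sign_pos h]
      simp
  have h3 := hb s0 z
  rw [h1, abs_one] at h3
  have h4 := LAM_le ρ z
  have hR0 : 0 ≤ ∑ t, ρ (Pi.single t (1 : ℝ)) := Finset.sum_nonneg fun t _ => apply_nonneg ρ _
  have h5 : ρ z ≤ ∑ t, ρ (Pi.single t 1) := by
    refine h4.trans ?_
    calc ‖z‖ * ∑ t, ρ (Pi.single t 1) ≤ 1 * ∑ t, ρ (Pi.single t 1) :=
          mul_le_mul_of_nonneg_right h2 hR0
      _ = _ := one_mul _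
  exact h3.trans (mul_le_mul_of_nonneg_left h5 hΛ)

theorem p_LAM : Stmt_LAM := by
  intro k m₁ ρ hρ hm hmk
  obtain ⟨c, hc, hcz⟩ := LAM_equiv ρ hρ
  set R : ℝ := ∑ t, ρ (Pi.single t 1) with hR
  have hR0 : 0 ≤ R := Finset.sum_nonneg fun t _ => apply_nonneg ρ _
  have hex : ∃ n : ℕ, ¬ PS m₁ ρ (c / 2 ^ n) := by
    obtain ⟨n, hn⟩ := pow_unbounded_of_one_lt (c * R) (one_lt_two)
    refine ⟨n, ?_⟩
    intro h
    have h1 := LAM_low ρ hm (c / 2 ^ n) (by positivity) h
    rw [← hR, div_mul_eq_mul_div, le_div_iff₀ (by positivity), one_mul] at h1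
    linarith
  classical
  have hspec := Nat.find_spec hex
  have hmin := fun m => Nat.find_min (m := m) hex
  set n := Nat.find hex with hn
  have hn0 : n ≠ 0 := by
    intro h0
    rw [h0, pow_zero, div_one] at hspec
    exact hspec (LAM_top ρ hmk c hcz)
  obtain ⟨n', hn'⟩ := Nat.exists_eq_succ_of_ne_zero hn0
  refine ⟨c / 2 ^ n, by positivity, ?_, hspec⟩
  have h2 := hmin n' (by omega)
  rw [not_not] at h2
  have e : 2 * (c / 2 ^ n) = c / 2 ^ n' := by
    rw [hn', Nat.succ_eq_add_one, pow_succ]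
    field_simp
  rw [e]
  exact h2

end Pool.Agent.MP3e8c7as
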