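import Pool.Agent.Work.MP_3e8c7a_s.Interface

/-! Block NDJ: nearly disjoint vectors in `ℓ_1^k`. -/

set_option autoImplicit false

namespace Pool.Agent.MP3e8c7as

open Module MP3e8c7a

theorem NDJ_abs (x y : ℝ) : |x + y| + |x - y| ≤ 2 * |x| + 2 * |y| - 2 * min |x| |y| := by
  have key : ∀ u v : ℝ, |u| ≤ |v| → |u + v| + |u - v| ≤ 2 * |v| := by
    intro u v h
    rcases abs_cases u with h1 | h1 <;> rcases abs_cases v with h2 | h2 <;>
    rcases abs_cases (u + v) with h3 | h3 <;> rcases abs_cases (u - v) with h4 | h4 <;>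
    linarith
  rcases le_total |x| |y| with h | h
  · rw [min_eq_left h]
    have := key x y h
    linarith
  · rw [min_eq_right h]
    have := key y x h
    rw [abs_sub_comm y x, add_comm y x] at this
    linarith

theorem NDJ_single {N : ℕ} {i i' : Fin N} (h : i ≠ i') (a b : ℝ) :
    ∑ l, |(Pi.single i a : Fin N → ℝ) l + (Pi.single i' b : Fin N → ℝ) l| = |a| + |b| := by
  have h0 : ∀ l, |(Pi.single i a : Fin N → ℝ) l + (Pi.single i' b : Fin N → ℝ) l| =
      (Pi.single i |a| : Fin N → ℝ) l + (Pi.single i' |b| : Fin N → ℝ) l := by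
    intro l
    by_cases h1 : l = i
    · subst h1
      simp [h]
    · by_cases h2 : l = i'
      · subst h2
        simp [h1]
      · simp [h1, h2]
  simp_rw [h0]
  rw [Finset.sum_add_distrib]
  simp

theorem NDJ_single' {N : ℕ} (i i' : Fin N) (a b : ℝ) (v : Fin N → ℝ) :
    ∑ l, ((Pi.single i a : Fin N → ℝ) l + (Pi.single i' b : Fin N → ℝ) l) * v l =
      a * v i + b * v i' := by
  simp [add_mul, Finset.sum_add_distrib, Pi.single_apply, ite_mul]

theorem NDJ_min {k N : ℕ} {t δ : ℝ} {w : Fin N → Fin k → ℝ}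
    (h1 : ∀ i, ∑ j, |w i j| ≤ (1 + δ) * t)
    (h2 : ∀ d : Fin N → ℝ, t * ∑ i, |d i| ≤ ∑ j, |∑ i, d i * w i j|) {i i' : Fin N} (h : i ≠ i') :
    ∑ j, min |w i j| |w i' j| ≤ 2 * δ * t := by
  have a1 := h2 (fun l => (Pi.single i 1 : Fin N → ℝ) l + (Pi.single i' 1 : Fin N → ℝ) l)
  have a2 := h2 (fun l => (Pi.single i 1 : Fin N → ℝ) l + (Pi.single i' (-1) : Fin N → ℝ) l)
  rw [NDJ_single h] at a1 a2
  simp only [NDJ_single'] at a1 a2
  simp only [abs_one, abs_neg, one_mul, neg_mul, ← sub_eq_add_neg] at a1 a2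
  have a3 : ∑ j, |w i j + w i' j| + ∑ j, |w i j - w i' j| ≤
      2 * ∑ j, |w i j| + 2 * ∑ j, |w i' j| - 2 * ∑ j, min |w i j| |w i' j| := by
    rw [← Finset.sum_add_distrib, Finset.mul_sum, Finset.mul_sum, Finset.mul_sum,
      ← Finset.sum_add_distrib, ← Finset.sum_sub_distrib]
    exact Finset.sum_le_sum fun j _ => NDJ_abs _ _
  have a4 := h1 i
  have a5 := h1 i'
  nlinarith

/-- The set where `w i` dominates. -/
def NDJ_S {k N : ℕ} (w : Fin N → Fin k → ℝ) (i : Fin N) (j : Fin k) : Prop :=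
  ∀ i', i' ≠ i → |w i' j| < |w i j|

theorem NDJ_S_uniq {k N : ℕ} {w : Fin N → Fin k → ℝ} {i i' : Fin N} {j : Fin k}
    (h : NDJ_S w i j) (h' : NDJ_S w i' j) : i = i' := by
  by_contra hne
  exact lt_asymm (h i' (Ne.symm hne)) (h' i hne)

open Classical in
/-- The sign vectors. -/
noncomputable def NDJ_x {k N : ℕ} (w : Fin N → Fin k → ℝ) (i : Fin N) (j : Fin k) : ℝ :=
  if NDJ_S w i j then (if 0 ≤ w i j then 1 else -1) else 0

/-- The combination of the sign vectors. -/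
noncomputable def NDJ_Z {k N : ℕ} (w : Fin N → Fin k → ℝ) : (Fin N → ℝ) →ₗ[ℝ] (Fin k → ℝ) where
  toFun a := fun j => ∑ i, a i * NDJ_x w i j
  map_add' a b := by
    funext j
    simp [add_mul, Finset.sum_add_distrib]
  map_smul' c a := by
    funext j
    simp [Finset.mul_sum, mul_assoc]

theorem NDJ_Z_in {k N : ℕ} (w : Fin N → Fin k → ℝ) (a : Fin N → ℝ) {i : Fin N} {j : Fin k}
    (h : NDJ_S w i j) : w i j * NDJ_Z w a j = a i * |w i j| := by
  have e : NDJ_Z w a j = a i * NDJ_x w i j := by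
    show ∑ i, a i * NDJ_x w i j = _
    refine Finset.sum_eq_single i (fun i' _ hne => ?_) (fun h => absurd (Finset.mem_univ i) h)
    have : ¬ NDJ_S w i' j := fun h' => hne (NDJ_S_uniq h' h)
    simp [NDJ_x, this]
  rw [e, NDJ_x, if_pos h]
  split_ifs with h0
  · rw [abs_of_nonneg h0]; ring
  · rw [abs_of_neg (not_le.mp h0)]; ring

theorem NDJ_Z_le {k N : ℕ} (w : Fin N → Fin k → ℝ) (a : Fin N → ℝ) (j : Fin k) :
    |NDJ_Z w a j| ≤ ‖a‖ := by
  by_cases h : ∃ i, NDJ_S w i j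
  · obtain ⟨i, h⟩ := h
    have e : NDJ_Z w a j = a i * NDJ_x w i j := by
      show ∑ i, a i * NDJ_x w i j = _
      refine Finset.sum_eq_single i (fun i' _ hne => ?_) (fun h => absurd (Finset.mem_univ i) h)
      have : ¬ NDJ_S w i' j := fun h' => hne (NDJ_S_uniq h' h)
      simp [NDJ_x, this]
    rw [e, NDJ_x, if_pos h, abs_mul]
    have h1 : |(if 0 ≤ w i j then (1 : ℝ) else -1)| = 1 := by split_ifs <;> simp
    rw [h1, mul_one]
    exact norm_le_pi_norm a i
  · have e : NDJ_Z w a j = 0 := by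
      show ∑ i, a i * NDJ_x w i j = _
      refine Finset.sum_eq_zero fun i _ => ?_
      have : ¬ NDJ_S w i j := fun h' => h ⟨i, h'⟩
      simp [NDJ_x, this]
    rw [e, abs_zero]
    exact norm_nonneg a

open Classical in
theorem NDJ_out {k N : ℕ} {t δ : ℝ} (ht : 0 < t) (hδ : 0 ≤ δ) {w : Fin N → Fin k → ℝ}
    (h1 : ∀ i, ∑ j, |w i j| ≤ (1 + δ) * t)
    (h2 : ∀ d : Fin N → ℝ, t * ∑ i, |d i| ≤ ∑ j, |∑ i, d i * w i j|) (i : Fin N) :
    ∑ j, (if NDJ_S w i j then 0 else |w i j|) ≤ 2 * N * δ * t := by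
  have a1 : ∑ j, (if NDJ_S w i j then 0 else |w i j|) ≤
      ∑ j, ∑ i' ∈ Finset.univ.erase i, min |w i j| |w i' j| := by
    refine Finset.sum_le_sum fun j _ => ?_
    split_ifs with h
    · exact Finset.sum_nonneg fun i' _ => le_min (abs_nonneg _) (abs_nonneg _)
    · unfold NDJ_S at h
      push Not at h
      obtain ⟨i', hne, hle⟩ := h
      have := Finset.single_le_sum (f := fun i' => min |w i j| |w i' j|)
        (s := Finset.univ.erase i) (fun i' _ => le_min (abs_nonneg _) (abs_nonneg _))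
        (Finset.mem_erase.mpr ⟨hne, Finset.mem_univ i'⟩)
      simp only [min_eq_left hle] at this
      exact this
  rw [Finset.sum_comm] at a1
  have a2 : ∑ i' ∈ Finset.univ.erase i, ∑ j, min |w i j| |w i' j| ≤
      ∑ i' ∈ Finset.univ.erase i, 2 * δ * t :=
    Finset.sum_le_sum fun i' hi' => NDJ_min h1 h2 (Ne.symm (Finset.ne_of_mem_erase hi'))
  have a3 : ∑ i' ∈ Finset.univ.erase i, 2 * δ * t ≤ 2 * N * δ * t := by
    rw [Finset.sum_const, nsmul_eq_mul]
    have : ((Finset.univ.erase i).card : ℝ) ≤ N := by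
      have := Finset.card_erase_le (s := (Finset.univ : Finset (Fin N))) (a := i)
      rw [Finset.card_univ, Fintype.card_fin] at this
      exact_mod_cast this
    have h3 : 0 ≤ 2 * δ * t := by positivity
    nlinarith
  linarith

theorem NDJ_near {k N : ℕ} {t δ : ℝ} (ht : 0 < t) (hδ : 0 ≤ δ) (hN : 1 ≤ N) (hs : 10 * N * δ ≤ 1)
    {w : Fin N → Fin k → ℝ} (h1 : ∀ i, ∑ j, |w i j| ≤ (1 + δ) * t)
    (h2 : ∀ d : Fin N → ℝ, t * ∑ i, |d i| ≤ ∑ j, |∑ i, d i * w i j|) (a : Fin N → ℝ) (i : Fin N) :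
    |∑ j, w i j * NDJ_Z w a j - t * a i| ≤ t / 2 * ‖a‖ := by
  classical
  have ho := NDJ_out ht hδ h1 h2 i
  set o := ∑ j, (if NDJ_S w i j then 0 else |w i j|) with ho'
  have hlow : t ≤ ∑ j, |w i j| := by
    have := h2 (fun l => (Pi.single i 1 : Fin N → ℝ) l)
    have e1 : ∑ l, |(Pi.single i 1 : Fin N → ℝ) l| = 1 := by
      have : ∀ l, |(Pi.single i 1 : Fin N → ℝ) l| = (Pi.single i 1 : Fin N → ℝ) l := by
        intro l
        by_cases h : l = i
        · subst h; simp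
        · simp [Pi.single_apply, h]
      simp_rw [this]
      simp
    have e2 : ∀ j, ∑ l, (Pi.single i 1 : Fin N → ℝ) l * w l j = w i j := by
      intro j
      simp [Pi.single_apply, ite_mul]
    rw [e1] at this
    simp only [e2, mul_one] at this
    exact this
  have hin : ∑ j, |w i j| = ∑ j, (if NDJ_S w i j then |w i j| else 0) + o := by
    rw [ho', ← Finset.sum_add_distrib]
    refine Finset.sum_congr rfl fun j _ => ?_
    split_ifs <;> simp
  set q := ∑ j, (if NDJ_S w i j then |w i j| else 0) with hq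
  have hsplit : ∑ j, w i j * NDJ_Z w a j - a i * q =
      ∑ j, (if NDJ_S w i j then 0 else w i j * NDJ_Z w a j) := by
    rw [hq, Finset.mul_sum, ← Finset.sum_sub_distrib]
    refine Finset.sum_congr rfl fun j _ => ?_
    split_ifs with h
    · rw [NDJ_Z_in w a h]; ring
    · ring
  have hb : |∑ j, w i j * NDJ_Z w a j - a i * q| ≤ ‖a‖ * o := by
    rw [hsplit, ho', Finset.mul_sum]
    refine (Finset.abs_sum_le_sum_abs _ _).trans (Finset.sum_le_sum fun j _ => ?_)
    split_ifs with h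
    · simp
    · rw [abs_mul, mul_comm]
      exact mul_le_mul_of_nonneg_right (NDJ_Z_le w a j) (abs_nonneg _)
  have hai : |a i| ≤ ‖a‖ := norm_le_pi_norm a i
  have hN' : (1 : ℝ) ≤ N := by exact_mod_cast hN
  have hu := h1 i
  have hδN : δ ≤ N * δ := by nlinarith
  have hNδ : 10 * (N * δ) * t ≤ t := by nlinarith
  have hδt : δ * t ≤ N * δ * t := mul_le_mul_of_nonneg_right hδN ht.le
  have hqt : |q - t| ≤ 2 * (N * δ * t) := by
    have hNn : 0 ≤ N * δ * t := by positivity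
    have ho0 : 0 ≤ o := Finset.sum_nonneg fun j _ => by split_ifs <;> simp
    rw [abs_le]
    constructor
    · nlinarith
    · nlinarith
  have hfin : |∑ j, w i j * NDJ_Z w a j - t * a i| ≤ ‖a‖ * o + |a i| * |q - t| := by
    have e : ∑ j, w i j * NDJ_Z w a j - t * a i =
        (∑ j, w i j * NDJ_Z w a j - a i * q) + a i * (q - t) := by ring
    rw [e]
    refine (abs_add_le _ _).trans ?_
    rw [abs_mul]
    linarith
  have hna := norm_nonneg a
  have h5 : ‖a‖ * o ≤ ‖a‖ * (2 * (N * δ * t)) := mul_le_mul_of_nonneg_left (by linarith) hna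
  have h6 : |a i| * |q - t| ≤ ‖a‖ * (2 * (N * δ * t)) :=
    mul_le_mul hai hqt (abs_nonneg _) hna
  have h7 : ‖a‖ * (N * δ * t) ≤ ‖a‖ * (t / 10) := mul_le_mul_of_nonneg_left (by linarith) hna
  nlinarith [mul_nonneg hna ht.le]

/-- The matrix of the system as a linear map. -/
noncomputable def NDJ_M {k N : ℕ} (t : ℝ) (w : Fin N → Fin k → ℝ) :
    (Fin N → ℝ) →ₗ[ℝ] (Fin N → ℝ) where
  toFun a := fun i => t⁻¹ * ∑ j, w i j * NDJ_Z w a j
  map_add' a b := by
    funext i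
    simp [mul_add, Finset.sum_add_distrib]
  map_smul' c a := by
    funext i
    simp only [map_smul, Pi.smul_apply, smul_eq_mul, RingHom.id_apply, Finset.mul_sum]
    refine Finset.sum_congr rfl fun j _ => ?_
    ring

theorem NDJ_M_low {k N : ℕ} {t δ : ℝ} (ht : 0 < t) (hδ : 0 ≤ δ) (hN : 1 ≤ N)
    (hs : 10 * N * δ ≤ 1) {w : Fin N → Fin k → ℝ} (h1 : ∀ i, ∑ j, |w i j| ≤ (1 + δ) * t)
    (h2 : ∀ d : Fin N → ℝ, t * ∑ i, |d i| ≤ ∑ j, |∑ i, d i * w i j|) (a : Fin N → ℝ) :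
    ‖a‖ ≤ 2 * ‖NDJ_M t w a‖ := by
  have h3 : ‖NDJ_M t w a - a‖ ≤ 1 / 2 * ‖a‖ := by
    rw [pi_norm_le_iff_of_nonneg (by positivity)]
    intro i
    have h := NDJ_near ht hδ hN hs h1 h2 a i
    have e : (NDJ_M t w a - a) i = t⁻¹ * (∑ j, w i j * NDJ_Z w a j - t * a i) := by
      show t⁻¹ * ∑ j, w i j * NDJ_Z w a j - a i = _
      field_simp
    rw [e, Real.norm_eq_abs, abs_mul, abs_of_pos (inv_pos.mpr ht)]
    calc t⁻¹ * |∑ j, w i j * NDJ_Z w a j - t * a i| ≤ t⁻¹ * (t / 2 * ‖a‖) :=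
          mul_le_mul_of_nonneg_left h (inv_pos.mpr ht).le
      _ = 1 / 2 * ‖a‖ := by field_simp
  have h4 : ‖a‖ ≤ ‖NDJ_M t w a‖ + ‖NDJ_M t w a - a‖ := by
    have e : a = NDJ_M t w a - (NDJ_M t w a - a) := by abel
    calc ‖a‖ = ‖NDJ_M t w a - (NDJ_M t w a - a)‖ := by rw [← e]
      _ ≤ _ := norm_sub_le _ _
  linarith

theorem p_NDJ : Stmt_NDJ := by
  intro k N t δ ht hδ hN hs w h1 h2
  have hlow := NDJ_M_low ht hδ hN hs h1 h2
  have hinj : Function.Injective (NDJ_M t w) := by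
    rw [injective_iff_map_eq_zero]
    intro a ha
    have := hlow a
    rw [ha, norm_zero, mul_zero] at this
    exact norm_le_zero_iff.mp this
  let e : (Fin N → ℝ) ≃ₗ[ℝ] (Fin N → ℝ) := LinearEquiv.ofInjectiveEndo (NDJ_M t w) hinj
  have he : ∀ a, NDJ_M t w (e.symm a) = a := fun a => e.apply_symm_apply a
  refine ⟨NDJ_Z w ∘ₗ (e.symm : (Fin N → ℝ) →ₗ[ℝ] (Fin N → ℝ)), fun a i => ?_, fun a => ?_⟩
  · have h3 : t⁻¹ * ∑ j, w i j * NDJ_Z w (e.symm a) j = a i := congrFun (he a) i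
    have h4 : ∑ j, w i j * NDJ_Z w (e.symm a) j = t * a i := by
      rw [← h3, ← mul_assoc, mul_inv_cancel₀ ht.ne', one_mul]
    exact h4
  · have h3 : ‖NDJ_Z w (e.symm a)‖ ≤ ‖e.symm a‖ := by
      rw [pi_norm_le_iff_of_nonneg (norm_nonneg _)]
      intro j
      exact NDJ_Z_le w _ j
    have h4 := hlow (e.symm a)
    rw [he] at h4
    exact h3.trans h4

end Pool.Agent.MP3e8c7as
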