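import Pool.Agent.Work.MP_3e8c7a_s.Interface

set_option autoImplicit false

namespace Pool.Agent.MP3e8c7as

open Module MP3e8c7a

/-- The real sign. -/
noncomputable def PSU_sg (x : ℝ) : ℝ := ((SignType.sign x : SignType) : ℝ)

theorem PSU_sg_mul (x : ℝ) : x * PSU_sg x = |x| := by
  unfold PSU_sg
  rw [mul_comm]
  exact sign_mul_self x

theorem PSU_sg_zero : PSU_sg 0 = 0 := by
  unfold PSU_sg
  simp

theorem PSU_sg_abs (x : ℝ) : |PSU_sg x| ≤ 1 := by
  unfold PSU_sg
  rcases lt_trichotomy x 0 with h | h | h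
  · simp [sign_neg h]
  · simp [h]
  · simp [sign_pos h]

/-- The map `X`. -/
noncomputable def PSU_X {m k : ℕ} (β : Fin (m + m) → Fin k → ℝ) :
    (Fin m ⊕ Fin m → ℝ) →ₗ[ℝ] (Fin k → ℝ) where
  toFun a := fun t => ∑ κ, a κ * PSU_sg (β (finSumFinEquiv κ) t)
  map_add' a b := by
    funext t
    simp only [Pi.add_apply, add_mul, Finset.sum_add_distrib]
  map_smul' c a := by
    funext t
    simp only [Pi.smul_apply, smul_eq_mul, RingHom.id_apply, Finset.mul_sum, mul_assoc]

theorem p_PSU : Stmt_PSU := by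
  intro m k β hβ
  refine ⟨LinearMap.pi fun κ => dl (β (finSumFinEquiv κ)), PSU_X β, ?_, ?_, ?_, ?_⟩
  · intro a
    funext κ
    rw [LinearMap.pi_apply, dl_apply]
    unfold dt
    change ∑ t, β (finSumFinEquiv κ) t * (∑ κ', a κ' * PSU_sg (β (finSumFinEquiv κ') t)) = a κ
    have h1 : ∀ t, β (finSumFinEquiv κ) t * (∑ κ', a κ' * PSU_sg (β (finSumFinEquiv κ') t)) =
        a κ * |β (finSumFinEquiv κ) t| := by
      intro t
      rw [Finset.mul_sum, Finset.sum_eq_single κ]
      · rw [← PSU_sg_mul]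
        ring
      · intro κ' _ hne
        have hne' : finSumFinEquiv κ ≠ finSumFinEquiv κ' := fun h =>
          hne (finSumFinEquiv.injective h).symm
        rcases hβ.dis _ _ t hne' with h | h
        · rw [h, zero_mul]
        · rw [h, PSU_sg_zero, mul_zero, mul_zero]
      · intro h
        exact absurd (Finset.mem_univ κ) h
    rw [Finset.sum_congr rfl fun t _ => h1 t, ← Finset.mul_sum, hβ.one, mul_one]
  · intro a
    rw [pi_norm_le_iff_of_nonneg (norm_nonneg a)]
    intro t
    change ‖∑ κ', a κ' * PSU_sg (β (finSumFinEquiv κ') t)‖ ≤ ‖a‖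
    by_cases hx : ∃ κ, β (finSumFinEquiv κ) t ≠ 0
    · obtain ⟨κ, hκ⟩ := hx
      rw [Finset.sum_eq_single κ]
      · rw [norm_mul]
        calc ‖a κ‖ * ‖PSU_sg (β (finSumFinEquiv κ) t)‖ ≤ ‖a‖ * 1 :=
              mul_le_mul (norm_le_pi_norm a κ) (PSU_sg_abs _) (norm_nonneg _) (norm_nonneg _)
          _ = ‖a‖ := mul_one _
      · intro κ' _ hne
        have hne' : finSumFinEquiv κ ≠ finSumFinEquiv κ' := fun h =>
          hne (finSumFinEquiv.injective h).symm
        rcases hβ.dis _ _ t hne' with h | h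
        · exact absurd h hκ
        · rw [h, PSU_sg_zero, mul_zero]
      · intro h
        exact absurd (Finset.mem_univ κ) h
    · have h0 : ∀ κ, β (finSumFinEquiv κ) t = 0 := by
        intro κ
        by_contra h
        exact hx ⟨κ, h⟩
      rw [Finset.sum_eq_zero]
      · rw [norm_zero]
        exact norm_nonneg a
      · intro κ _
        rw [h0, PSU_sg_zero, mul_zero]
  · intro z
    rw [pi_norm_le_iff_of_nonneg (norm_nonneg z)]
    intro κ
    rw [LinearMap.pi_apply, dl_apply]
    unfold dt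
    calc ‖∑ t, β (finSumFinEquiv κ) t * z t‖ ≤ ∑ t, ‖β (finSumFinEquiv κ) t * z t‖ :=
          norm_sum_le _ _
      _ ≤ ∑ t, |β (finSumFinEquiv κ) t| * ‖z‖ := by
          refine Finset.sum_le_sum fun t _ => ?_
          rw [norm_mul, Real.norm_eq_abs]
          exact mul_le_mul_of_nonneg_left (norm_le_pi_norm z t) (abs_nonneg _)
      _ = ‖z‖ := by rw [← Finset.sum_mul, hβ.one, one_mul]
  · intro z κ
    rw [LinearMap.pi_apply, dl_apply]

end Pool.Agent.MP3e8c7as
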