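import Pool.Agent.Work.MP_3e8c7a_s.Interface

/-!
# MP_3e8c7a_an, block RIG: assembly of THEOREM R*
-/

set_option autoImplicit false

namespace Pool.Agent.MP3e8c7as

open Module MP3e8c7a

theorem RIG_cA (s : ℕ) (hs : 1 ≤ s) : 1 ≤ cA s := by
  have hs' : (1 : ℝ) ≤ (s : ℝ) := by exact_mod_cast hs
  have h1 : (1 : ℝ) ≤ (s * s : ℝ) := by nlinarith
  have h2 : (1 : ℝ) ≤ (s * s : ℝ) ^ 2 := one_le_pow₀ h1
  have h3 : (1 : ℝ) ≤ (2 : ℝ) ^ (s * s) := one_le_pow₀ (by norm_num)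
  have h4 : 1 ≤ c2 (s * s) := by
    unfold c2 c1
    have : 0 ≤ 2 * ((s * s : ℕ) : ℝ) * ((((s * s : ℕ) : ℝ) * (((s * s : ℕ) : ℝ) + 1) : ℝ) *
        2 ^ ((s * s) * ((s * s) + 1))) := by positivity
    linarith
  unfold cA
  have h5 : (1 : ℝ) ≤ 4 * (s * s : ℝ) ^ 2 := by linarith
  have h6 : (1 : ℝ) ≤ 4 * (s * s : ℝ) ^ 2 * 2 ^ (s * s) := one_le_mul_of_one_le_of_one_le h5 h3
  exact one_le_mul_of_one_le_of_one_le h6 h4

theorem RIG_comap {V W : Type} [AddCommGroup V] [Module ℝ V] [FiniteDimensional ℝ V]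
    [AddCommGroup W] [Module ℝ W] [FiniteDimensional ℝ W] (i : W →ₗ[ℝ] V)
    (hi : Function.Injective i) (Y : Submodule ℝ V) :
    finrank ℝ Y + finrank ℝ W ≤ finrank ℝ (Y.comap i) + finrank ℝ V := by
  have h1 : finrank ℝ (Y.comap i) = finrank ℝ ((Y.comap i).map i) :=
    (Submodule.equivMapOfInjective i hi (Y.comap i)).finrank_eq
  rw [h1, Submodule.map_comap_eq]
  have h2 := Submodule.finrank_sup_add_finrank_inf_eq (LinearMap.range i) Y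
  have h3 : finrank ℝ (LinearMap.range i) = finrank ℝ W := LinearMap.finrank_range_of_inj hi
  have h4 : finrank ℝ ↥(LinearMap.range i ⊔ Y) ≤ finrank ℝ V := Submodule.finrank_le _
  omega

theorem RIG_mono {b x y : ℝ} (hx : 0 ≤ x) (hxy : x ≤ y) :
    54 * b ^ 2 * x ^ 2 * (1 + 3 * x + 9 * x ^ 2) ≤ 54 * b ^ 2 * y ^ 2 * (1 + 3 * y + 9 * y ^ 2) := by
  have h1 : x ^ 2 ≤ y ^ 2 := pow_le_pow_left₀ hx hxy 2
  have h2 : 54 * b ^ 2 * x ^ 2 ≤ 54 * b ^ 2 * y ^ 2 :=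
    mul_le_mul_of_nonneg_left h1 (by positivity)
  have h3 : 1 + 3 * x + 9 * x ^ 2 ≤ 1 + 3 * y + 9 * y ^ 2 := by linarith
  exact mul_le_mul h2 h3 (by positivity) (by positivity)

theorem p_RIG (hWAL : Stmt_WAL) (hLAM : Stmt_LAM) (hSYP : Stmt_SYP) (hSYS : Stmt_SYS)
    (hVAN : Stmt_VAN) (hLAA : Stmt_LAA) : Stmt_RIG := by
  intro b M hb hM
  have hbM : 1 ≤ b * M := one_le_mul_of_one_le_of_one_le hb hM
  have hMC : M ≤ 2 * (b * M) := by nlinarith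
  obtain ⟨j, hj⟩ := pow_unbounded_of_one_lt
    (54 * b ^ 2 * (2 * (b * M)) ^ 2 * (1 + 3 * (2 * (b * M)) + 9 * (2 * (b * M)) ^ 2))
    (show (1 : ℝ) < 2 by norm_num)
  obtain ⟨s, hs, W, hW⟩ : ∃ s : ℕ, s = 2 ^ j ∧
      ∃ W : Fin (s * s) → Fin (s * s) → ℝ, Wal s W := ⟨2 ^ j, rfl, hWAL j⟩
  have hs1 : 1 ≤ s := by rw [hs]; exact Nat.one_le_two_pow
  have hsR : ((s : ℕ) : ℝ) = (2 : ℝ) ^ j := by
    rw [hs]
    push_cast
    rfl
  have hj1 : 54 * b ^ 2 * (2 * (b * M)) ^ 2 * (1 + 3 * (2 * (b * M)) + 9 * (2 * (b * M)) ^ 2) <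
      (s : ℝ) := by rw [hsR]; exact hj
  have hj2 : 54 * b ^ 2 * M ^ 2 * (1 + 3 * M + 9 * M ^ 2) < (s : ℝ) :=
    lt_of_le_of_lt (RIG_mono (by linarith) hMC) hj1
  have hcA := RIG_cA s hs1
  have hC₀ : 0 < 2 * M * cA s := by positivity
  obtain ⟨K₀, hK₀⟩ := hSYS (b * M) (2 * M * cA s) s hbM hC₀ hs1
  have hMM : 1 ≤ b * M ^ 2 := by nlinarith
  refine ⟨2 * (b * M ^ 2) * cA s, K₀ + D1 s + s * s * (s * s + 2) + 2 * (s * s), ?_, ?_⟩
  · nlinarith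
  intro V _ _ _ k p r hp hr hyp hKk hKV i hi
  have hinj : Function.Injective i := by
    rw [injective_iff_map_eq_zero]
    intro z hz
    have h := (hi z).2
    rw [hz, map_zero, mul_zero] at h
    exact norm_le_zero_iff.1 h
  have hIso1 : Iso M (p.comp i) (normSeminorm ℝ (Fin k → ℝ)) :=
    ⟨LinearEquiv.refl ℝ (Fin k → ℝ), fun z => ⟨(hi z).1, (hi z).2⟩⟩
  obtain ⟨φ, hφ1, hφ2⟩ := exists_proj (by linarith) p i hinj hIso1
  have hfr : finrank ℝ (Fin k → ℝ) = k := by simp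
  have hIso2 : Iso (b * M) (r.comp i) (normSeminorm ℝ (Fin k → ℝ)) :=
    ((hyp.inj i hinj hfr).symm (by linarith)).trans hIso1 (by linarith)
  obtain ⟨φ', hφ'1, hφ'2⟩ := exists_proj (by linarith) r i hinj hIso2
  obtain ⟨T, hT⟩ := id hIso2
  have hT' : ∀ z, (r.comp i) z ≤ ‖T z‖ ∧ ‖T z‖ ≤ b * M * (r.comp i) z := fun z => hT z
  have hD1 : 1 ≤ D1 s := by
    unfold D1
    have : 1 ≤ s * s := Nat.mul_le_mul hs1 hs1
    nlinarith
  obtain ⟨Λ, hΛ, hPS, hnPS⟩ := hLAM k (D1 s) (r.comp i) (hr.comp i hinj) hD1 (by omega)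
  have hSys1 := hSYP s k M (2 * Λ) V i p r hs1 hM hi hPS
  have hdim : k + s * s * (s * s + 2) ≤ finrank ℝ V := by omega
  obtain ⟨Y₁, hY₁d, hY₁⟩ := hLAA b M s W hb hM hs1 hW hj2 V k p r hp hr hyp hdim i φ hφ1 hIso1 hφ2
    (2 * Λ) (by linarith) hSys1
  have hcom := RIG_comap i hinj Y₁
  rw [hfr] at hcom
  obtain ⟨t, β, ht, hβ, hβ1, hβ2⟩ := hK₀ k (r.comp i) (by omega) T hT' Λ hΛ hnPS (Y₁.comap i)
    (by omega) (fun z hz => by
      have h1 := hY₁ (i z) hz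
      have h2 := (hi z).2
      have h3 : M * p (i z) ≤ M * (cA s * (2 * Λ) * r (i z)) :=
        mul_le_mul_of_nonneg_left h1 (by linarith)
      calc ‖z‖ ≤ M * p (i z) := h2
        _ ≤ M * (cA s * (2 * Λ) * r (i z)) := h3
        _ = 2 * M * cA s * Λ * (r.comp i) z := by
          change _ = 2 * M * cA s * Λ * r (i z)
          ring)
  have ht0 : 0 < t := lt_of_lt_of_le (div_pos hΛ (by linarith)) ht
  have hSys2 := hVAN s k (b * M) M t V i p r hs1 hbM hM ht0 (fun z => (hi z).2) T hT' β hβ hβ1 hβ2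
  obtain ⟨Y₂, hY₂d, hY₂⟩ := hLAA b (2 * (b * M)) s W hb (by linarith) hs1 hW hj1 V k r p hr hp
    (hyp.symm (by linarith)) hdim i φ' hφ'1 (hIso2.mono (by linarith))
    (fun x => (hφ'2 x).trans (mul_le_mul_of_nonneg_right (by linarith) (apply_nonneg r x)))
    (M / t) (div_pos (by linarith) ht0) hSys2
  refine ⟨Y₁ ⊓ Y₂, Λ, ?_, hΛ, fun y hy => ⟨?_, ?_⟩⟩
  · have h2 := Submodule.finrank_sup_add_finrank_inf_eq Y₁ Y₂
    have h4 : finrank ℝ ↥(Y₁ ⊔ Y₂) ≤ finrank ℝ V := Submodule.finrank_le _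
    omega
  · have h1 := hY₁ y hy.1
    have h2 : 0 ≤ Λ * r y := mul_nonneg hΛ.le (apply_nonneg r y)
    have h3 : cA s * (2 * Λ) * r y = 2 * cA s * (Λ * r y) := by ring
    rw [h3] at h1
    refine h1.trans (mul_le_mul_of_nonneg_right ?_ h2)
    nlinarith
  · have h1 := hY₂ y hy.2
    have hp0 : 0 ≤ p y := apply_nonneg p y
    have h3 : Λ * (M / t) ≤ b * M ^ 2 := by
      have h4 : Λ ≤ b * M * t := by
        have := (div_le_iff₀ (show (0 : ℝ) < b * M by linarith)).1 ht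
        linarith
      rw [mul_div_assoc', div_le_iff₀ ht0]
      calc Λ * M ≤ b * M * t * M := mul_le_mul_of_nonneg_right h4 (by linarith)
        _ = b * M ^ 2 * t := by ring
    calc Λ * r y ≤ Λ * (cA s * (M / t) * p y) := mul_le_mul_of_nonneg_left h1 hΛ.le
      _ = cA s * (Λ * (M / t)) * p y := by ring
      _ ≤ cA s * (b * M ^ 2) * p y := mul_le_mul_of_nonneg_right
          (mul_le_mul_of_nonneg_left h3 (by linarith)) hp0
      _ ≤ 2 * (b * M ^ 2) * cA s * p y := mul_le_mul_of_nonneg_right (by nlinarith) hp0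

end Pool.Agent.MP3e8c7as
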