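import Pool.Agent.Work.MP_3e8c7a_s.Interface

/-!
# MP_3e8c7a_an, THEOREM R*: block SYP
-/

set_option autoImplicit false

namespace Pool.Agent.MP3e8c7as

open Module MP3e8c7a

theorem SYP_dt {L M N : ℕ} (c : Fin L → Fin M → ℝ) (β : Fin M → Fin N → ℝ) (a : Fin L)
    (z : Fin N → ℝ) : dt (cmp c β a) z = ∑ u, c a u * dt (β u) z := by
  simp only [dt, cmp, Finset.sum_mul, Finset.mul_sum]
  rw [Finset.sum_comm]
  refine Finset.sum_congr rfl fun u _ => Finset.sum_congr rfl fun t _ => ?_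
  ring

/-- block SYP -/
theorem p_SYP (h1 : Stmt_CMP) (h2 : Stmt_KIL) (h3 : Stmt_PSU) : Stmt_SYP := by
  intro s k M Λ V _ _ i p r hs hM hp hPS
  obtain ⟨β, hβ, hβ1⟩ := hPS
  refine ⟨D1 s, β, fun u z => hβ1 u z, fun κ => ?_⟩
  obtain ⟨c₀, hc₀, hc₁⟩ := h2 (Fin (s * s) ⊕ Fin (s * s) → ℝ) (s * s + s * s)
    (2 * (s * s) + 1) (D1 s) κ (by
      rw [Module.finrank_fintype_fun_eq_card, Fintype.card_sum, Fintype.card_fin]
      omega) le_rfl
  obtain ⟨U, X, hUX, hX, hU, hUd⟩ := h3 (s * s) k (cmp c₀ β) (h1 _ _ _ c₀ β hc₀ hβ)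
  have hkey : ∀ (j : Fin (s * s) ⊕ Fin (s * s)) (z : Fin k → ℝ),
      ∑ u, c₀ (finSumFinEquiv j) u * dt (β u) z = U z j := by
    intro j z
    rw [hUd, SYP_dt]
  refine ⟨fun j => c₀ (finSumFinEquiv j), X, fun j => (hc₀.one _).le, fun j => hc₁ _, ?_, ?_, ?_⟩
  · intro a j
    rw [hkey, hUX]
  · intro a
    have h4 : ‖a‖ ≤ M * ‖a‖ := le_mul_of_one_le_left (norm_nonneg a) hM
    exact ((hp (X a)).1.trans (hX a)).trans h4
  · intro j z
    rw [hkey]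
    have h5 : |U z j| ≤ ‖U z‖ := norm_le_pi_norm (U z) j
    exact (h5.trans (hU z)).trans (hp z).2

end Pool.Agent.MP3e8c7as
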