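import Pool.Agent.Work.MP_3e8c7a_s.Interface

/-!
# Block SYS: a nearly extremal system of functionals
-/

set_option autoImplicit false

namespace Pool.Agent.MP3e8c7as

open Module MP3e8c7a

/-- `dt` and `co`. -/
theorem SYS_co {k : ℕ} (T : (Fin k → ℝ) ≃ₗ[ℝ] (Fin k → ℝ)) (β z : Fin k → ℝ) :
    dt β z = ∑ j, co T β j * (T z) j := by
  have h1 : z = ∑ j, (T z) j • T.symm (Pi.single j 1) := by
    have h2 : T z = ∑ j, (T z) j • (Pi.single j (1 : ℝ) : Fin k → ℝ) := by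
      conv_lhs => rw [pi_eq_sum_univ' (T z)]
    have h3 := congrArg T.symm h2
    rw [LinearEquiv.symm_apply_apply, map_sum] at h3
    rw [h3]
    refine Finset.sum_congr rfl fun j _ => ?_
    rw [← h3, map_smul]
  have h4 : dt β z = dl β (∑ j, (T z) j • T.symm (Pi.single j 1)) := by
    rw [← h1, dl_apply]
  rw [h4, map_sum]
  refine Finset.sum_congr rfl fun j _ => ?_
  rw [map_smul, dl_apply, smul_eq_mul, mul_comm]
  rfl

theorem SYS_cmp {k N M : ℕ} (T : (Fin k → ℝ) ≃ₗ[ℝ] (Fin k → ℝ)) (c : Fin M → Fin N → ℝ)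
    (β : Fin N → Fin k → ℝ) (s : Fin M) (j : Fin k) :
    co T (cmp c β s) j = ∑ i, c s i * co T (β i) j := by
  unfold co dt cmp
  simp only [Finset.sum_mul, Finset.mul_sum]
  rw [Finset.sum_comm]
  refine Finset.sum_congr rfl fun i _ => Finset.sum_congr rfl fun t _ => ?_
  ring

/-- The `ℓ_1` norm of `co T β` is attained. -/
theorem SYS_sign {k : ℕ} (T : (Fin k → ℝ) ≃ₗ[ℝ] (Fin k → ℝ)) (β : Fin k → ℝ) :
    ∃ z : Fin k → ℝ, ‖T z‖ ≤ 1 ∧ dt β z = ∑ j, |co T β j| := by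
  refine ⟨T.symm (fun j => if 0 ≤ co T β j then 1 else -1), ?_, ?_⟩
  · rw [LinearEquiv.apply_symm_apply, pi_norm_le_iff_of_nonneg zero_le_one]
    intro j
    show ‖(if 0 ≤ co T β j then (1 : ℝ) else -1)‖ ≤ 1
    split_ifs <;> simp
  · rw [SYS_co T β, LinearEquiv.apply_symm_apply]
    refine Finset.sum_congr rfl fun j _ => ?_
    show co T β j * (if 0 ≤ co T β j then (1 : ℝ) else -1) = |co T β j|
    split_ifs with h
    · rw [abs_of_nonneg h, mul_one]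
    · rw [abs_of_neg (not_le.1 h)]
      ring

theorem SYS_le {k : ℕ} (T : (Fin k → ℝ) ≃ₗ[ℝ] (Fin k → ℝ)) (β z : Fin k → ℝ) :
    |dt β z| ≤ (∑ j, |co T β j|) * ‖T z‖ := by
  rw [SYS_co T β z, Finset.sum_mul]
  refine (Finset.abs_sum_le_sum_abs _ _).trans (Finset.sum_le_sum fun j _ => ?_)
  rw [abs_mul]
  exact mul_le_mul_of_nonneg_left (norm_le_pi_norm (T z) j) (abs_nonneg _)

/-- Block SYS. -/
theorem p_SYS (hCMP : Stmt_CMP) (hKIL : Stmt_KIL) (hJAM : Stmt_JAM) : Stmt_SYS := by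
  intro b C₀ s hb hC₀ hs
  have hm : 1 ≤ s * s := Nat.mul_pos hs hs
  have hmR : (1 : ℝ) ≤ (s : ℝ) * s := by exact_mod_cast hm
  set δ : ℝ := 1 / (20 * (s * s : ℝ)) with hδdef
  have hδ : 0 < δ := by positivity
  obtain ⟨h, hh⟩ := pow_unbounded_of_one_lt (b * C₀) (by linarith : (1 : ℝ) < 1 + δ)
  refine ⟨(s * s) * (D1 s * D1 s ^ h + 1), ?_⟩
  intro k ρ hk T hT Λ hΛ hPS Y hY hYb
  have hD1 : 1 ≤ D1 s := by
    unfold D1
    exact Nat.mul_pos (by omega) (by omega)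
  have hb0 : 0 < b := by linarith
  -- (1) the functionals
  have hex : ∀ t : Fin k, ∃ g : (Fin k → ℝ) →ₗ[ℝ] ℝ, (∀ a : Y, g (Y.subtype a) = (a : Fin k → ℝ) t) ∧
      ∀ x, |g x| ≤ C₀ * Λ * ρ x := by
    intro t
    refine exists_ext ρ Y.subtype Subtype.val_injective (mul_nonneg hC₀.le hΛ.le)
      ((LinearMap.proj t : (Fin k → ℝ) →ₗ[ℝ] ℝ) ∘ₗ Y.subtype) ?_
    intro a
    exact (norm_le_pi_norm (a : Fin k → ℝ) t).trans (hYb a a.2)
  choose γ hγ1 hγ2 using hex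
  have hmem : ∀ t : Fin k, γ t - LinearMap.proj t ∈ Y.dualAnnihilator := by
    intro t
    rw [Submodule.mem_dualAnnihilator]
    intro w hw
    have := hγ1 t ⟨w, hw⟩
    show γ t w - w t = 0
    rw [sub_eq_zero]
    exact this
  have hfin : finrank ℝ Y.dualAnnihilator < s * s := by
    have h1 := Subspace.finrank_add_finrank_dualAnnihilator_eq Y
    rw [Module.finrank_fin_fun] at h1
    omega
  have hN : (k / (s * s)) * (s * s) ≤ k := Nat.div_mul_le_self _ _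
  obtain ⟨β₀, hβ₀, hkill⟩ := hKIL Y.dualAnnihilator (k / (s * s)) (s * s) k
    (fun t => ⟨γ t - LinearMap.proj t, hmem t⟩) hfin hN
  have hdt : ∀ (u : Fin (k / (s * s))) (z : Fin k → ℝ), dt (β₀ u) z = ∑ t, β₀ u t * γ t z := by
    intro u z
    have h1 := congrArg (fun F : Y.dualAnnihilator => (F : Module.Dual ℝ (Fin k → ℝ)) z) (hkill u)
    simp only [Submodule.coe_sum, Submodule.coe_smul, LinearMap.sum_apply, LinearMap.smul_apply,
      LinearMap.sub_apply, LinearMap.proj_apply, smul_eq_mul, Submodule.coe_zero,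
      LinearMap.zero_apply, mul_sub, Finset.sum_sub_distrib] at h1
    unfold dt
    linarith
  have hdtb : ∀ (u : Fin (k / (s * s))) (z : Fin k → ℝ), |dt (β₀ u) z| ≤ C₀ * Λ * ρ z := by
    intro u z
    rw [hdt u z]
    refine (Finset.abs_sum_le_sum_abs _ _).trans ?_
    have h1 : ∀ t ∈ Finset.univ, |β₀ u t * γ t z| ≤ |β₀ u t| * (C₀ * Λ * ρ z) := by
      intro t _
      rw [abs_mul]
      exact mul_le_mul_of_nonneg_left (hγ2 t z) (abs_nonneg _)
    refine (Finset.sum_le_sum h1).trans ?_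
    rw [← Finset.sum_mul, hβ₀.one u, one_mul]
  -- (2)
  have hy : ∀ u, ∑ j, |co T (β₀ u) j| ≤ C₀ * Λ := by
    intro u
    obtain ⟨z, hz1, hz2⟩ := SYS_sign T (β₀ u)
    rw [← hz2]
    refine (le_abs_self _).trans ((hdtb u z).trans ?_)
    have h1 : ρ z ≤ 1 := (hT z).1.trans hz1
    exact mul_le_of_le_one_right (mul_nonneg hC₀.le hΛ.le) h1
  -- (3)
  have hyp : ∀ c : Fin (D1 s) → Fin (k / (s * s)) → ℝ, Nrm c →
      ∃ u, Λ / b < ∑ j, |∑ i, c u i * co T (β₀ i) j| := by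
    intro c hc
    by_contra hcon
    simp only [not_exists, not_lt] at hcon
    apply hPS
    refine ⟨cmp c β₀, hCMP _ _ _ c β₀ hc hβ₀, ?_⟩
    intro u z
    have h1 := SYS_le T (cmp c β₀ u) z
    have h2 : ∑ j, |co T (cmp c β₀ u) j| ≤ Λ / b := by
      simp only [SYS_cmp]
      exact hcon u
    have h3 : (∑ j, |co T (cmp c β₀ u) j|) * ‖T z‖ ≤ Λ / b * (b * ρ z) :=
      mul_le_mul h2 (hT z).2 (norm_nonneg _) (div_nonneg hΛ.le hb0.le)
    have h4 : Λ / b * (b * ρ z) = Λ * ρ z := by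
      field_simp
    rw [h4] at h3
    exact h1.trans h3
  -- (4)
  have hΓ : C₀ * Λ < (1 + δ) ^ h * (Λ / b) := by
    rw [mul_div_assoc', lt_div_iff₀ hb0]
    have := mul_lt_mul_of_pos_right hh hΛ
    linarith
  have hNN : D1 s * D1 s ^ h ≤ k / (s * s) := by
    rw [Nat.le_div_iff_mul_le (by omega : 0 < s * s)]
    have h1 : (s * s) * (D1 s * D1 s ^ h + 1) = D1 s * D1 s ^ h * (s * s) + s * s := by ring
    omega
  obtain ⟨t, c, ht, hc, hc1, hc2⟩ := hJAM k (k / (s * s)) (D1 s) h (D1 s) (C₀ * Λ) (Λ / b) δ hδ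
    (div_pos hΛ hb0) hD1 hΓ hNN (fun i => co T (β₀ i)) hy hyp
  refine ⟨t, cmp c β₀, ht, hCMP _ _ _ c β₀ hc hβ₀, ?_, ?_⟩
  · intro u
    simp only [SYS_cmp]
    exact hc1 u
  · intro d
    simp only [SYS_cmp]
    exact hc2 d

end Pool.Agent.MP3e8c7as
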