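import Pool.Agent.Work.MP_3e8c7a_s.Interface

set_option autoImplicit false

/-! # Block TRI: triangular matrices -/

namespace Pool.Agent.MP3e8c7as

open Module MP3e8c7a

/-- the partial sums -/
noncomputable def TRI_s {m : ℕ} (a : Fin m → ℝ) (n : ℕ) : ℝ :=
  ∑ l ∈ Finset.univ.filter (fun l : Fin m => (l : ℕ) < n), |a l|

theorem TRI_zero {m : ℕ} (a : Fin m → ℝ) : TRI_s a 0 = 0 := by
  unfold TRI_s
  have h : Finset.univ.filter (fun l : Fin m => (l : ℕ) < 0) = ∅ := by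
    ext l
    simp
  rw [h, Finset.sum_empty]

theorem TRI_succ {m : ℕ} (a : Fin m → ℝ) (i : Fin m) :
    TRI_s a ((i : ℕ) + 1) = TRI_s a i + |a i| := by
  unfold TRI_s
  have h : Finset.univ.filter (fun l : Fin m => (l : ℕ) < (i : ℕ) + 1)
      = insert i (Finset.univ.filter (fun l : Fin m => (l : ℕ) < (i : ℕ))) := by
    ext l
    rw [Finset.mem_insert, Finset.mem_filter, Finset.mem_filter]
    constructor
    · rintro ⟨_, h1⟩
      by_cases h2 : l = i
      · exact Or.inl h2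
      · right
        refine ⟨Finset.mem_univ _, ?_⟩
        have h3 : (l : ℕ) ≠ i := fun h4 => h2 (Fin.ext h4)
        omega
    · rintro (h1 | ⟨_, h1⟩)
      · rw [h1]
        exact ⟨Finset.mem_univ _, by omega⟩
      · exact ⟨Finset.mem_univ _, by omega⟩
  rw [h, Finset.sum_insert, add_comm]
  rw [Finset.mem_filter]
  rintro ⟨_, h1⟩
  omega

theorem TRI_stop {m : ℕ} (a : Fin m → ℝ) (n : ℕ) (hn : m ≤ n) :
    TRI_s a (n + 1) = TRI_s a n := by
  unfold TRI_s
  congr 1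
  ext l
  rw [Finset.mem_filter, Finset.mem_filter]
  have := l.isLt
  constructor
  · rintro ⟨h1, _⟩
    exact ⟨h1, by omega⟩
  · rintro ⟨h1, _⟩
    exact ⟨h1, by omega⟩

/-- the recursion -/
theorem TRI_rec {m : ℕ} (R : Fin m → Fin m → ℝ) (h1 : ∀ i, R i i = 1)
    (h0 : ∀ i l, i < l → R i l = 0) (hb : ∀ i l, |R i l| ≤ 1) (a : Fin m → ℝ) (i : Fin m) :
    |a i| ≤ ‖fun i => ∑ l, R i l * a l‖ + TRI_s a i := by
  classical
  set t := ‖fun i => ∑ l, R i l * a l‖ with ht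
  have hsum : ∑ l, R i l * a l
      = a i + ∑ l ∈ Finset.univ.filter (fun l : Fin m => (l : ℕ) < i), R i l * a l := by
    have h2 : ∑ l, R i l * a l = ∑ l ∈ insert i
        (Finset.univ.filter (fun l : Fin m => (l : ℕ) < i)), R i l * a l := by
      refine (Finset.sum_subset (Finset.subset_univ _) ?_).symm
      intro l _ hl
      rw [Finset.mem_insert, Finset.mem_filter, not_or] at hl
      have h3 : i < l := by
        have h4 : (l : ℕ) ≠ i := fun h5 => hl.1 (Fin.ext h5)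
        have h6 : ¬ (l : ℕ) < i := fun h7 => hl.2 ⟨Finset.mem_univ _, h7⟩
        exact Fin.lt_def.2 (by omega)
      rw [h0 i l h3, zero_mul]
    rw [h2, Finset.sum_insert, h1, one_mul]
    rw [Finset.mem_filter]
    rintro ⟨_, h5⟩
    omega
  have hn : |∑ l, R i l * a l| ≤ t := by
    have h2 := norm_le_pi_norm (fun i => ∑ l, R i l * a l) i
    rwa [Real.norm_eq_abs] at h2
  have hs : |∑ l ∈ Finset.univ.filter (fun l : Fin m => (l : ℕ) < i), R i l * a l|
      ≤ TRI_s a i := by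
    refine (Finset.abs_sum_le_sum_abs _ _).trans (Finset.sum_le_sum fun l _ => ?_)
    rw [abs_mul]
    calc |R i l| * |a l| ≤ 1 * |a l| :=
          mul_le_mul_of_nonneg_right (hb i l) (abs_nonneg _)
      _ = |a l| := one_mul _
  have h3 : a i = (∑ l, R i l * a l)
      - ∑ l ∈ Finset.univ.filter (fun l : Fin m => (l : ℕ) < i), R i l * a l := by
    rw [hsum]
    ring
  calc |a i| ≤ |∑ l, R i l * a l|
        + |∑ l ∈ Finset.univ.filter (fun l : Fin m => (l : ℕ) < i), R i l * a l| := by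
        conv_lhs => rw [h3]
        exact abs_sub _ _
    _ ≤ t + TRI_s a i := add_le_add hn hs

theorem TRI_bound {m : ℕ} (R : Fin m → Fin m → ℝ) (h1 : ∀ i, R i i = 1)
    (h0 : ∀ i l, i < l → R i l = 0) (hb : ∀ i l, |R i l| ≤ 1) (a : Fin m → ℝ) (n : ℕ) :
    TRI_s a n ≤ (2 ^ n - 1) * ‖fun i => ∑ l, R i l * a l‖ := by
  have ht : 0 ≤ ‖fun i => ∑ l, R i l * a l‖ := norm_nonneg _
  induction n with
  | zero =>
    rw [TRI_zero]
    simp
  | succ n ih =>
    have h2 : (0 : ℝ) < 2 ^ n := by positivity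
    rcases Nat.lt_or_ge n m with hn | hn
    · have h3 := TRI_succ a ⟨n, hn⟩
      have h4 := TRI_rec R h1 h0 hb a ⟨n, hn⟩
      have h5 : TRI_s a (n + 1) = TRI_s a n + |a ⟨n, hn⟩| := h3
      have h6 : |a ⟨n, hn⟩| ≤ ‖fun i => ∑ l, R i l * a l‖ + TRI_s a n := h4
      rw [h5, pow_succ]
      nlinarith
    · rw [TRI_stop a n hn, pow_succ]
      nlinarith

theorem TRI_norm {m : ℕ} (R : Fin m → Fin m → ℝ) (h1 : ∀ i, R i i = 1)
    (h0 : ∀ i l, i < l → R i l = 0) (hb : ∀ i l, |R i l| ≤ 1) (a : Fin m → ℝ) :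
    ‖a‖ ≤ 2 ^ m * ‖fun i => ∑ l, R i l * a l‖ := by
  have ht : 0 ≤ ‖fun i => ∑ l, R i l * a l‖ := norm_nonneg _
  refine (pi_norm_le_iff_of_nonneg (by positivity)).2 fun i => ?_
  rw [Real.norm_eq_abs]
  have h2 := TRI_rec R h1 h0 hb a i
  have h3 := TRI_bound R h1 h0 hb a i
  have h4 : (2 : ℝ) ^ (i : ℕ) ≤ 2 ^ m := pow_le_pow_right₀ (by norm_num) i.isLt.le
  nlinarith

theorem p_TRI : Stmt_TRI := by
  intro m R h1 h0 hb
  refine ⟨TRI_norm R h1 h0 hb, ?_⟩
  let T : (Fin m → ℝ) →ₗ[ℝ] (Fin m → ℝ) := Matrix.mulVecLin (Matrix.of R)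
  have hT : ∀ a, T a = fun i => ∑ l, R i l * a l := fun a => rfl
  have hinj : Function.Injective T := by
    rw [injective_iff_map_eq_zero]
    intro a ha
    have h2 := TRI_norm R h1 h0 hb a
    rw [← hT a, ha, norm_zero, mul_zero] at h2
    exact norm_eq_zero.1 (le_antisymm h2 (norm_nonneg _))
  let e := LinearEquiv.ofInjectiveEndo T hinj
  have he : ∀ a, T (e.symm a) = a := fun a => e.apply_symm_apply a
  refine ⟨e.symm, fun a i => ?_, fun a => ?_⟩
  · have h2 := congrFun (he a) i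
    rw [hT] at h2
    exact h2
  · have h2 := TRI_norm R h1 h0 hb (e.symm a)
    rw [← hT (e.symm a), he a] at h2
    exact h2

end Pool.Agent.MP3e8c7as
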