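import Pool.Agent.Work.MP_3e8c7a_s.Interface

/-!
# Block VAN: the system of nearly disjoint functionals
-/

set_option autoImplicit false

namespace Pool.Agent.MP3e8c7as

open Module MP3e8c7a

theorem VAN_co {k : ℕ} (T : (Fin k → ℝ) ≃ₗ[ℝ] (Fin k → ℝ)) (β z : Fin k → ℝ) :
    dt β z = ∑ l, co T β l * (T z) l := by
  have h1 : z = ∑ l, (T z) l • T.symm (Pi.single l 1) := by
    have h2 : T z = ∑ l, (T z) l • (Pi.single l (1 : ℝ) : Fin k → ℝ) := by
      funext j
      simp [Finset.sum_apply, Pi.single_apply]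
    have h3 : T.symm (T z) = T.symm (∑ l, (T z) l • (Pi.single l (1 : ℝ) : Fin k → ℝ)) := by
      rw [← h2]
    rw [LinearEquiv.symm_apply_apply, map_sum] at h3
    refine h3.trans ?_
    exact Finset.sum_congr rfl fun l _ => map_smul _ _ _
  conv_lhs => rw [h1, ← dl_apply, map_sum]
  refine Finset.sum_congr rfl fun l _ => ?_
  rw [map_smul, dl_apply, smul_eq_mul, mul_comm]
  rfl

theorem VAN_sum_le {k : ℕ} (x z : Fin k → ℝ) : |∑ l, x l * z l| ≤ (∑ l, |x l|) * ‖z‖ := by
  refine (Finset.abs_sum_le_sum_abs _ _).trans ?_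
  rw [Finset.sum_mul]
  refine Finset.sum_le_sum fun l _ => ?_
  rw [abs_mul]
  exact mul_le_mul_of_nonneg_left (norm_le_pi_norm z l) (abs_nonneg _)

theorem VAN_disj {M N : ℕ} (c : Fin M → Fin N → ℝ) (hc : Nrm c) (d : Fin M → ℝ) :
    ∑ u, |∑ a, d a * c a u| = ∑ a, |d a| := by
  have h1 : ∀ u, |∑ a, d a * c a u| = ∑ a, |d a| * |c a u| := by
    intro u
    by_cases h : ∃ a, c a u ≠ 0
    · obtain ⟨a, ha⟩ := h
      have h2 : ∀ a', a' ≠ a → c a' u = 0 := fun a' ha' =>
        (hc.dis a' a u ha').resolve_right ha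
      rw [Finset.sum_eq_single a (fun a' _ h' => by rw [h2 a' h', mul_zero])
        (fun h' => absurd (Finset.mem_univ a) h'),
        Finset.sum_eq_single a (fun a' _ h' => by rw [h2 a' h', abs_zero, mul_zero])
        (fun h' => absurd (Finset.mem_univ a) h'), abs_mul]
    · push Not at h
      rw [Finset.sum_eq_zero fun a _ => by rw [h a, mul_zero],
        Finset.sum_eq_zero fun a _ => by rw [h a, abs_zero, mul_zero], abs_zero]
  rw [Finset.sum_congr rfl fun u _ => h1 u, Finset.sum_comm]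
  refine Finset.sum_congr rfl fun a _ => ?_
  rw [← Finset.mul_sum, hc.one a, mul_one]

theorem p_VAN (_hC : Stmt_CMP) (hK : Stmt_KIL) (hN : Stmt_NDJ) : Stmt_VAN := by
  intro s k b M t V _ _ i p r hs hb hM ht hz T hT β hβ hβ1 hβ2
  have hspos : (0 : ℝ) < (s * s : ℝ) := by
    have : (1 : ℝ) ≤ s := by exact_mod_cast hs
    nlinarith
  have hs1 : (1 : ℝ) ≤ (s * s : ℝ) := by
    have : (1 : ℝ) ≤ s := by exact_mod_cast hs
    nlinarith
  refine ⟨D1 s, fun u => (1 / t) • β u, ?_, ?_⟩
  · intro u z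
    have h1 : dt ((1 / t) • β u) z = (1 / t) * dt (β u) z := by
      unfold dt
      rw [Finset.mul_sum]
      refine Finset.sum_congr rfl fun l _ => ?_
      rw [Pi.smul_apply, smul_eq_mul, mul_assoc]
    have h2 : |dt (β u) z| ≤ M * p (i z) := by
      refine (VAN_sum_le (β u) z).trans ?_
      rw [hβ.one u, one_mul]
      exact hz z
    rw [h1, abs_mul, abs_of_pos (by positivity : (0 : ℝ) < 1 / t)]
    calc 1 / t * |dt (β u) z| ≤ 1 / t * (M * p (i z)) :=
          mul_le_mul_of_nonneg_left h2 (by positivity)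
      _ = M / t * p (i z) := by ring
  · intro κ
    obtain ⟨c₀, hc₀, hk₀⟩ := hK (Fin (s * s) ⊕ Fin (s * s) → ℝ) (s * s + s * s)
      (2 * (s * s) + 1) (D1 s) κ (by
        rw [Module.finrank_fintype_fun_eq_card, Fintype.card_sum, Fintype.card_fin]
        omega) (le_of_eq rfl)
    set δ : ℝ := 1 / (20 * (s * s : ℝ)) with hδ
    have hδ0 : 0 ≤ δ := by positivity
    have hδ1 : δ ≤ 1 := by
      rw [hδ, div_le_one (by positivity)]
      linarith
    set w : Fin (s * s + s * s) → Fin k → ℝ := fun a j => ∑ u, c₀ a u * co T (β u) j with hw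
    have hw1 : ∀ a, ∑ j, |w a j| ≤ (1 + δ) * t := by
      intro a
      calc ∑ j, |w a j| ≤ ∑ j, ∑ u, |c₀ a u| * |co T (β u) j| := by
            refine Finset.sum_le_sum fun j _ => ?_
            refine (Finset.abs_sum_le_sum_abs _ _).trans (le_of_eq ?_)
            exact Finset.sum_congr rfl fun u _ => abs_mul _ _
        _ = ∑ u, |c₀ a u| * ∑ j, |co T (β u) j| := by
            rw [Finset.sum_comm]
            exact Finset.sum_congr rfl fun u _ => (Finset.mul_sum _ _ _).symm
        _ ≤ ∑ u, |c₀ a u| * ((1 + δ) * t) :=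
            Finset.sum_le_sum fun u _ => mul_le_mul_of_nonneg_left (hβ1 u) (abs_nonneg _)
        _ = (1 + δ) * t := by rw [← Finset.sum_mul, hc₀.one a, one_mul]
    have hw2 : ∀ d : Fin (s * s + s * s) → ℝ, t * ∑ a, |d a| ≤ ∑ j, |∑ a, d a * w a j| := by
      intro d
      have h1 := hβ2 fun u => ∑ a, d a * c₀ a u
      rw [VAN_disj c₀ hc₀ d] at h1
      refine h1.trans (le_of_eq ?_)
      refine Finset.sum_congr rfl fun j _ => ?_
      congr 1
      calc ∑ u, (∑ a, d a * c₀ a u) * co T (β u) j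
          = ∑ u, ∑ a, d a * (c₀ a u * co T (β u) j) := by
            refine Finset.sum_congr rfl fun u _ => ?_
            rw [Finset.sum_mul]
            exact Finset.sum_congr rfl fun a _ => mul_assoc _ _ _
        _ = ∑ a, d a * w a j := by
            rw [Finset.sum_comm]
            exact Finset.sum_congr rfl fun a _ => (Finset.mul_sum _ _ _).symm
    have hN1 : 1 ≤ s * s + s * s := by nlinarith
    have hN2 : 10 * ((s * s + s * s : ℕ) : ℝ) * δ ≤ 1 := by
      rw [hδ]
      push_cast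
      apply le_of_eq
      field_simp
      ring
    obtain ⟨X', hX1, hX2⟩ := hN k (s * s + s * s) t δ ht hδ0 hN1 hN2 w hw1 hw2
    have hkey : ∀ (j : Fin (s * s) ⊕ Fin (s * s)) z,
        ∑ u, c₀ (finSumFinEquiv j) u * dt ((1 / t) • β u) z =
          (1 / t) * ∑ l, w (finSumFinEquiv j) l * (T z) l := by
      intro j z
      have h1 : ∀ u, dt ((1 / t) • β u) z = (1 / t) * ∑ l, co T (β u) l * (T z) l := by
        intro u
        rw [← VAN_co]
        unfold dt
        rw [Finset.mul_sum]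
        refine Finset.sum_congr rfl fun l _ => ?_
        rw [Pi.smul_apply, smul_eq_mul, mul_assoc]
      calc ∑ u, c₀ (finSumFinEquiv j) u * dt ((1 / t) • β u) z
          = ∑ u, (1 / t) * ∑ l, c₀ (finSumFinEquiv j) u * co T (β u) l * (T z) l := by
            refine Finset.sum_congr rfl fun u _ => ?_
            rw [h1, Finset.mul_sum, Finset.mul_sum, Finset.mul_sum]
            exact Finset.sum_congr rfl fun l _ => by ring
        _ = (1 / t) * ∑ l, w (finSumFinEquiv j) l * (T z) l := by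
            rw [← Finset.mul_sum, Finset.sum_comm]
            congr 1
            exact Finset.sum_congr rfl fun l _ => (Finset.sum_mul _ _ _).symm
    set R : (Fin (s * s) ⊕ Fin (s * s) → ℝ) →ₗ[ℝ] (Fin (s * s + s * s) → ℝ) :=
      LinearMap.funLeft ℝ ℝ finSumFinEquiv.symm with hR
    have hRn : ∀ a, ‖R a‖ ≤ ‖a‖ := by
      intro a
      rw [pi_norm_le_iff_of_nonneg (norm_nonneg _)]
      intro l
      exact norm_le_pi_norm a _
    refine ⟨fun j => c₀ (finSumFinEquiv j), T.symm.toLinearMap ∘ₗ X' ∘ₗ R, ?_, ?_, ?_, ?_, ?_⟩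
    · intro j
      exact (hc₀.one _).le
    · intro j
      exact hk₀ _
    · intro a j
      rw [hkey]
      have h1 : T ((T.symm.toLinearMap ∘ₗ X' ∘ₗ R) a) = X' (R a) := by
        simp
      rw [h1, hX1]
      have h2 : R a (finSumFinEquiv j) = a j := by
        rw [hR, LinearMap.funLeft_apply, Equiv.symm_apply_apply]
      rw [h2]
      field_simp
    · intro a
      have h1 : T ((T.symm.toLinearMap ∘ₗ X' ∘ₗ R) a) = X' (R a) := by
        simp
      have h2 := (hT ((T.symm.toLinearMap ∘ₗ X' ∘ₗ R) a)).1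
      rw [h1] at h2
      have h3 := hX2 (R a)
      have h4 := hRn a
      have h5 := norm_nonneg a
      nlinarith
    · intro j z
      rw [hkey, abs_mul, abs_of_pos (by positivity : (0 : ℝ) < 1 / t)]
      have h1 := VAN_sum_le (w (finSumFinEquiv j)) (T z)
      have h2 := hw1 (finSumFinEquiv j)
      have h3 := norm_nonneg (T z)
      have h4 : |∑ l, w (finSumFinEquiv j) l * (T z) l| ≤ (1 + δ) * t * ‖T z‖ :=
        h1.trans (mul_le_mul_of_nonneg_right h2 h3)
      calc 1 / t * |∑ l, w (finSumFinEquiv j) l * (T z) l|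
          ≤ 1 / t * ((1 + δ) * t * ‖T z‖) := mul_le_mul_of_nonneg_left h4 (by positivity)
        _ = (1 + δ) * ‖T z‖ := by field_simp
        _ ≤ 2 * ‖T z‖ := by nlinarith
        _ ≤ 2 * (b * r (i z)) := by linarith [(hT z).2]
        _ = 2 * b * r (i z) := by ring

end Pool.Agent.MP3e8c7as
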