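import Pool.Agent.Work.MP_3e8c7a_s.Interface

set_option autoImplicit false

namespace Pool.Agent.MP3e8c7as

open Module MP3e8c7a

/-- The matrix of size four with entries `1 / 2` and `- 1 / 2`. -/
noncomputable def WAL_K (a b : Fin 4) : ℝ := (if a = b then 1 else 0) - 1 / 2

theorem WAL_K_sq (a b : Fin 4) : ∑ t, WAL_K a t * WAL_K t b = if a = b then 1 else 0 := by
  fin_cases a <;> fin_cases b <;> simp [WAL_K, Fin.sum_univ_four] <;> norm_num

theorem WAL_K_bd (a b : Fin 4) : |WAL_K a b| ≤ 1 / 2 := by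
  unfold WAL_K
  by_cases h : a = b
  · rw [if_pos h]
    norm_num
  · rw [if_neg h]
    norm_num

theorem p_WAL : Stmt_WAL := by
  intro j
  induction j with
  | zero =>
    haveI : Subsingleton (Fin (2 ^ 0 * 2 ^ 0)) := by
      show Subsingleton (Fin 1)
      infer_instance
    refine ⟨fun _ _ => 1, ⟨fun i l => ?_, fun i l => ?_⟩⟩
    · rw [if_pos (Subsingleton.elim i l)]
      simp
    · simp
  | succ j ih =>
    obtain ⟨W, hW⟩ := ih
    have hc : 2 ^ (j + 1) * 2 ^ (j + 1) = 4 * (2 ^ j * 2 ^ j) := by ring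
    let e : Fin (2 ^ (j + 1) * 2 ^ (j + 1)) ≃ Fin 4 × Fin (2 ^ j * 2 ^ j) :=
      (finCongr hc).trans finProdFinEquiv.symm
    refine ⟨fun x y => WAL_K (e x).1 (e y).1 * W (e x).2 (e y).2, ⟨fun x y => ?_, fun x y => ?_⟩⟩
    · have h1 : ∑ t, WAL_K (e x).1 (e t).1 * W (e x).2 (e t).2 *
          (WAL_K (e t).1 (e y).1 * W (e t).2 (e y).2) =
          ∑ q : Fin 4 × Fin (2 ^ j * 2 ^ j), WAL_K (e x).1 q.1 * W (e x).2 q.2 *
            (WAL_K q.1 (e y).1 * W q.2 (e y).2) :=
        Equiv.sum_comp e fun q : Fin 4 × Fin (2 ^ j * 2 ^ j) =>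
          WAL_K (e x).1 q.1 * W (e x).2 q.2 * (WAL_K q.1 (e y).1 * W q.2 (e y).2)
      have h2 : ∑ q : Fin 4 × Fin (2 ^ j * 2 ^ j), WAL_K (e x).1 q.1 * W (e x).2 q.2 *
            (WAL_K q.1 (e y).1 * W q.2 (e y).2) =
          (∑ a, WAL_K (e x).1 a * WAL_K a (e y).1) *
            ∑ b, W (e x).2 b * W b (e y).2 := by
        rw [Fintype.sum_prod_type, Finset.sum_mul_sum]
        refine Finset.sum_congr rfl fun a _ => Finset.sum_congr rfl fun b _ => ?_
        ring
      rw [h1, h2, WAL_K_sq, hW.sq]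
      by_cases hxy : x = y
      · rw [if_pos hxy, hxy, if_pos rfl, if_pos rfl, mul_one]
      · rw [if_neg hxy]
        have h3 : (e x).1 ≠ (e y).1 ∨ (e x).2 ≠ (e y).2 := by
          by_contra hcon
          rw [not_or, not_not, not_not] at hcon
          exact hxy (e.injective (Prod.ext hcon.1 hcon.2))
        rcases h3 with h3 | h3
        · rw [if_neg h3, zero_mul]
        · rw [if_neg h3, mul_zero]
    · rw [abs_mul]
      have h4 := mul_le_mul (WAL_K_bd (e x).1 (e y).1) (hW.bd (e x).2 (e y).2) (abs_nonneg _)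
        (by norm_num)
      refine h4.trans (le_of_eq ?_)
      push_cast
      rw [pow_succ]
      field_simp

end Pool.Agent.MP3e8c7as
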