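import Pool.Agent.Work.MP_3e8c7a_s.Final
import Pool.Agent.Work.MP_3e8c7a_s.B_WAL
import Pool.Agent.Work.MP_3e8c7a_s.B_FAC
import Pool.Agent.Work.MP_3e8c7a_s.B_GAP
import Pool.Agent.Work.MP_3e8c7a_s.B_TRI
import Pool.Agent.Work.MP_3e8c7a_s.B_GRD
import Pool.Agent.Work.MP_3e8c7a_s.B_CMP
import Pool.Agent.Work.MP_3e8c7a_s.B_KIL
import Pool.Agent.Work.MP_3e8c7a_s.B_BIO
import Pool.Agent.Work.MP_3e8c7a_s.B_NDJ
import Pool.Agent.Work.MP_3e8c7a_s.B_JAM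
import Pool.Agent.Work.MP_3e8c7a_s.B_PSU
import Pool.Agent.Work.MP_3e8c7a_s.B_LAM
import Pool.Agent.Work.MP_3e8c7a_s.B_SYP
import Pool.Agent.Work.MP_3e8c7a_s.B_SYS
import Pool.Agent.Work.MP_3e8c7a_s.B_VAN
import Pool.Agent.Work.MP_3e8c7a_s.B_EXC
import Pool.Agent.Work.MP_3e8c7a_s.B_LAA
import Pool.Agent.Work.MP_3e8c7a_s.B_RIG

/-!
# MP_3e8c7a_an, THEOREM R*: composition of the blocks
-/

namespace Pool.Agent.MP3e8c7as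

open MP3e8c7a

theorem rig : Stmt_RIG :=
  p_RIG p_WAL p_LAM (p_SYP p_CMP p_KIL p_PSU) (p_SYS p_CMP p_KIL p_JAM) (p_VAN p_CMP p_KIL p_NDJ)
    (p_LAA (p_GAP p_FAC) p_TRI p_GRD (p_EXC (p_BIO p_TRI p_GRD p_KIL)))

/-- One `k`-dimensional section near a cube, `k = ⌈α n⌉`. -/
theorem cubeSection_rigidity (α b M : ℝ) (hα : 0 < α) (hα1 : α < 1) (hM : 1 ≤ M) :
    ∃ C : ℝ, 1 ≤ C ∧ ∀ n : ℕ, 0 < n → ∀ K L : Set (Fin n → ℝ), IsBody K → IsBody L →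
      SectionsClose ⌈α * n⌉₊ b K L →
      (HasCubeSection M ⌈α * n⌉₊ K ∨ HasCubeSection M ⌈α * n⌉₊ L) →
      GeomClose C K L ∧ dBM K L ≤ ENNReal.ofReal C :=
  body_level rig α b M hα hα1 hM

end Pool.Agent.MP3e8c7as
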