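import Pool.Agent.Work.MP_3e8c7a_s.Interface

/-!
# Block JAM: James' blocking
-/

set_option autoImplicit false

namespace Pool.Agent.MP3e8c7as

open Module MP3e8c7a

/-- The `ℓ_1` norm of the combination. -/
noncomputable def JAM_nm {k N : ℕ} (y : Fin N → Fin k → ℝ) (c : Fin N → ℝ) : ℝ :=
  ∑ j, |∑ i, c i * y i j|

/-- The interval `[a, a + L)` is `τ`-low. -/
def JAM_Low {k N : ℕ} (y : Fin N → Fin k → ℝ) (a L : ℕ) (τ : ℝ) : Prop :=
  ∃ c : Fin N → ℝ, (∀ i, c i ≠ 0 → a ≤ (i : ℕ) ∧ (i : ℕ) < a + L) ∧ ∑ i, |c i| = 1 ∧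
    JAM_nm y c < τ

theorem JAM_abs {M N : ℕ} (c : Fin M → Fin N → ℝ)
    (dis : ∀ s s' i, s ≠ s' → c s i = 0 ∨ c s' i = 0) (d : Fin M → ℝ) (i : Fin N) :
    |∑ s, d s * c s i| = ∑ s, |d s| * |c s i| := by
  by_cases h : ∃ s, c s i ≠ 0
  · obtain ⟨s, hs⟩ := h
    have h0 : ∀ s', s' ≠ s → c s' i = 0 := fun s' hne => (dis s' s i hne).resolve_right hs
    rw [Finset.sum_eq_single s (fun s' _ hne => by rw [h0 s' hne, mul_zero])
      (fun hn => absurd (Finset.mem_univ s) hn),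
      Finset.sum_eq_single s (fun s' _ hne => by rw [h0 s' hne, abs_zero, mul_zero])
      (fun hn => absurd (Finset.mem_univ s) hn), abs_mul]
  · have h0 : ∀ s, c s i = 0 := by
      intro s
      by_contra hne
      exact h ⟨s, hne⟩
    simp only [h0, mul_zero, abs_zero, Finset.sum_const_zero]

/-- Disjoint intervals. -/
theorem JAM_dis {N : ℕ} (a L : ℕ) (M : ℕ) (c : Fin M → Fin N → ℝ)
    (hc : ∀ s : Fin M, ∀ i : Fin N, c s i ≠ 0 → a + (s : ℕ) * L ≤ (i : ℕ) ∧
      (i : ℕ) < a + (s : ℕ) * L + L) :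
    ∀ s s' i, s ≠ s' → c s i = 0 ∨ c s' i = 0 := by
  intro s s' i hne
  by_contra hcon
  rw [not_or] at hcon
  obtain ⟨h1, h2⟩ := hc s i hcon.1
  obtain ⟨h3, h4⟩ := hc s' i hcon.2
  have hne' : (s : ℕ) ≠ (s' : ℕ) := fun h => hne (Fin.ext h)
  rcases lt_or_gt_of_ne hne' with h | h
  · have h5 : ((s : ℕ) + 1) * L ≤ (s' : ℕ) * L := Nat.mul_le_mul_right L h
    have h6 : ((s : ℕ) + 1) * L = (s : ℕ) * L + L := by ring
    omega
  · have h5 : ((s' : ℕ) + 1) * L ≤ (s : ℕ) * L := Nat.mul_le_mul_right L h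
    have h6 : ((s' : ℕ) + 1) * L = (s' : ℕ) * L + L := by ring
    omega

theorem JAM_comb {k M N : ℕ} (y : Fin N → Fin k → ℝ) (c : Fin M → Fin N → ℝ) (d : Fin M → ℝ)
    (j : Fin k) :
    ∑ s, d s * ∑ i, c s i * y i j = ∑ i, (∑ s, d s * c s i) * y i j := by
  simp only [Finset.mul_sum, Finset.sum_mul]
  rw [Finset.sum_comm]
  refine Finset.sum_congr rfl fun i _ => Finset.sum_congr rfl fun s _ => ?_
  ring

theorem JAM_desc {k N D : ℕ} {Γ Λ δ : ℝ} (hδ : 0 < δ) (hΛ : 0 < Λ)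
    (y : Fin N → Fin k → ℝ) (hy : ∀ i, ∑ j, |y i j| ≤ Γ) (e : ℕ) :
    ∀ (τ : ℝ) (a : ℕ), Λ ≤ τ → a + D ^ e ≤ N → Γ < (1 + δ) ^ e * τ → ¬ JAM_Low y a (D ^ e) τ →
    ∃ (t : ℝ) (c : Fin D → Fin N → ℝ), Λ ≤ t ∧ Nrm c ∧
      (∀ s, ∑ j, |∑ i, c s i * y i j| ≤ (1 + δ) * t) ∧
      ∀ d : Fin D → ℝ, t * ∑ s, |d s| ≤ ∑ j, |∑ s, d s * ∑ i, c s i * y i j| := by
  induction e with
  | zero =>
    intro τ a _ ha hΓ hlow
    exfalso
    apply hlow
    rw [pow_zero] at ha hΓ
    have haN : a < N := by omega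
    refine ⟨Pi.single ⟨a, haN⟩ 1, ?_, ?_, ?_⟩
    · intro i hi
      have : i = ⟨a, haN⟩ := by
        by_contra hne
        exact hi (Pi.single_eq_of_ne hne _)
      rw [this, pow_zero]
      exact ⟨le_rfl, Nat.lt_succ_self a⟩
    · rw [Finset.sum_eq_single (⟨a, haN⟩ : Fin N)
        (fun i _ hne => by rw [Pi.single_eq_of_ne hne, abs_zero])
        (fun hn => absurd (Finset.mem_univ _) hn), Pi.single_eq_same, abs_one]
    · have h1 : JAM_nm y (Pi.single ⟨a, haN⟩ 1) = ∑ j, |y ⟨a, haN⟩ j| := by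
        unfold JAM_nm
        refine Finset.sum_congr rfl fun j _ => ?_
        rw [Finset.sum_eq_single (⟨a, haN⟩ : Fin N)
          (fun i _ hne => by rw [Pi.single_eq_of_ne hne, zero_mul])
          (fun hn => absurd (Finset.mem_univ _) hn), Pi.single_eq_same, one_mul]
      rw [h1]
      have := hy ⟨a, haN⟩
      linarith
  | succ e ih =>
    intro τ a hτ ha hΓ hlow
    have hτ0 : 0 < τ := lt_of_lt_of_le hΛ hτ
    have hpow : D ^ (e + 1) = D * D ^ e := by rw [pow_succ, mul_comm]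
    by_cases hall : ∀ s : Fin D, JAM_Low y (a + (s : ℕ) * D ^ e) (D ^ e) ((1 + δ) * τ)
    · choose c hc1 hc2 hc3 using hall
      have hdis := JAM_dis a (D ^ e) D c hc1
      refine ⟨τ, c, hτ, ⟨hc2, hdis⟩, fun s => (hc3 s).le, ?_⟩
      intro d
      have hS0 : 0 ≤ ∑ s, |d s| := Finset.sum_nonneg fun _ _ => abs_nonneg _
      rcases hS0.eq_or_lt with h0 | hS
      · rw [← h0, mul_zero]
        exact Finset.sum_nonneg fun _ _ => abs_nonneg _
      · by_contra hcon
        rw [not_le] at hcon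
        apply hlow
        set S : ℝ := ∑ s, |d s| with hSdef
        refine ⟨fun i => S⁻¹ * ∑ s, d s * c s i, ?_, ?_, ?_⟩
        · intro i hi
          have hex : ∃ s, c s i ≠ 0 := by
            by_contra hno
            apply hi
            have h0 : ∀ s, c s i = 0 := by
              intro s
              by_contra hne
              exact hno ⟨s, hne⟩
            simp only [h0, mul_zero, Finset.sum_const_zero]
          obtain ⟨s, hs⟩ := hex
          obtain ⟨h1, h2⟩ := hc1 s i hs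
          have h3 : ((s : ℕ) + 1) * D ^ e ≤ D * D ^ e := Nat.mul_le_mul_right _ s.2
          have h4 : ((s : ℕ) + 1) * D ^ e = (s : ℕ) * D ^ e + D ^ e := by ring
          rw [hpow]
          omega
        · have h1 : ∀ i, |S⁻¹ * ∑ s, d s * c s i| = S⁻¹ * ∑ s, |d s| * |c s i| := by
            intro i
            rw [abs_mul, abs_of_pos (inv_pos.2 hS), JAM_abs c hdis d i]
          simp only [h1]
          rw [← Finset.mul_sum, Finset.sum_comm]
          have h2 : ∀ s, ∑ i, |d s| * |c s i| = |d s| := by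
            intro s
            rw [← Finset.mul_sum, hc2 s, mul_one]
          simp only [h2]
          exact inv_mul_cancel₀ hS.ne'
        · have h1 : JAM_nm y (fun i => S⁻¹ * ∑ s, d s * c s i) =
              S⁻¹ * ∑ j, |∑ s, d s * ∑ i, c s i * y i j| := by
            unfold JAM_nm
            rw [Finset.mul_sum]
            refine Finset.sum_congr rfl fun j _ => ?_
            rw [JAM_comb y c d j, ← abs_of_pos (inv_pos.2 hS), ← abs_mul, Finset.mul_sum,
              abs_of_pos (inv_pos.2 hS)]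
            congr 1
            refine Finset.sum_congr rfl fun i _ => ?_
            ring
          rw [h1, inv_mul_lt_iff₀ hS, mul_comm]
          exact hcon
    · rw [not_forall] at hall
      obtain ⟨s, hs⟩ := hall
      refine ih ((1 + δ) * τ) (a + (s : ℕ) * D ^ e) ?_ ?_ ?_ hs
      · nlinarith
      · have h3 : ((s : ℕ) + 1) * D ^ e ≤ D * D ^ e := Nat.mul_le_mul_right _ s.2
        have h4 : ((s : ℕ) + 1) * D ^ e = (s : ℕ) * D ^ e + D ^ e := by ring
        rw [hpow] at ha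
        omega
      · rw [pow_succ, mul_assoc] at hΓ
        exact hΓ

/-- Block JAM. -/
theorem p_JAM : Stmt_JAM := by
  intro k N D h m₁ Γ Λ δ hδ hΛ _ hΓ hN y hy hyp
  by_cases hall : ∀ s : Fin m₁, JAM_Low y (0 + (s : ℕ) * D ^ h) (D ^ h) Λ
  · exfalso
    choose c hc1 hc2 hc3 using hall
    obtain ⟨s, hs⟩ := hyp c ⟨hc2, JAM_dis 0 (D ^ h) m₁ c hc1⟩
    have h1 := hc3 s
    unfold JAM_nm at h1
    exact absurd hs (not_lt.2 h1.le)
  · rw [not_forall] at hall
    obtain ⟨s, hs⟩ := hall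
    refine JAM_desc hδ hΛ y hy h Λ (0 + (s : ℕ) * D ^ h) le_rfl ?_ hΓ hs
    have h3 : ((s : ℕ) + 1) * D ^ h ≤ m₁ * D ^ h := Nat.mul_le_mul_right _ s.2
    have h4 : ((s : ℕ) + 1) * D ^ h = (s : ℕ) * D ^ h + D ^ h := by ring
    omega

end Pool.Agent.MP3e8c7as
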