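import Pool.Agent.Work.MP_3e8c7a.Glue

/-!
# MP_3e8c7a_an, THEOREM R*: one cubic section of the critical dimension forces rigidity

`V` is a finite dimensional space with norms `p`, `r`, all sections of dimension `k` of `p` and `r` are `b`-isomorphic
(`Hyp b k p r`), and ONE `k`-dimensional section of `p` is near a cube: `i : (Fin k → ℝ) →ₗ[ℝ] V` with
`p (i z) ≤ ‖z‖ ≤ M * p (i z)`. THEOREM R* (`Stmt_RIG`): there is `Λ > 0` with `p ≤ C Λ r` and `Λ r ≤ C p` on a subspace of bounded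
codimension.

RULES. Every block is one file `B_X.lean` in this folder, `import Pool.Agent.Work.MP_3e8c7a_s.Interface`,
namespace `Pool.Agent.MP3e8c7as`, with `theorem p_X (h1 : Stmt_Y) (h2 : Stmt_Z) .. : Stmt_X`, exactly the
blocks named after `uses` as hypotheses in that order (`theorem p_X : Stmt_X` if there is no `uses`); auxiliary lemmas with the
prefix `X_`. No straight double quotes. From `Pool.Agent.MP3e8c7a` (files `Base`, `Step`, `Hyper` of helper83, opened here) you have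
`Iso c p r` (there is a linear equivalence `T` with `p x ≤ r (T x) ≤ c * p x`), `Iso.of_bounds`, `Iso.symm`, `Iso.trans`, `Iso.mono`,
`Hyp b k p r`, `Hyp.inj` (for an injective linear map `u : W → V` with `finrank W = k`: `Iso b (p.comp u) (r.comp u)`), `Def p`
(definite), `exists_ext` (Hahn-Banach), `exists_proj` (copies of `ℓ_∞` are complemented), `Hyp.symm`.
All norms of `Fin m → ℝ`, `Fin m ⊕ Fin m → ℝ` are sup norms (`‖·‖`); `ℓ_1` norms are written as sums.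

Only BOUNDED dimensions `m = s * s` are lost, so factors like `2 ^ m` are harmless; only the constants
which enter FAC must not depend on `m`.
-/

set_option autoImplicit false

namespace Pool.Agent.MP3e8c7as

open Module MP3e8c7a

/-- A symmetric-type orthogonal matrix of size `s * s` with entries `± 1 / s` (Walsh). -/
structure Wal (s : ℕ) (W : Fin (s * s) → Fin (s * s) → ℝ) : Prop where
  sq : ∀ i l, ∑ t, W i t * W t l = if i = l then 1 else 0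
  bd : ∀ i l, |W i l| ≤ 1 / (s : ℝ)

/-- `W a`. -/
def ap {m : ℕ} (W : Fin m → Fin m → ℝ) (a : Fin m → ℝ) : Fin m → ℝ := fun i => ∑ t, W i t * a t

/-- Normalised (`ℓ_1` norm one) disjointly supported coefficient vectors. -/
structure Nrm {M N : ℕ} (c : Fin M → Fin N → ℝ) : Prop where
  one : ∀ s, ∑ i, |c s i| = 1
  dis : ∀ s s' i, s ≠ s' → c s i = 0 ∨ c s' i = 0

/-- The combinations `∑ t, c s t * β t`. -/
def cmp {L M N : ℕ} (c : Fin L → Fin M → ℝ) (β : Fin M → Fin N → ℝ) : Fin L → Fin N → ℝ :=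
  fun s i => ∑ t, c s t * β t i

/-- `β · z`. -/
def dt {k : ℕ} (β z : Fin k → ℝ) : ℝ := ∑ t, β t * z t

/-- `β · z` as a linear functional. -/
def dl {k : ℕ} (β : Fin k → ℝ) : (Fin k → ℝ) →ₗ[ℝ] ℝ := ∑ t, β t • LinearMap.proj t

theorem dl_apply {k : ℕ} (β z : Fin k → ℝ) : dl β z = dt β z := by
  simp [dl, dt, LinearMap.sum_apply]

/-- Every functional is of the form `dl β`. -/
theorem dl_of {k : ℕ} (f : (Fin k → ℝ) →ₗ[ℝ] ℝ) : dl (fun t => f (Pi.single t 1)) = f := by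
  refine LinearMap.pi_ext' fun t => LinearMap.ext_ring ?_
  simp [dl, Pi.single_apply]

/-- There are `M` normalised disjoint functionals on `ℝ^k` which are at most `Λ ρ`. -/
def PS (M : ℕ) {k : ℕ} (ρ : Seminorm ℝ (Fin k → ℝ)) (Λ : ℝ) : Prop :=
  ∃ β : Fin M → Fin k → ℝ, Nrm β ∧ ∀ s z, |dt (β s) z| ≤ Λ * ρ z

/-- The coefficients of the functional `β · z` in the coordinates `T z`. -/
noncomputable def co {k : ℕ} (T : (Fin k → ℝ) ≃ₗ[ℝ] (Fin k → ℝ)) (β : Fin k → ℝ) : Fin k → ℝ :=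
  fun j => dt β (T.symm (Pi.single j 1))

/-- The number of functionals of a system. -/
def D1 (s : ℕ) : ℕ := (s * s + s * s) * (2 * (s * s) + 1)

/-- A SYSTEM for the pair `(p, r)` on the range of `i`: functionals `f u` with `|f u| ≤ Λ r` such that for any `2 m` linear
conditions `κ` on the index `u` (`m = s * s`) there are `2 m` combinations (with `ℓ_1` norm at most one) killing the conditions
which, with a right inverse `X`, are bounded for `p` by the absolute constant `C`. -/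
def Sys (s : ℕ) (C Λ : ℝ) {k : ℕ} {V : Type} [AddCommGroup V] [Module ℝ V] (i : (Fin k → ℝ) →ₗ[ℝ] V)
    (p r : Seminorm ℝ V) : Prop :=
  ∃ (D : ℕ) (f : Fin D → Fin k → ℝ), (∀ u z, |dt (f u) z| ≤ Λ * r (i z)) ∧
    ∀ κ : Fin D → (Fin (s * s) ⊕ Fin (s * s) → ℝ),
      ∃ (c : Fin (s * s) ⊕ Fin (s * s) → Fin D → ℝ)
        (X : (Fin (s * s) ⊕ Fin (s * s) → ℝ) →ₗ[ℝ] (Fin k → ℝ)),
        (∀ j, ∑ u, |c j u| ≤ 1) ∧ (∀ j, ∑ u, c j u • κ u = 0) ∧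
        (∀ a j, ∑ u, c j u * dt (f u) (X a) = a j) ∧ (∀ a, p (i (X a)) ≤ C * ‖a‖) ∧
        ∀ j z, |∑ u, c j u * dt (f u) z| ≤ C * p (i z)

/-- The constant of BIO. -/
def c1 (m : ℕ) : ℝ := (m * (m + 1) : ℝ) * 2 ^ (m * (m + 1))

/-- The constant of EXC. -/
def c2 (m : ℕ) : ℝ := 1 + 2 * m * c1 m

/-- The constant of LAA. -/
def cA (s : ℕ) : ℝ := 4 * (s * s : ℝ) ^ 2 * 2 ^ (s * s) * c2 (s * s)

/-! ## Walsh matrices and the gap lemma -/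

/-- **WAL** (80). Sylvester: for `s = 1` the matrix `1`. From `W` for `s` build `W'` for `2 s`: index `Fin (2s * 2s) ≃ (Fin 2 × Fin 2) × Fin (s * s)`
(any equivalence, `finProdFinEquiv`, cardinalities), `W' ((u, v), i) ((u', v'), l) = (1/2) (-1) ^ (u u' + v v') W i l`. Or directly: index set
`Fin (2 * j) → Bool` of cardinality `4 ^ j = s * s`, `W x y = (1 / 2 ^ j) ∏ (if x i ∧ y i then -1 else 1)`. -/
def Stmt_WAL : Prop := ∀ j : ℕ, ∃ W : Fin (2 ^ j * 2 ^ j) → Fin (2 ^ j * 2 ^ j) → ℝ, Wal (2 ^ j) W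

/-- **FAC** (180). Let `T` be the equivalence of `Iso`. For `i < k` the functional `a ↦ (T (A a)) i` is at most `C C₁ max ‖a‖ ‖W a‖`; by `exists_ext` for the injective
map `a ↦ (a, W a)` into `(Fin m → ℝ) × (Fin m → ℝ)` (sup norm, `Prod.norm_def`) it extends to `g i` with `|g i y| ≤ C C₁ ‖y‖`. Put `L y = B (T.symm (g · y))`: `L (a, W a) = a`,
`‖L y‖ ≤ C' ‖y‖`, `‖W (L y)‖ ≤ C' ‖y‖`, `C' = C C₁ C₂`. Let `K i l = L (0, e l) i`, `M i l = (W (L (e l, 0))) i`. Row sums (sign vectors): `∑ l, |K i l| ≤ C'`,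
`∑ l, |M i l| ≤ C'`. Now `1 = L (e l, W e l) l = L (e l, 0) l + ∑ t, W t l * K l t` and `L (e l, 0) l = ∑ t, W l t * M t l` (`W W = 1`). Sum over `l` (`m = s * s` terms), entries
`≤ 1 / s`: `m ≤ 2 m C' / s`. -/
def Stmt_FAC : Prop := ∀ (s k : ℕ) (W : Fin (s * s) → Fin (s * s) → ℝ), Wal s W → 1 ≤ s →
  ∀ (E : Type) [AddCommGroup E] [Module ℝ E] (N : Seminorm ℝ E) (C C₁ C₂ : ℝ), 0 ≤ C → 0 ≤ C₁ → 0 ≤ C₂ →
  Iso C N (normSeminorm ℝ (Fin k → ℝ)) →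
  ∀ (A : (Fin (s * s) → ℝ) →ₗ[ℝ] E) (B : E →ₗ[ℝ] (Fin (s * s) → ℝ)), (∀ a, B (A a) = a) →
  (∀ a, N (A a) ≤ C₁ * max ‖a‖ ‖ap W a‖) → (∀ x, ‖B x‖ ≤ C₂ * N x) → (∀ x, ‖ap W (B x)‖ ≤ C₂ * N x) →
  (s : ℝ) ≤ 2 * (C * C₁ * C₂)

/-- **GAP** (180), uses FAC. THE GAP LEMMA. Write `U z = (U' z, U'' z)` (`inl`, `inr`), `ρ z = U'' z - W (U' z)`; `‖W a‖ ≤ s ‖a‖`, so `‖ρ z‖ ≤ (1 + s) Λ r (i z) ≤ 2 s Λ r (i z)`. Let `J z = i z + Φ (ρ z)`,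
`r (Φ (ρ z)) ≤ ‖ρ z‖ / (4 s² Λ) ≤ r (i z) / 2`. So `Iso 3 (r.comp J) (r.comp i)` (`Iso.of_bounds`, identity) and `J` is injective (`Def r`, `i` injective). Chain:
`Iso b (p.comp J) (r.comp J)` (`Hyp.inj`), `Iso 3 (r.comp J) (r.comp i)`, `Iso b (r.comp i) (p.comp i)`, `Iso C (p.comp i) sup`: `Iso (3 b² C) (p.comp J) sup`. FAC on `A` with
`N = p.comp J`, `A a = X (a, W a)` (`ρ = 0` there, so `J = i`; `C₁ = C`), `B z = U' z`. As `φ (J z) = z + φ (Φ (ρ z))` and `U φ Φ = 0`: `U z = U (φ (J z))`, so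
`‖U z‖ ≤ C p (i (φ (J z))) ≤ C² p (J z)`; `W (B z) = U'' z - ρ z` and `‖ρ z‖ ≤ p (Φ ρ z - i φ Φ ρ z) = p (J z - i φ J z) ≤ (1 + C) p (J z)`. `C₂ = 1 + C + C²`. -/
def Stmt_GAP : Prop := ∀ (b C : ℝ) (s k : ℕ) (W : Fin (s * s) → Fin (s * s) → ℝ), 1 ≤ b → 1 ≤ C → 1 ≤ s → Wal s W →
  ∀ (V A : Type) [AddCommGroup V] [Module ℝ V] [FiniteDimensional ℝ V] [AddCommGroup A] [Module ℝ A]
  [FiniteDimensional ℝ A] (p r : Seminorm ℝ V), Def r → Hyp b k p r →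
  ∀ (i : A →ₗ[ℝ] V) (φ : V →ₗ[ℝ] A), (∀ a, φ (i a) = a) → finrank ℝ A = k →
  Iso C (p.comp i) (normSeminorm ℝ (Fin k → ℝ)) → (∀ x, p (i (φ x)) ≤ C * p x) →
  ∀ (U : A →ₗ[ℝ] (Fin (s * s) ⊕ Fin (s * s) → ℝ)) (X : (Fin (s * s) ⊕ Fin (s * s) → ℝ) →ₗ[ℝ] A) (Λ : ℝ), 0 < Λ →
  (∀ a, U (X a) = a) → (∀ a, p (i (X a)) ≤ C * ‖a‖) → (∀ z, ‖U z‖ ≤ C * p (i z)) → (∀ z, ‖U z‖ ≤ Λ * r (i z)) →
  ∀ Φ : (Fin (s * s) → ℝ) →ₗ[ℝ] V, (∀ a, U (φ (Φ a)) = 0) → (∀ a, ‖a‖ ≤ p (Φ a - i (φ (Φ a)))) →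
  (∀ a, 4 * ((s : ℝ) * s) * Λ * r (Φ a) ≤ ‖a‖) → (s : ℝ) ≤ 6 * b ^ 2 * C ^ 2 * (1 + C + C ^ 2)

/-! ## Elementary tools -/

/-- **TRI** (80). Triangular matrices. `|a i| ≤ 2 ^ i t`, `t = ‖R a‖`: `a i = (R a) i - ∑_{l < i} R i l a l`. The map is injective, so it is bijective
(`LinearMap.injective_iff_surjective`), `S` the inverse. -/
def Stmt_TRI : Prop := ∀ (m : ℕ) (R : Fin m → Fin m → ℝ), (∀ i, R i i = 1) → (∀ i l, i < l → R i l = 0) →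
  (∀ i l, |R i l| ≤ 1) → (∀ a : Fin m → ℝ, ‖a‖ ≤ 2 ^ m * ‖fun i => ∑ l, R i l * a l‖) ∧
  ∃ S : (Fin m → ℝ) →ₗ[ℝ] (Fin m → ℝ), (∀ a i, ∑ l, R i l * S a l = a i) ∧ ∀ a, ‖S a‖ ≤ 2 ^ m * ‖a‖

/-- **GRD** (80). Greedy choice. Induction on `l ≤ m`: the first alternative or `g : Fin l → V` (`Fin.snoc`). The subspace `Y = Y₀ ⊓ ⨅ i, ker (φ (g i))`, `i < l`, has
`finrank Y₀ ≤ finrank Y + l` (rank-nullity for `Y₀ → (Fin l → ℝ)`). -/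
def Stmt_GRD : Prop := ∀ (V : Type) [AddCommGroup V] [Module ℝ V] [FiniteDimensional ℝ V] (m : ℕ) (Y₀ : Submodule ℝ V)
  (Bad : V → Prop) (φ : V → (V →ₗ[ℝ] ℝ)), 1 ≤ m →
  (∃ Y ≤ Y₀, finrank ℝ Y₀ + 1 ≤ finrank ℝ Y + m ∧ ∀ y ∈ Y, ¬ Bad y) ∨
  ∃ g : Fin m → V, (∀ i, g i ∈ Y₀ ∧ Bad (g i)) ∧ ∀ i l, i < l → φ (g i) (g l) = 0

/-- **CMP** (60). Combinations of disjoint normalised vectors. For every `i` at most one `t` has `β t i ≠ 0`, so `|∑ t, c s t β t i| = ∑ t, |c s t| |β t i|`. -/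
def Stmt_CMP : Prop := ∀ (L M N : ℕ) (c : Fin L → Fin M → ℝ) (β : Fin M → Fin N → ℝ), Nrm c → Nrm β → Nrm (cmp c β)

/-- **KIL** (120). THE BLOCK TRICK. One block (`m > finrank X` vectors `f t`): they are dependent, `∑ b t • f t = 0`, normalise `∑ |b t| = 1`. For `D` blocks use the indices `u * m + v`, `v < m`. -/
def Stmt_KIL : Prop := ∀ (X : Type) [AddCommGroup X] [Module ℝ X] [FiniteDimensional ℝ X] (D m M : ℕ) (f : Fin M → X),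
  finrank ℝ X < m → D * m ≤ M → ∃ c : Fin D → Fin M → ℝ, Nrm c ∧ ∀ s, ∑ t, c s t • f t = 0

/-- **BIO** (170), uses TRI GRD KIL. A BIORTHOGONAL SYSTEM in `Z`, orthogonal to `G`. `m = 0` is trivial. Let `N = m (m + 1)`. GRD with `Y₀ = Z`, `Bad v : v ≠ 0` and `φ v` a norming functional of `v` (`|φ v x| ≤ p x`,
`φ v v = p v`, `exists_ext` on the span of `v`) gives `y : Fin N → V` in `Z` (the first alternative contradicts `N ≤ finrank Z`); normalise `p (y l) = 1`, `ψ l = φ (y l)`, so `ψ i (y l) = 0` for `i < l`, `ψ i (y i) = 1`. TRI for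
`R i l = ψ i (y l)`: `S`. KIL for `X = Module.Dual ℝ G`, `f t = ψ t` restricted to `G` (`D = m`, blocks of size `m + 1`): `c : Fin m → Fin N → ℝ`, `Nrm c`, `∑ t, c i t • ψ t = 0` on `G`. Put
`χ i = ∑ t, c i t • ψ t`, `ω l = ∑ t, (S (sign ∘ c l)) t • y t`. `χ i (ω l) = ∑ t, c i t * sign (c l t) = δ`, `p (ω l) ≤ N 2 ^ N`. -/
def Stmt_BIO : Prop := ∀ (m : ℕ) (V : Type) [AddCommGroup V] [Module ℝ V] [FiniteDimensional ℝ V] (p : Seminorm ℝ V), Def p →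
  ∀ G Z : Submodule ℝ V, finrank ℝ G ≤ m → m * (m + 1) ≤ finrank ℝ Z →
  ∃ (ω : Fin m → V) (χ : Fin m → (V →ₗ[ℝ] ℝ)), (∀ i, ω i ∈ Z ∧ p (ω i) ≤ c1 m) ∧ (∀ i x, |χ i x| ≤ p x) ∧
    (∀ i, ∀ g ∈ G, χ i g = 0) ∧ ∀ i l, χ i (ω l) = if i = l then 1 else 0

/-- **NDJ** (180). NEARLY DISJOINT VECTORS in `ℓ_1^k`. For `i ≠ i'`: `∑_j min (|w i j|) (|w i' j|) ≤ 2 δ t`, because
`|x + y| + |x - y| = 2 max |x| |y| = 2 |x| + 2 |y| - 2 min |x| |y|`, and the sums of `|w i ± w i'|` are `≥ 2 t`. `∑_j |w i j| ≥ t` (`d = e i`). Let `S i = {j | ∀ i' ≠ i, |w i' j| < |w i j|}` (disjoint sets),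
`x i j = sign (w i j)` for `j ∈ S i`, `0` otherwise. `∑_{j ∉ S i} |w i j| ≤ ∑_{i' ≠ i} ∑_j min ≤ 2 N δ t`. The matrix `M i i' = (1 / t) ∑ j, w i j * x i' j` satisfies
`|M i i - 1| ≤ 2 N δ + δ`, `∑_{i' ≠ i} |M i i'| ≤ (1 / t) ∑_{j ∉ S i} |w i j| ≤ 2 N δ`, so `‖M a - a‖ ≤ ‖a‖ / 2`, `M` is bijective with `‖M⁻¹ a‖ ≤ 2 ‖a‖`. `X a = ∑ i', (M⁻¹ a) i' • x i'`. -/
def Stmt_NDJ : Prop := ∀ (k N : ℕ) (t δ : ℝ), 0 < t → 0 ≤ δ → 1 ≤ N → 10 * N * δ ≤ 1 → ∀ w : Fin N → Fin k → ℝ,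
  (∀ i, ∑ j, |w i j| ≤ (1 + δ) * t) → (∀ d : Fin N → ℝ, t * ∑ i, |d i| ≤ ∑ j, |∑ i, d i * w i j|) →
  ∃ X : (Fin N → ℝ) →ₗ[ℝ] (Fin k → ℝ), (∀ a i, ∑ j, w i j * X a j = t * a i) ∧ ∀ a, ‖X a‖ ≤ 2 * ‖a‖

/-- **JAM** (200). JAMES' BLOCKING. Call a set `B ⊆ Fin N` `τ`-low if there is `c` supported in `B` with `∑ |c i| = 1` and `∑ j, |∑ i, c i * y i j| < τ`. Let `t_j = (1 + δ) ^ j * Λ`. Among `m₁` disjoint intervals of length `D ^ h` one is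
not `Λ`-low (hypothesis on `c : Fin m₁ → ..`). Descend: at level `j` there is an interval `B` of length `D ^ (h - j)`, not `t_j`-low. Split `B` in `D` intervals of length `D ^ (h - j - 1)`. If one of them is not `t_(j+1)`-low go on
with it. If all are `t_(j+1)`-low we stop: `t = t_j`, `c s` the coefficients of the `s`-th interval; for `d` with `∑ |d s| = 1` the combination is supported in `B` and has `∑ |d s c s i| = 1`, so its norm is `≥ t_j`. At level `h` the interval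
is `{i}` and the norm of `y i` is `≤ Γ < (1 + δ) ^ h Λ`, so it is `t_h`-low, a contradiction. -/
def Stmt_JAM : Prop := ∀ (k N D h m₁ : ℕ) (Γ Λ δ : ℝ), 0 < δ → 0 < Λ → 1 ≤ D → Γ < (1 + δ) ^ h * Λ → m₁ * D ^ h ≤ N →
  ∀ y : Fin N → Fin k → ℝ, (∀ i, ∑ j, |y i j| ≤ Γ) →
  (∀ c : Fin m₁ → Fin N → ℝ, Nrm c → ∃ s, Λ < ∑ j, |∑ i, c s i * y i j|) →
  ∃ (t : ℝ) (c : Fin D → Fin N → ℝ), Λ ≤ t ∧ Nrm c ∧ (∀ s, ∑ j, |∑ i, c s i * y i j| ≤ (1 + δ) * t) ∧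
    ∀ d : Fin D → ℝ, t * ∑ s, |d s| ≤ ∑ j, |∑ s, d s * ∑ i, c s i * y i j|

/-- **PSU** (80). From disjoint functionals to a pair `U`, `X`. `U z κ = dt (β (finSumFinEquiv κ)) z`, `(X a) t = ∑ κ, a κ * sign (β (finSumFinEquiv κ) t)` (at most one term is not zero), `sign` with values `0, 1, -1` in `ℝ`. -/
def Stmt_PSU : Prop := ∀ (m k : ℕ) (β : Fin (m + m) → Fin k → ℝ), Nrm β →
  ∃ (U : (Fin k → ℝ) →ₗ[ℝ] (Fin m ⊕ Fin m → ℝ)) (X : (Fin m ⊕ Fin m → ℝ) →ₗ[ℝ] (Fin k → ℝ)),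
    (∀ a, U (X a) = a) ∧ (∀ a, ‖X a‖ ≤ ‖a‖) ∧ (∀ z, ‖U z‖ ≤ ‖z‖) ∧ ∀ z κ, U z κ = dt (β (finSumFinEquiv κ)) z

/-! ## The scale, the systems -/

/-- **LAM** (100). The scale. Norm equivalence: `‖z‖ ≤ c * ρ z` for some `c > 0` (finite dimension, `Def ρ`; copy `riesz_half` of `Hyper.lean` or compactness of the unit sphere), so the first `m₁` coordinates show `PS m₁ ρ c`.
And `PS m₁ ρ Λ` implies `1 ≤ Λ R`, `R = ∑ t, ρ (Pi.single t 1)` (apply `β 0` to its sign vector). So some `n` has `PS m₁ ρ (2 c / 2 ^ n)` and not `PS m₁ ρ (c / 2 ^ n)` (`Nat.find`). -/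
def Stmt_LAM : Prop := ∀ (k m₁ : ℕ) (ρ : Seminorm ℝ (Fin k → ℝ)), Def ρ → 1 ≤ m₁ → m₁ ≤ k →
  ∃ Λ : ℝ, 0 < Λ ∧ PS m₁ ρ (2 * Λ) ∧ ¬ PS m₁ ρ Λ

/-- **SYP** (110), uses CMP KIL PSU. The system of disjoint functionals. `D = D1 s`, `f = β`. For `κ` use KIL (`X = (Fin m ⊕ Fin m → ℝ)` of dimension `2 m`, `m = s * s`, `D = m + m`, blocks of size `2 m + 1`): `c₀ : Fin (m + m) → Fin D → ℝ`,
`cmp c₀ β` is `Nrm` (CMP); PSU gives `U`, `X`; `c j = c₀ (finSumFinEquiv j)`, `dt (cmp c₀ β a) z = ∑ u, c₀ a u * dt (β u) z`. -/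
def Stmt_SYP : Prop := ∀ (s k : ℕ) (M Λ : ℝ) (V : Type) [AddCommGroup V] [Module ℝ V] (i : (Fin k → ℝ) →ₗ[ℝ] V)
  (p r : Seminorm ℝ V), 1 ≤ s → 1 ≤ M → (∀ z, p (i z) ≤ ‖z‖ ∧ ‖z‖ ≤ M * p (i z)) → PS (D1 s) (r.comp i) Λ → Sys s M Λ i p r

/-- **SYS** (200), uses CMP KIL JAM. `m = s * s`, `δ = 1 / (20 m)`. (1) For `t < k` the coordinate `z ↦ z t` is at most `C₀ Λ ρ` on `Y`; extend it (`exists_ext`) from `Y` to `γ t`, `|γ t z| ≤ C₀ Λ ρ z` on `Fin k → ℝ`. `γ t - (coordinate t)` vanishes on `Y`: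
it lies in the space `X` of functionals vanishing on `Y` (`Submodule.dualAnnihilator`, or `Module.Dual ℝ ((Fin k → ℝ) ⧸ Y)`), of dimension `k - finrank Y < m`. KIL (`D = N₁ = k / m`) gives `β⁰ : Fin N₁ → Fin k → ℝ`, `Nrm`, with `dt (β⁰ s) z = ∑ β⁰ s t γ t z`,
so `|dt (β⁰ s) z| ≤ C₀ Λ ρ z`. (2) `y i = co T (β⁰ i)`: `dt β z = ∑ j, co T β j * (T z) j` (linearity, `T z = ∑ (T z) j e_j`), so `∑ j, |y i j| ≤ C₀ Λ` (apply to `z = T.symm (sign vector)`, `ρ z ≤ ‖T z‖ ≤ 1`). (3) If `c : Fin (D1 s) → Fin N₁ → ℝ` is `Nrm` then `cmp c β⁰` is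
`Nrm` (CMP) and by `¬ PS` some `s`, `z` have `Λ ρ z < |dt (cmp c β⁰ s) z| ≤ (∑ j, |co ..|) ‖T z‖ ≤ (∑ j, |co ..|) b ρ z`, so `∑ j, |∑ i, c s i * y i j| > Λ / b`. (4) JAM with `Λ / b`, `Γ = C₀ Λ`, `m₁ = D = D1 s`, `h` such that `b C₀ < (1 + δ) ^ h`;
`K₀ = m (D1 s * D1 s ^ h + 1)`. The answer is `cmp c β⁰`. -/
def Stmt_SYS : Prop := ∀ (b C₀ : ℝ) (s : ℕ), 1 ≤ b → 0 < C₀ → 1 ≤ s → ∃ K₀ : ℕ, ∀ (k : ℕ) (ρ : Seminorm ℝ (Fin k → ℝ)), K₀ ≤ k →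
  ∀ T : (Fin k → ℝ) ≃ₗ[ℝ] (Fin k → ℝ), (∀ z, ρ z ≤ ‖T z‖ ∧ ‖T z‖ ≤ b * ρ z) → ∀ Λ : ℝ, 0 < Λ → ¬ PS (D1 s) ρ Λ →
  ∀ Y : Submodule ℝ (Fin k → ℝ), k + 1 ≤ finrank ℝ Y + s * s → (∀ z ∈ Y, ‖z‖ ≤ C₀ * Λ * ρ z) →
  ∃ (t : ℝ) (β : Fin (D1 s) → Fin k → ℝ), Λ / b ≤ t ∧ Nrm β ∧ (∀ u, ∑ j, |co T (β u) j| ≤ (1 + 1 / (20 * (s * s : ℝ))) * t) ∧
    ∀ d : Fin (D1 s) → ℝ, t * ∑ u, |d u| ≤ ∑ j, |∑ u, d u * co T (β u) j|

/-- **VAN** (160), uses CMP KIL NDJ. The system of nearly disjoint functionals. `m = s * s`, `D = D1 s`, `f u = (1 / t) • β u`: `|dt (β u) z| ≤ ‖z‖ ≤ M p (i z)`. For `κ` use KIL (`X = (Fin m ⊕ Fin m → ℝ)`, `D = m + m`, blocks of size `2 m + 1`):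
`c₀ : Fin (m + m) → Fin (D1 s) → ℝ`. `w a = co T (cmp c₀ β a) = ∑ u, c₀ a u * co T (β u)` satisfies the hypotheses of NDJ with `N = m + m`, the same `t` and `δ = 1 / (20 m)` (`∑ a, d a w a = ∑ u, (∑ a, d a c₀ a u) co T (β u)` and
`∑ u, |∑ a, d a c₀ a u| = ∑ a, |d a|`). `c j = c₀ (finSumFinEquiv j)`, `X a = T.symm (X_NDJ (a ∘ finSumFinEquiv.symm))`, and `∑ u, c j u * dt (f u) z = (1 / t) ∑ l, w j l * (T z) l`, which is at most `2 ‖T z‖`. -/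
def Stmt_VAN : Prop := ∀ (s k : ℕ) (b M t : ℝ) (V : Type) [AddCommGroup V] [Module ℝ V] (i : (Fin k → ℝ) →ₗ[ℝ] V)
  (p r : Seminorm ℝ V), 1 ≤ s → 1 ≤ b → 1 ≤ M → 0 < t → (∀ z, ‖z‖ ≤ M * p (i z)) →
  ∀ T : (Fin k → ℝ) ≃ₗ[ℝ] (Fin k → ℝ), (∀ z, r (i z) ≤ ‖T z‖ ∧ ‖T z‖ ≤ b * r (i z)) → ∀ β : Fin (D1 s) → Fin k → ℝ, Nrm β →
  (∀ u, ∑ j, |co T (β u) j| ≤ (1 + 1 / (20 * (s * s : ℝ))) * t) →
  (∀ d : Fin (D1 s) → ℝ, t * ∑ u, |d u| ≤ ∑ j, |∑ u, d u * co T (β u) j|) → Sys s (2 * b) (M / t) i r p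

/-! ## The tilt and the one-sided estimate -/

/-- **EXC** (260), uses BIO. THE TILT. `m = s * s`, `θ l z = ψ l (i z)` (`|θ l z| ≤ p (i z)`). BIO for `G = span {g l - i (φ (g l))}` and `Z = ker φ ⊓ ⨅ l, ker (ψ l)` (dimension `≥ finrank V - k - m ≥ m (m + 1)`): `ω`, `χ`. Let `ε = 1 / (2 m c1 m)`,
`Ψ z = - ∑ l, θ l z • ε • ω l`, `i' = i + Ψ`. `p (Ψ z) ≤ m p (i z) ε c1 m = p (i z) / 2`, so `p (i z) / 2 ≤ p (i' z) ≤ (3 / 2) p (i z)` and `Iso (3 C) (p.comp i') sup` (`Iso.of_bounds` with `2` and `3 / 2`, `Iso.trans`). `φ (Ψ z) = 0`.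
LAST CLAIM. For `y = ∑ a l • g l`: `y - i' (φ y) = (y - i (φ y)) + ∑ l, θ l (φ y) • ε • ω l`, so `(ψ j + ε⁻¹ • χ j) (y - i' (φ y)) = ψ j (y - i φ y) + θ j (φ y) = ψ j y`, and `|ψ j + ε⁻¹ χ j| ≤ (1 + 2 m c1 m) p = c2 m p`.
SYSTEM. Let `D`, `f` be as in `Sys`, `A₀ = ⨅ l, ker (θ l)`. On `A₀` we have `i' = i`, so `exists_ext` (inclusion of `A₀`, seminorm `r.comp i'`, constant `Λ`) gives functionals `γ u` of `Fin k → ℝ` with `γ u = f u` on `A₀`, `|γ u z| ≤ Λ r (i' z)`; `dl (f u) - γ u` vanishes on `A₀`,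
hence is `∑ l, τ u l • θ l` (`mem_span_of_iInf_ker_le_ker`). `Sys` for `κ u = Sum.elim (τ u) (fun l => dt (f u) (φ (g l)))` gives `c`, `X`, and `U z j = ∑ u, c j u * dt (f u) z = ∑ u, c j u * γ u z`, so `|U z j| ≤ Λ r (i' z)`; `U (φ (g l)) = 0`. -/
def Stmt_EXC : Prop := ∀ (s k : ℕ) (C Λ : ℝ) (V : Type) [AddCommGroup V] [Module ℝ V] [FiniteDimensional ℝ V]
  (p r : Seminorm ℝ V) (i : (Fin k → ℝ) →ₗ[ℝ] V) (φ : V →ₗ[ℝ] (Fin k → ℝ)), 1 ≤ s → 1 ≤ C → 0 < Λ → Def p →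
  (∀ a, φ (i a) = a) → Iso C (p.comp i) (normSeminorm ℝ (Fin k → ℝ)) → (∀ x, p (i (φ x)) ≤ C * p x) → Sys s C Λ i p r →
  k + s * s * (s * s + 2) ≤ finrank ℝ V → ∀ (g : Fin (s * s) → V) (ψ : Fin (s * s) → (V →ₗ[ℝ] ℝ)), (∀ l x, |ψ l x| ≤ p x) →
  ∃ (i' : (Fin k → ℝ) →ₗ[ℝ] V) (U : (Fin k → ℝ) →ₗ[ℝ] (Fin (s * s) ⊕ Fin (s * s) → ℝ))
    (X : (Fin (s * s) ⊕ Fin (s * s) → ℝ) →ₗ[ℝ] (Fin k → ℝ)), (∀ a, φ (i' a) = a) ∧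
    Iso (3 * C) (p.comp i') (normSeminorm ℝ (Fin k → ℝ)) ∧ (∀ x, p (i' (φ x)) ≤ 3 * C * p x) ∧
    (∀ a, U (X a) = a) ∧ (∀ a, p (i' (X a)) ≤ 3 * C * ‖a‖) ∧ (∀ z, ‖U z‖ ≤ 3 * C * p (i' z)) ∧ (∀ z, ‖U z‖ ≤ Λ * r (i' z)) ∧
    (∀ l, U (φ (g l)) = 0) ∧ ∀ (a : Fin (s * s) → ℝ) (j : Fin (s * s)),
      |ψ j (∑ l, a l • g l)| ≤ c2 (s * s) * p ((∑ l, a l • g l) - i' (φ (∑ l, a l • g l)))

/-- **LAA** (170), uses GAP TRI GRD EXC. THE ONE-SIDED ESTIMATE. `m = s * s`. Otherwise GRD (`Y₀ = ⊤`) for `Bad g : cA s * Λ * r g < p g` and a norming functional `ψ_g` of `g` for `p` (`|ψ_g x| ≤ p x`, `ψ_g g = p g`, `exists_ext`) gives `g : Fin m → V`; scale them to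
`p (g l) = 1` (`Bad` and the zeros are kept, `ψ l` the functional of `g l`), so `ψ j (g l) = 0` for `j < l`, `ψ j (g j) = 1`, `|ψ j (g l)| ≤ 1`, `r (g l) ≤ 1 / (cA s * Λ)`. EXC. `Φ a = (2 ^ m * c2 m) • ∑ l, a l • g l`. By TRI (`R j l = ψ j (g l)`) `‖a‖ ≤ 2 ^ m * max_j |ψ j (∑ a l • g l)| ≤ p (Φ a - i' φ Φ a)`.
`4 m Λ r (Φ a) ≤ 4 m Λ 2 ^ m c2 m m ‖a‖ / (cA s Λ) = ‖a‖`. GAP for `i'` with the constant `3 C`: `s ≤ 6 b² (3 C)² (1 + 3 C + 9 C²)`, a contradiction. -/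
def Stmt_LAA : Prop := ∀ (b C : ℝ) (s : ℕ) (W : Fin (s * s) → Fin (s * s) → ℝ), 1 ≤ b → 1 ≤ C → 1 ≤ s → Wal s W →
  54 * b ^ 2 * C ^ 2 * (1 + 3 * C + 9 * C ^ 2) < s →
  ∀ (V : Type) [AddCommGroup V] [Module ℝ V] [FiniteDimensional ℝ V] (k : ℕ) (p r : Seminorm ℝ V), Def p → Def r → Hyp b k p r →
  k + s * s * (s * s + 2) ≤ finrank ℝ V → ∀ (i : (Fin k → ℝ) →ₗ[ℝ] V) (φ : V →ₗ[ℝ] (Fin k → ℝ)), (∀ a, φ (i a) = a) →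
  Iso C (p.comp i) (normSeminorm ℝ (Fin k → ℝ)) → (∀ x, p (i (φ x)) ≤ C * p x) → ∀ Λ : ℝ, 0 < Λ → Sys s C Λ i p r →
  ∃ Y : Submodule ℝ V, finrank ℝ V + 1 ≤ finrank ℝ Y + s * s ∧ ∀ y ∈ Y, p y ≤ cA s * Λ * r y

/-- **RIG** (180), uses WAL LAM SYP SYS VAN LAA. THEOREM R*. `C₁ = 2 b M`, `s = 2 ^ j > 54 b² C₁² (1 + 3 C₁ + 9 C₁²)`, `W` from WAL, `m = s * s`. `exists_proj` for `p` (`Iso M (p.comp i) sup`, identity): `φ`, constant `M`. `Hyp.inj` gives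
`Iso b (p.comp i) (r.comp i)`, so `Iso (b M) (r.comp i) sup`: `T` with `r (i z) ≤ ‖T z‖ ≤ b M r (i z)`, and `exists_proj` for `r`: `φ'`, constant `b M`. LAM for `ρ = r.comp i`, `m₁ = D1 s`: `Λ`. SYP with `2 Λ`, LAA (`C = M`): `Y₁` with
`p y ≤ cA s * (2 Λ) * r y`. SYS with `b M` for `b`, `C₀ = 2 M cA s`, `Y = Y₁.comap i` (`k + 1 ≤ finrank Y + m`: rank-nullity): `t`, `β`. VAN with `b M` for `b`: `Sys s (2 b M) (M / t) i r p`. LAA for the pair `(r, p)` (`Hyp.symm`), `C = 2 b M`, `φ'`: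
`Y₂` with `r y ≤ cA s * (M / t) * p y`, `M / t ≤ b M² / Λ`. `Y = Y₁ ⊓ Y₂`, `C = 2 b M² cA s`, `K = K₀ + D1 s + m (m + 2) + 2 m`. -/
def Stmt_RIG : Prop := ∀ b M : ℝ, 1 ≤ b → 1 ≤ M → ∃ (C : ℝ) (K : ℕ), 1 ≤ C ∧
  ∀ (V : Type) [AddCommGroup V] [Module ℝ V] [FiniteDimensional ℝ V] (k : ℕ) (p r : Seminorm ℝ V), Def p → Def r → Hyp b k p r →
  K ≤ k → k + K ≤ finrank ℝ V → ∀ i : (Fin k → ℝ) →ₗ[ℝ] V, (∀ z, p (i z) ≤ ‖z‖ ∧ ‖z‖ ≤ M * p (i z)) →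
  ∃ (Y : Submodule ℝ V) (Λ : ℝ), finrank ℝ V ≤ finrank ℝ Y + K ∧ 0 < Λ ∧ ∀ y ∈ Y, p y ≤ C * (Λ * r y) ∧ Λ * r y ≤ C * p y

end Pool.Agent.MP3e8c7as
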